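import Mathlib

/-! The gauged `O(3)` sigma model on the plane (problem MP_5f0afd_mp): definitions.

`φ = (φ₁, φ₂, φ₃)` takes values in the unit sphere, `n = (0, 0, 1)`, `A = (A₁, A₂)` is the gauge
potential, `D_j φ = ∂_j φ + A_j (n × φ)` and `F = ∂₁ A₂ - ∂₂ A₁`. -/

open MeasureTheory Filter Topology
open scoped ContDiff

noncomputable section

namespace O3

/-- The partial derivative `∂₁`. -/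
def d1 (f : ℝ × ℝ → ℝ) (x : ℝ × ℝ) : ℝ := fderiv ℝ f x (1, 0)

/-- The partial derivative `∂₂`. -/
def d2 (f : ℝ × ℝ → ℝ) (x : ℝ × ℝ) : ℝ := fderiv ℝ f x (0, 1)

/-- A configuration `(φ, A)`, given by its component functions. -/
structure Conf where
  φ1 : ℝ × ℝ → ℝ
  φ2 : ℝ × ℝ → ℝ
  φ3 : ℝ × ℝ → ℝ
  A1 : ℝ × ℝ → ℝ
  A2 : ℝ × ℝ → ℝ

namespace Conf

variable (c : Conf)

/-- The curvature `F = ∂₁ A₂ - ∂₂ A₁`. -/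
def F (x : ℝ × ℝ) : ℝ := d1 c.A2 x - d2 c.A1 x

/-- First component of `D₁ φ = ∂₁ φ + A₁ (n × φ)`. -/
def P1 (x : ℝ × ℝ) : ℝ := d1 c.φ1 x - c.A1 x * c.φ2 x
/-- Second component of `D₁ φ`. -/
def Q1 (x : ℝ × ℝ) : ℝ := d1 c.φ2 x + c.A1 x * c.φ1 x
/-- Third component of `D₁ φ`. -/
def S1 (x : ℝ × ℝ) : ℝ := d1 c.φ3 x
/-- First component of `D₂ φ = ∂₂ φ + A₂ (n × φ)`. -/
def P2 (x : ℝ × ℝ) : ℝ := d2 c.φ1 x - c.A2 x * c.φ2 x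
/-- Second component of `D₂ φ`. -/
def Q2 (x : ℝ × ℝ) : ℝ := d2 c.φ2 x + c.A2 x * c.φ1 x
/-- Third component of `D₂ φ`. -/
def S2 (x : ℝ × ℝ) : ℝ := d2 c.φ3 x

/-- First component of `D₁ D₁ φ + D₂ D₂ φ`. -/
def L1 (x : ℝ × ℝ) : ℝ := (d1 c.P1 x - c.A1 x * c.Q1 x) + (d2 c.P2 x - c.A2 x * c.Q2 x)
/-- Second component of `D₁ D₁ φ + D₂ D₂ φ`. -/
def L2 (x : ℝ × ℝ) : ℝ := (d1 c.Q1 x + c.A1 x * c.P1 x) + (d2 c.Q2 x + c.A2 x * c.P2 x)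
/-- Third component of `D₁ D₁ φ + D₂ D₂ φ`. -/
def L3 (x : ℝ × ℝ) : ℝ := d1 c.S1 x + d2 c.S2 x

/-- Twice the energy density: `|D₁ φ|² + |D₂ φ|² + (1 - n · φ)² + F²`. -/
def density (x : ℝ × ℝ) : ℝ :=
  (c.P1 x ^ 2 + c.Q1 x ^ 2 + c.S1 x ^ 2) + (c.P2 x ^ 2 + c.Q2 x ^ 2 + c.S2 x ^ 2)
    + (1 - c.φ3 x) ^ 2 + c.F x ^ 2

/-- The degree density `φ · (∂₁ φ × ∂₂ φ)`. -/
def degDensity (x : ℝ × ℝ) : ℝ :=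
  c.φ1 x * (d1 c.φ2 x * d2 c.φ3 x - d1 c.φ3 x * d2 c.φ2 x)
    + c.φ2 x * (d1 c.φ3 x * d2 c.φ1 x - d1 c.φ1 x * d2 c.φ3 x)
    + c.φ3 x * (d1 c.φ1 x * d2 c.φ2 x - d1 c.φ2 x * d2 c.φ1 x)

/-- The degree of `φ`. -/
def degree : ℝ := 1 / (4 * Real.pi) * ∫ x, c.degDensity x

/-- `(φ, A)` is a smooth critical point of finite energy of
`E = 1/2 ∫ |D₁ φ|² + |D₂ φ|² + (1 - n · φ)² + F²` with `|φ| = 1` and `n · φ → 1` at infinity.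
The Euler-Lagrange equations are `∂₁ F = (n × φ) · D₂ φ`, `∂₂ F = - (n × φ) · D₁ φ` and
`φ × (D₁ D₁ φ + D₂ D₂ φ + (1 - n · φ) n) = 0`. -/
structure Critical : Prop where
  smooth_φ1 : ContDiff ℝ ∞ c.φ1
  smooth_φ2 : ContDiff ℝ ∞ c.φ2
  smooth_φ3 : ContDiff ℝ ∞ c.φ3
  smooth_A1 : ContDiff ℝ ∞ c.A1
  smooth_A2 : ContDiff ℝ ∞ c.A2
  unit : ∀ x, c.φ1 x ^ 2 + c.φ2 x ^ 2 + c.φ3 x ^ 2 = 1
  eqA1 : ∀ x, d1 c.F x = c.φ1 x * c.Q2 x - c.φ2 x * c.P2 x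
  eqA2 : ∀ x, d2 c.F x = -(c.φ1 x * c.Q1 x - c.φ2 x * c.P1 x)
  eqφ1 : ∀ x, c.φ2 x * (c.L3 x + (1 - c.φ3 x)) - c.φ3 x * c.L2 x = 0
  eqφ2 : ∀ x, c.φ3 x * c.L1 x - c.φ1 x * (c.L3 x + (1 - c.φ3 x)) = 0
  eqφ3 : ∀ x, c.φ1 x * c.L2 x - c.φ2 x * c.L1 x = 0
  finite : Integrable c.density
  boundary : Tendsto c.φ3 (cocompact (ℝ × ℝ)) (𝓝 1)

/-- The (anti-)self-dual equations `D₁ φ = σ φ × D₂ φ`, `F = - σ (1 - n · φ)`: self-dual (upper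
signs in the problem) for `σ = -1`, anti-self-dual for `σ = 1`. -/
def Dual (σ : ℝ) : Prop := ∀ x,
  c.P1 x = σ * (c.φ2 x * c.S2 x - c.φ3 x * c.Q2 x) ∧
  c.Q1 x = σ * (c.φ3 x * c.P2 x - c.φ1 x * c.S2 x) ∧
  c.S1 x = σ * (c.φ1 x * c.Q2 x - c.φ2 x * c.P2 x) ∧
  c.F x = -σ * (1 - c.φ3 x)

/-- `(φ, A)` is equivariant with winding number `N`: `φ (R_α x) = R_{Nα} φ (x)` (rotation about
the third axis) and `A (R_α x) = R_α A (x)`. -/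
def Equivariant (N : ℤ) : Prop := ∀ α x y : ℝ,
  let z : ℝ × ℝ := (Real.cos α * x - Real.sin α * y, Real.sin α * x + Real.cos α * y)
  c.φ1 z = Real.cos (N * α) * c.φ1 (x, y) - Real.sin (N * α) * c.φ2 (x, y) ∧
  c.φ2 z = Real.sin (N * α) * c.φ1 (x, y) + Real.cos (N * α) * c.φ2 (x, y) ∧
  c.φ3 z = c.φ3 (x, y) ∧
  c.A1 z = Real.cos α * c.A1 (x, y) - Real.sin α * c.A2 (x, y) ∧
  c.A2 z = Real.sin α * c.A1 (x, y) + Real.cos α * c.A2 (x, y)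

/-- `w + σ F` with `w = 1 - n · φ`. -/
def v (σ : ℝ) (x : ℝ × ℝ) : ℝ := (1 - c.φ3 x) + σ * c.F x

/-- `|D₁ φ - σ φ × D₂ φ|²`. -/
def W (σ : ℝ) (x : ℝ × ℝ) : ℝ :=
  (c.P1 x - σ * (c.φ2 x * c.S2 x - c.φ3 x * c.Q2 x)) ^ 2 +
  (c.Q1 x - σ * (c.φ3 x * c.P2 x - c.φ1 x * c.S2 x)) ^ 2 +
  (c.S1 x - σ * (c.φ1 x * c.Q2 x - c.φ2 x * c.P2 x)) ^ 2

/-- Components of the stress tensor. -/
def T11 (x : ℝ × ℝ) : ℝ :=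
  ((c.P1 x ^ 2 + c.Q1 x ^ 2 + c.S1 x ^ 2) - (c.P2 x ^ 2 + c.Q2 x ^ 2 + c.S2 x ^ 2)
    + c.F x ^ 2 - (1 - c.φ3 x) ^ 2) / 2
def T12 (x : ℝ × ℝ) : ℝ := c.P1 x * c.P2 x + c.Q1 x * c.Q2 x + c.S1 x * c.S2 x
def T22 (x : ℝ × ℝ) : ℝ :=
  ((c.P2 x ^ 2 + c.Q2 x ^ 2 + c.S2 x ^ 2) - (c.P1 x ^ 2 + c.Q1 x ^ 2 + c.S1 x ^ 2)
    + c.F x ^ 2 - (1 - c.φ3 x) ^ 2) / 2

end Conf

end O3
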