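import Pool.Agent.O3.Defs

open MeasureTheory Filter Topology
open scoped ContDiff

noncomputable section

namespace O3

theorem smooth_d1 {f : ℝ × ℝ → ℝ} (hf : ContDiff ℝ ∞ f) : ContDiff ℝ ∞ (d1 f) :=
  (hf.fderiv_right (m := ∞) (by simp)).clm_apply contDiff_const

theorem smooth_d2 {f : ℝ × ℝ → ℝ} (hf : ContDiff ℝ ∞ f) : ContDiff ℝ ∞ (d2 f) :=
  (hf.fderiv_right (m := ∞) (by simp)).clm_apply contDiff_const

theorem sm_diff {f : ℝ × ℝ → ℝ} (hf : ContDiff ℝ ∞ f) : Differentiable ℝ f :=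
  hf.differentiable (by simp)

theorem d1_add {f g : ℝ × ℝ → ℝ} (hf : ContDiff ℝ ∞ f) (hg : ContDiff ℝ ∞ g) (x : ℝ × ℝ) :
    d1 (fun y => f y + g y) x = d1 f x + d1 g x := by
  unfold d1
  rw [fderiv_fun_add (sm_diff hf x) (sm_diff hg x)]
  rfl

theorem d2_add {f g : ℝ × ℝ → ℝ} (hf : ContDiff ℝ ∞ f) (hg : ContDiff ℝ ∞ g) (x : ℝ × ℝ) :
    d2 (fun y => f y + g y) x = d2 f x + d2 g x := by
  unfold d2
  rw [fderiv_fun_add (sm_diff hf x) (sm_diff hg x)]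
  rfl

theorem d1_sub {f g : ℝ × ℝ → ℝ} (hf : ContDiff ℝ ∞ f) (hg : ContDiff ℝ ∞ g) (x : ℝ × ℝ) :
    d1 (fun y => f y - g y) x = d1 f x - d1 g x := by
  unfold d1
  rw [fderiv_fun_sub (sm_diff hf x) (sm_diff hg x)]
  rfl

theorem d2_sub {f g : ℝ × ℝ → ℝ} (hf : ContDiff ℝ ∞ f) (hg : ContDiff ℝ ∞ g) (x : ℝ × ℝ) :
    d2 (fun y => f y - g y) x = d2 f x - d2 g x := by
  unfold d2
  rw [fderiv_fun_sub (sm_diff hf x) (sm_diff hg x)]
  rfl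

theorem d1_mul {f g : ℝ × ℝ → ℝ} (hf : ContDiff ℝ ∞ f) (hg : ContDiff ℝ ∞ g) (x : ℝ × ℝ) :
    d1 (fun y => f y * g y) x = d1 f x * g x + f x * d1 g x := by
  unfold d1
  rw [fderiv_fun_mul (sm_diff hf x) (sm_diff hg x)]
  simp
  ring

theorem d2_mul {f g : ℝ × ℝ → ℝ} (hf : ContDiff ℝ ∞ f) (hg : ContDiff ℝ ∞ g) (x : ℝ × ℝ) :
    d2 (fun y => f y * g y) x = d2 f x * g x + f x * d2 g x := by
  unfold d2
  rw [fderiv_fun_mul (sm_diff hf x) (sm_diff hg x)]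
  simp
  ring

theorem d1_sq {f : ℝ × ℝ → ℝ} (hf : ContDiff ℝ ∞ f) (x : ℝ × ℝ) :
    d1 (fun y => f y ^ 2) x = 2 * f x * d1 f x := by
  have := d1_mul hf hf x
  simp only [pow_two]
  rw [this]; ring

theorem d2_sq {f : ℝ × ℝ → ℝ} (hf : ContDiff ℝ ∞ f) (x : ℝ × ℝ) :
    d2 (fun y => f y ^ 2) x = 2 * f x * d2 f x := by
  have := d2_mul hf hf x
  simp only [pow_two]
  rw [this]; ring

theorem d1_const (k : ℝ) (x : ℝ × ℝ) : d1 (fun _ => k) x = 0 := by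
  simp [d1]

theorem d2_const (k : ℝ) (x : ℝ × ℝ) : d2 (fun _ => k) x = 0 := by
  simp [d2]

theorem d_comm {f : ℝ × ℝ → ℝ} (hf : ContDiff ℝ ∞ f) (x : ℝ × ℝ) :
    d1 (d2 f) x = d2 (d1 f) x := by
  have hsym : IsSymmSndFDerivAt ℝ f x :=
    hf.contDiffAt.isSymmSndFDerivAt (by simp; exact ENat.LEInfty.out)
  have hdd : DifferentiableAt ℝ (fderiv ℝ f) x :=
    (hf.fderiv_right (m := ∞) (by simp)).differentiable (by simp) x
  have h1 : d1 (d2 f) x = fderiv ℝ (fderiv ℝ f) x (1, 0) (0, 1) := by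
    unfold d1 d2
    rw [fderiv_clm_apply hdd (differentiableAt_const _)]
    simp
  have h2 : d2 (d1 f) x = fderiv ℝ (fderiv ℝ f) x (0, 1) (1, 0) := by
    unfold d1 d2
    rw [fderiv_clm_apply hdd (differentiableAt_const _)]
    simp
  rw [h1, h2]
  exact hsym (1, 0) (0, 1)

end O3
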