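import Pool.Agent.O3.Defs

/-! Module MAXT: first and second derivative tests at a local maximum. -/

open MeasureTheory Filter Topology
open scoped ContDiff

noncomputable section

namespace O3

private lemma maxt_line {f : ℝ × ℝ → ℝ} (hf : ContDiff ℝ ∞ f) (x e : ℝ × ℝ) (s : ℝ) :
    HasDerivAt (fun s : ℝ => f (x + s • e)) (fderiv ℝ f (x + s • e) e) s := by
  have h1 : HasDerivAt (fun s : ℝ => x + s • e) e s := by
    simpa using ((hasDerivAt_id s).smul_const e).const_add x
  exact ((hf.differentiable (by simp)).differentiableAt.hasFDerivAt).comp_hasDerivAt s h1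

private lemma maxt_dir {f : ℝ × ℝ → ℝ} (hf : ContDiff ℝ ∞ f) {x : ℝ × ℝ} (hx : IsLocalMax f x)
    (e : ℝ × ℝ) : fderiv ℝ (fun y => fderiv ℝ f y e) x e ≤ 0 := by
  have hf' : ContDiff ℝ ∞ (fun y => fderiv ℝ f y e) :=
    (hf.fderiv_right (m := ∞) (by simp)).clm_apply contDiff_const
  set g : ℝ → ℝ := fun s => f (x + s • e) with hg
  have hd : deriv g = fun s => fderiv ℝ f (x + s • e) e :=
    funext fun s => (maxt_line hf x e s).deriv
  have hdd : deriv (deriv g) 0 = fderiv ℝ (fun y => fderiv ℝ f y e) x e := by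
    rw [hd, (maxt_line hf' x e 0).deriv, zero_smul, add_zero]
  have hmax : IsLocalMax g 0 := by
    have hc : Tendsto (fun s : ℝ => x + s • e) (𝓝 0) (𝓝 x) := by
      have : Continuous (fun s : ℝ => x + s • e) := by fun_prop
      simpa using this.tendsto 0
    have := hc.eventually hx
    filter_upwards [this] with s hs
    simpa [hg] using hs
  have hd0 : deriv g 0 = 0 := hmax.deriv_eq_zero
  by_contra hcon
  push Not at hcon
  rw [← hdd] at hcon
  have hmin : IsLocalMin g 0 :=
    isLocalMin_of_deriv_deriv_pos hcon hd0 (maxt_line hf x e 0).continuousAt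
  have hconst : g =ᶠ[𝓝 0] fun _ => g 0 := by
    filter_upwards [hmax, hmin] with s h1 h2
    exact le_antisymm h1 h2
  have h3 : deriv g =ᶠ[𝓝 0] fun _ => 0 := by
    have h4 := hconst.deriv
    filter_upwards [h4] with s hs
    rw [hs]; simp
  have h5 : deriv (deriv g) 0 = 0 := by
    rw [h3.deriv_eq]; simp
  rw [h5] at hcon
  exact lt_irrefl _ hcon

/-- first and second derivative tests at a local maximum -/
theorem max_test {f : ℝ × ℝ → ℝ} (hf : ContDiff ℝ ∞ f) {x : ℝ × ℝ} (hx : IsLocalMax f x) :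
    d1 f x = 0 ∧ d2 f x = 0 ∧ d1 (d1 f) x ≤ 0 ∧ d2 (d2 f) x ≤ 0 := by
  have h0 := hx.fderiv_eq_zero
  refine ⟨?_, ?_, maxt_dir hf hx (1, 0), maxt_dir hf hx (0, 1)⟩
  · unfold d1; rw [h0]; rfl
  · unfold d2; rw [h0]; rfl

end O3
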