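import Pool.Agent.O3.Calc

open MeasureTheory Filter Topology
open scoped ContDiff

noncomputable section

namespace O3

variable {c : Conf}

theorem smooth_F (hc : c.Critical) : ContDiff ℝ ∞ c.F :=
  (smooth_d1 hc.smooth_A2).sub (smooth_d2 hc.smooth_A1)

theorem smooth_P1 (hc : c.Critical) : ContDiff ℝ ∞ c.P1 :=
  (smooth_d1 hc.smooth_φ1).sub (hc.smooth_A1.mul hc.smooth_φ2)
theorem smooth_Q1 (hc : c.Critical) : ContDiff ℝ ∞ c.Q1 :=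
  (smooth_d1 hc.smooth_φ2).add (hc.smooth_A1.mul hc.smooth_φ1)
theorem smooth_S1 (hc : c.Critical) : ContDiff ℝ ∞ c.S1 := smooth_d1 hc.smooth_φ3
theorem smooth_P2 (hc : c.Critical) : ContDiff ℝ ∞ c.P2 :=
  (smooth_d2 hc.smooth_φ1).sub (hc.smooth_A2.mul hc.smooth_φ2)
theorem smooth_Q2 (hc : c.Critical) : ContDiff ℝ ∞ c.Q2 :=
  (smooth_d2 hc.smooth_φ2).add (hc.smooth_A2.mul hc.smooth_φ1)
theorem smooth_S2 (hc : c.Critical) : ContDiff ℝ ∞ c.S2 := smooth_d2 hc.smooth_φ3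

theorem smooth_v (hc : c.Critical) (σ : ℝ) : ContDiff ℝ ∞ (c.v σ) :=
  (contDiff_const.sub hc.smooth_φ3).add (contDiff_const.mul (smooth_F hc))

theorem smooth_W (hc : c.Critical) (σ : ℝ) : ContDiff ℝ ∞ (c.W σ) := by
  have h1 := smooth_P1 hc
  have h2 := smooth_Q1 hc
  have h3 := smooth_S1 hc
  have h4 := smooth_P2 hc
  have h5 := smooth_Q2 hc
  have h6 := smooth_S2 hc
  have h7 := hc.smooth_φ1
  have h8 := hc.smooth_φ2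
  have h9 := hc.smooth_φ3
  unfold Conf.W
  fun_prop

theorem smooth_T (hc : c.Critical) :
    ContDiff ℝ ∞ c.T11 ∧ ContDiff ℝ ∞ c.T12 ∧ ContDiff ℝ ∞ c.T22 := by
  have h1 := smooth_P1 hc
  have h2 := smooth_Q1 hc
  have h3 := smooth_S1 hc
  have h4 := smooth_P2 hc
  have h5 := smooth_Q2 hc
  have h6 := smooth_S2 hc
  have h9 := hc.smooth_φ3
  have h10 := smooth_F hc
  refine ⟨?_, ?_, ?_⟩
  · unfold Conf.T11; fun_prop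
  · unfold Conf.T12; fun_prop
  · unfold Conf.T22; fun_prop

theorem tan1 (hc : c.Critical) (x : ℝ × ℝ) :
    c.φ1 x * c.P1 x + c.φ2 x * c.Q1 x + c.φ3 x * c.S1 x = 0 := by
  have h : d1 (fun y => (c.φ1 y ^ 2 + c.φ2 y ^ 2) + c.φ3 y ^ 2) x = 0 := by
    have : (fun y => (c.φ1 y ^ 2 + c.φ2 y ^ 2) + c.φ3 y ^ 2) = fun _ => (1 : ℝ) := by
      funext y; exact hc.unit y
    rw [this, d1_const]
  rw [d1_add ((hc.smooth_φ1.pow 2).add (hc.smooth_φ2.pow 2)) (hc.smooth_φ3.pow 2),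
    d1_add (hc.smooth_φ1.pow 2) (hc.smooth_φ2.pow 2), d1_sq hc.smooth_φ1, d1_sq hc.smooth_φ2,
    d1_sq hc.smooth_φ3] at h
  unfold Conf.P1 Conf.Q1 Conf.S1
  linear_combination h / 2

theorem tan2 (hc : c.Critical) (x : ℝ × ℝ) :
    c.φ1 x * c.P2 x + c.φ2 x * c.Q2 x + c.φ3 x * c.S2 x = 0 := by
  have h : d2 (fun y => (c.φ1 y ^ 2 + c.φ2 y ^ 2) + c.φ3 y ^ 2) x = 0 := by
    have : (fun y => (c.φ1 y ^ 2 + c.φ2 y ^ 2) + c.φ3 y ^ 2) = fun _ => (1 : ℝ) := by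
      funext y; exact hc.unit y
    rw [this, d2_const]
  rw [d2_add ((hc.smooth_φ1.pow 2).add (hc.smooth_φ2.pow 2)) (hc.smooth_φ3.pow 2),
    d2_add (hc.smooth_φ1.pow 2) (hc.smooth_φ2.pow 2), d2_sq hc.smooth_φ1, d2_sq hc.smooth_φ2,
    d2_sq hc.smooth_φ3] at h
  unfold Conf.P2 Conf.Q2 Conf.S2
  linear_combination h / 2

/-- derivative of a covariant scalar product, direction 1 -/
theorem cov1 (_hc : c.Critical) {p q s p' q' s' : ℝ × ℝ → ℝ} (hp : ContDiff ℝ ∞ p)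
    (hq : ContDiff ℝ ∞ q) (hs : ContDiff ℝ ∞ s) (hp' : ContDiff ℝ ∞ p')
    (hq' : ContDiff ℝ ∞ q') (hs' : ContDiff ℝ ∞ s') (x : ℝ × ℝ) :
    d1 (fun y => (p y * p' y + q y * q' y) + s y * s' y) x =
      ((d1 p x - c.A1 x * q x) * p' x + (d1 q x + c.A1 x * p x) * q' x + d1 s x * s' x) +
      (p x * (d1 p' x - c.A1 x * q' x) + q x * (d1 q' x + c.A1 x * p' x) + s x * d1 s' x) := by
  rw [d1_add ((hp.mul hp').add (hq.mul hq')) (hs.mul hs'), d1_add (hp.mul hp') (hq.mul hq'),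
    d1_mul hp hp', d1_mul hq hq', d1_mul hs hs']
  ring

theorem cov2 (_hc : c.Critical) {p q s p' q' s' : ℝ × ℝ → ℝ} (hp : ContDiff ℝ ∞ p)
    (hq : ContDiff ℝ ∞ q) (hs : ContDiff ℝ ∞ s) (hp' : ContDiff ℝ ∞ p')
    (hq' : ContDiff ℝ ∞ q') (hs' : ContDiff ℝ ∞ s') (x : ℝ × ℝ) :
    d2 (fun y => (p y * p' y + q y * q' y) + s y * s' y) x =
      ((d2 p x - c.A2 x * q x) * p' x + (d2 q x + c.A2 x * p x) * q' x + d2 s x * s' x) +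
      (p x * (d2 p' x - c.A2 x * q' x) + q x * (d2 q' x + c.A2 x * p' x) + s x * d2 s' x) := by
  rw [d2_add ((hp.mul hp').add (hq.mul hq')) (hs.mul hs'), d2_add (hp.mul hp') (hq.mul hq'),
    d2_mul hp hp', d2_mul hq hq', d2_mul hs hs']
  ring

/-- `φ · D₁ D₁ φ = - |D₁ φ|²` -/
theorem nor11 (hc : c.Critical) (x : ℝ × ℝ) :
    c.φ1 x * (d1 c.P1 x - c.A1 x * c.Q1 x) + c.φ2 x * (d1 c.Q1 x + c.A1 x * c.P1 x)
      + c.φ3 x * d1 c.S1 x = -(c.P1 x ^ 2 + c.Q1 x ^ 2 + c.S1 x ^ 2) := by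
  have h := cov1 hc hc.smooth_φ1 hc.smooth_φ2 hc.smooth_φ3 (smooth_P1 hc) (smooth_Q1 hc)
    (smooth_S1 hc) x
  have h0 : (fun y => (c.φ1 y * c.P1 y + c.φ2 y * c.Q1 y) + c.φ3 y * c.S1 y) =
      fun _ => (0 : ℝ) := by funext y; exact tan1 hc y
  rw [h0, d1_const] at h
  have e1 : d1 c.φ1 x - c.A1 x * c.φ2 x = c.P1 x := rfl
  have e2 : d1 c.φ2 x + c.A1 x * c.φ1 x = c.Q1 x := rfl
  have e3 : d1 c.φ3 x = c.S1 x := rfl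
  rw [e1, e2, e3] at h
  linear_combination -h

theorem nor22 (hc : c.Critical) (x : ℝ × ℝ) :
    c.φ1 x * (d2 c.P2 x - c.A2 x * c.Q2 x) + c.φ2 x * (d2 c.Q2 x + c.A2 x * c.P2 x)
      + c.φ3 x * d2 c.S2 x = -(c.P2 x ^ 2 + c.Q2 x ^ 2 + c.S2 x ^ 2) := by
  have h := cov2 hc hc.smooth_φ1 hc.smooth_φ2 hc.smooth_φ3 (smooth_P2 hc) (smooth_Q2 hc)
    (smooth_S2 hc) x
  have h0 : (fun y => (c.φ1 y * c.P2 y + c.φ2 y * c.Q2 y) + c.φ3 y * c.S2 y) =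
      fun _ => (0 : ℝ) := by funext y; exact tan2 hc y
  rw [h0, d2_const] at h
  have e1 : d2 c.φ1 x - c.A2 x * c.φ2 x = c.P2 x := rfl
  have e2 : d2 c.φ2 x + c.A2 x * c.φ1 x = c.Q2 x := rfl
  have e3 : d2 c.φ3 x = c.S2 x := rfl
  rw [e1, e2, e3] at h
  linear_combination -h

/-- The multiplier `λ = - |Dφ|² + (1 - φ₃) φ₃`. -/
def lam (c : Conf) (x : ℝ × ℝ) : ℝ :=
  -((c.P1 x ^ 2 + c.Q1 x ^ 2 + c.S1 x ^ 2) + (c.P2 x ^ 2 + c.Q2 x ^ 2 + c.S2 x ^ 2))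
    + (1 - c.φ3 x) * c.φ3 x

theorem el_all (hc : c.Critical) (x : ℝ × ℝ) :
    c.L1 x = lam c x * c.φ1 x ∧ c.L2 x = lam c x * c.φ2 x ∧
      c.L3 x = lam c x * c.φ3 x - (1 - c.φ3 x) := by
  have h1 := hc.eqφ1 x
  have h2 := hc.eqφ2 x
  have h3 := hc.eqφ3 x
  have hu := hc.unit x
  have n1 := nor11 hc x
  have n2 := nor22 hc x
  have hL : c.φ1 x * c.L1 x + c.φ2 x * c.L2 x + c.φ3 x * (c.L3 x + (1 - c.φ3 x)) = lam c x := by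
    unfold lam Conf.L1 Conf.L2 Conf.L3
    linear_combination n1 + n2
  refine ⟨?_, ?_, ?_⟩
  · linear_combination -c.L1 x * hu + c.φ1 x * hL - c.φ2 x * h3 + c.φ3 x * h2
  · linear_combination -c.L2 x * hu + c.φ2 x * hL - c.φ3 x * h1 + c.φ1 x * h3
  · linear_combination -(c.L3 x + (1 - c.φ3 x)) * hu + c.φ3 x * hL - c.φ1 x * h2 + c.φ2 x * h1

theorem lapl_φ3 (hc : c.Critical) (x : ℝ × ℝ) : d1 (d1 c.φ3) x + d2 (d2 c.φ3) x =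
    -((c.P1 x ^ 2 + c.Q1 x ^ 2 + c.S1 x ^ 2) + (c.P2 x ^ 2 + c.Q2 x ^ 2 + c.S2 x ^ 2)) * c.φ3 x
      - (1 - c.φ3 x) * (1 - c.φ3 x ^ 2) := by
  have h := (el_all hc x).2.2
  have e : c.L3 x = d1 (d1 c.φ3) x + d2 (d2 c.φ3) x := rfl
  rw [← e, h]
  unfold lam
  ring

/-- commutator of the covariant derivatives -/
theorem comm_all (hc : c.Critical) (x : ℝ × ℝ) :
    (d1 c.P2 x - c.A1 x * c.Q2 x) - (d2 c.P1 x - c.A2 x * c.Q1 x) = -(c.F x * c.φ2 x) ∧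
    (d1 c.Q2 x + c.A1 x * c.P2 x) - (d2 c.Q1 x + c.A2 x * c.P1 x) = c.F x * c.φ1 x ∧
    d1 c.S2 x - d2 c.S1 x = 0 := by
  have eP2 : d1 c.P2 x = d1 (d2 c.φ1) x - (d1 c.A2 x * c.φ2 x + c.A2 x * d1 c.φ2 x) := by
    have := d1_sub (smooth_d2 hc.smooth_φ1) (hc.smooth_A2.mul hc.smooth_φ2) x
    rw [d1_mul hc.smooth_A2 hc.smooth_φ2] at this
    exact this
  have eP1 : d2 c.P1 x = d2 (d1 c.φ1) x - (d2 c.A1 x * c.φ2 x + c.A1 x * d2 c.φ2 x) := by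
    have := d2_sub (smooth_d1 hc.smooth_φ1) (hc.smooth_A1.mul hc.smooth_φ2) x
    rw [d2_mul hc.smooth_A1 hc.smooth_φ2] at this
    exact this
  have eQ2 : d1 c.Q2 x = d1 (d2 c.φ2) x + (d1 c.A2 x * c.φ1 x + c.A2 x * d1 c.φ1 x) := by
    have := d1_add (smooth_d2 hc.smooth_φ2) (hc.smooth_A2.mul hc.smooth_φ1) x
    rw [d1_mul hc.smooth_A2 hc.smooth_φ1] at this
    exact this
  have eQ1 : d2 c.Q1 x = d2 (d1 c.φ2) x + (d2 c.A1 x * c.φ1 x + c.A1 x * d2 c.φ1 x) := by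
    have := d2_add (smooth_d1 hc.smooth_φ2) (hc.smooth_A1.mul hc.smooth_φ1) x
    rw [d2_mul hc.smooth_A1 hc.smooth_φ1] at this
    exact this
  have k1 := d_comm hc.smooth_φ1 x
  have k2 := d_comm hc.smooth_φ2 x
  have k3 := d_comm hc.smooth_φ3 x
  refine ⟨?_, ?_, ?_⟩
  · rw [eP2, eP1]
    unfold Conf.Q2 Conf.Q1 Conf.F
    linear_combination k1
  · rw [eQ2, eQ1]
    unfold Conf.P2 Conf.P1 Conf.F
    linear_combination k2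
  · exact sub_eq_zero.2 k3

/-- `ΔF = 2 n · (D₁ φ × D₂ φ) + (1 - φ₃²) F` -/
theorem lapl_F (hc : c.Critical) (x : ℝ × ℝ) :
    d1 (d1 c.F) x + d2 (d2 c.F) x =
      2 * (c.P1 x * c.Q2 x - c.Q1 x * c.P2 x) + (1 - c.φ3 x ^ 2) * c.F x := by
  have e1 : d1 c.F = fun y => c.φ1 y * c.Q2 y - c.φ2 y * c.P2 y := funext hc.eqA1
  have e2 : d2 c.F = fun y => c.φ2 y * c.P1 y - c.φ1 y * c.Q1 y := by
    funext y; rw [hc.eqA2 y]; ring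
  rw [e1, e2, d1_sub (hc.smooth_φ1.mul (smooth_Q2 hc)) (hc.smooth_φ2.mul (smooth_P2 hc)),
    d2_sub (hc.smooth_φ2.mul (smooth_P1 hc)) (hc.smooth_φ1.mul (smooth_Q1 hc)),
    d1_mul hc.smooth_φ1 (smooth_Q2 hc), d1_mul hc.smooth_φ2 (smooth_P2 hc),
    d2_mul hc.smooth_φ2 (smooth_P1 hc), d2_mul hc.smooth_φ1 (smooth_Q1 hc)]
  obtain ⟨k1, k2, -⟩ := comm_all hc x
  have hu := hc.unit x
  have f1 : d1 c.φ1 x = c.P1 x + c.A1 x * c.φ2 x := by unfold Conf.P1; ring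
  have f2 : d1 c.φ2 x = c.Q1 x - c.A1 x * c.φ1 x := by unfold Conf.Q1; ring
  have f3 : d2 c.φ1 x = c.P2 x + c.A2 x * c.φ2 x := by unfold Conf.P2; ring
  have f4 : d2 c.φ2 x = c.Q2 x - c.A2 x * c.φ1 x := by unfold Conf.Q2; ring
  rw [f1, f2, f3, f4]
  linear_combination c.φ1 x * k2 - c.φ2 x * k1 + c.F x * hu

theorem d_v (hc : c.Critical) (σ : ℝ) :
    (d1 (c.v σ) = fun x => σ * d1 c.F x - c.S1 x) ∧
    (d2 (c.v σ) = fun x => σ * d2 c.F x - c.S2 x) := by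
  have hF := smooth_F hc
  constructor
  · funext x
    have h := d1_add (contDiff_const.sub hc.smooth_φ3 : ContDiff ℝ ∞ fun y => (1:ℝ) - c.φ3 y)
      (contDiff_const.mul hF : ContDiff ℝ ∞ fun y => σ * c.F y) x
    rw [d1_sub contDiff_const hc.smooth_φ3, d1_const, d1_mul contDiff_const hF, d1_const] at h
    have e : d1 (c.v σ) x = d1 (fun y => 1 - c.φ3 y + σ * c.F y) x := rfl
    rw [e, h]
    unfold Conf.S1
    ring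
  · funext x
    have h := d2_add (contDiff_const.sub hc.smooth_φ3 : ContDiff ℝ ∞ fun y => (1:ℝ) - c.φ3 y)
      (contDiff_const.mul hF : ContDiff ℝ ∞ fun y => σ * c.F y) x
    rw [d2_sub contDiff_const hc.smooth_φ3, d2_const, d2_mul contDiff_const hF, d2_const] at h
    have e : d2 (c.v σ) x = d2 (fun y => 1 - c.φ3 y + σ * c.F y) x := rfl
    rw [e, h]
    unfold Conf.S2
    ring

/-- `φ · (D₁ φ × D₂ φ)` -/
def kap (c : Conf) (x : ℝ × ℝ) : ℝ :=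
  c.φ1 x * (c.Q1 x * c.S2 x - c.S1 x * c.Q2 x) + c.φ2 x * (c.S1 x * c.P2 x - c.P1 x * c.S2 x)
    + c.φ3 x * (c.P1 x * c.Q2 x - c.Q1 x * c.P2 x)

theorem kap3 (hc : c.Critical) (x : ℝ × ℝ) :
    c.φ3 x * kap c x = c.P1 x * c.Q2 x - c.Q1 x * c.P2 x := by
  have t1 := tan1 hc x
  have t2 := tan2 hc x
  have hu := hc.unit x
  unfold kap
  linear_combination c.φ1 x * (c.Q1 x * t2 - c.Q2 x * t1) - c.φ2 x * (c.P1 x * t2 - c.P2 x * t1)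
    + (c.P1 x * c.Q2 x - c.Q1 x * c.P2 x) * hu

theorem W_eq (hc : c.Critical) {σ : ℝ} (hσ : σ ^ 2 = 1) (x : ℝ × ℝ) :
    c.W σ x = (c.P1 x ^ 2 + c.Q1 x ^ 2 + c.S1 x ^ 2) + (c.P2 x ^ 2 + c.Q2 x ^ 2 + c.S2 x ^ 2)
      + 2 * σ * kap c x := by
  have t2 := tan2 hc x
  have hu := hc.unit x
  have e : (c.φ2 x * c.S2 x - c.φ3 x * c.Q2 x) ^ 2 + (c.φ3 x * c.P2 x - c.φ1 x * c.S2 x) ^ 2
      + (c.φ1 x * c.Q2 x - c.φ2 x * c.P2 x) ^ 2 = c.P2 x ^ 2 + c.Q2 x ^ 2 + c.S2 x ^ 2 := by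
    linear_combination (c.P2 x ^ 2 + c.Q2 x ^ 2 + c.S2 x ^ 2) * hu
      - (c.φ1 x * c.P2 x + c.φ2 x * c.Q2 x + c.φ3 x * c.S2 x) * t2
  unfold Conf.W kap
  linear_combination e * σ ^ 2 + (c.P2 x ^ 2 + c.Q2 x ^ 2 + c.S2 x ^ 2) * hσ

theorem lapl_v (hc : c.Critical) {σ : ℝ} (hσ : σ ^ 2 = 1) (x : ℝ × ℝ) :
    d1 (d1 (c.v σ)) x + d2 (d2 (c.v σ)) x =
      (1 - c.φ3 x ^ 2) * c.v σ x + c.φ3 x * c.W σ x := by
  have hF := smooth_F hc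
  have h1 : d1 (d1 (c.v σ)) x = σ * d1 (d1 c.F) x - d1 c.S1 x := by
    rw [(d_v hc σ).1, d1_sub (contDiff_const.mul (smooth_d1 hF)) (smooth_S1 hc),
      d1_mul contDiff_const (smooth_d1 hF), d1_const]
    ring
  have h2 : d2 (d2 (c.v σ)) x = σ * d2 (d2 c.F) x - d2 c.S2 x := by
    rw [(d_v hc σ).2, d2_sub (contDiff_const.mul (smooth_d2 hF)) (smooth_S2 hc),
      d2_mul contDiff_const (smooth_d2 hF), d2_const]
    ring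
  have e1 : d1 c.S1 x = d1 (d1 c.φ3) x := rfl
  have e2 : d2 c.S2 x = d2 (d2 c.φ3) x := rfl
  have l3 := lapl_φ3 hc x
  have lF := lapl_F hc x
  have k3 := kap3 hc x
  rw [h1, h2, e1, e2, W_eq hc hσ]
  unfold Conf.v
  linear_combination σ * lF - l3 - 2 * σ * k3

theorem JS1 (hc : c.Critical) (x : ℝ × ℝ) :
    (c.φ1 x * c.Q1 x - c.φ2 x * c.P1 x) ^ 2 + c.S1 x ^ 2 =
      (1 - c.φ3 x ^ 2) * (c.P1 x ^ 2 + c.Q1 x ^ 2 + c.S1 x ^ 2) := by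
  have t := tan1 hc x
  have hu := hc.unit x
  linear_combination (c.P1 x ^ 2 + c.Q1 x ^ 2) * hu
    + (-(c.φ1 x * c.P1 x + c.φ2 x * c.Q1 x + c.φ3 x * c.S1 x) + 2 * c.φ3 x * c.S1 x) * t

theorem JS2 (hc : c.Critical) (x : ℝ × ℝ) :
    (c.φ1 x * c.Q2 x - c.φ2 x * c.P2 x) ^ 2 + c.S2 x ^ 2 =
      (1 - c.φ3 x ^ 2) * (c.P2 x ^ 2 + c.Q2 x ^ 2 + c.S2 x ^ 2) := by
  have t := tan2 hc x
  have hu := hc.unit x
  linear_combination (c.P2 x ^ 2 + c.Q2 x ^ 2) * hu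
    + (-(c.φ1 x * c.P2 x + c.φ2 x * c.Q2 x + c.φ3 x * c.S2 x) + 2 * c.φ3 x * c.S2 x) * t

theorem grad_v (hc : c.Critical) {σ : ℝ} (hσ : σ ^ 2 = 1) (x : ℝ × ℝ) :
    d1 (c.v σ) x ^ 2 + d2 (c.v σ) x ^ 2 = (1 - c.φ3 x ^ 2) * c.W σ x := by
  have j1 := JS1 hc x
  have j2 := JS2 hc x
  have k3 := kap3 hc x
  have kk : c.S1 x * (c.φ1 x * c.Q2 x - c.φ2 x * c.P2 x)
      - c.S2 x * (c.φ1 x * c.Q1 x - c.φ2 x * c.P1 x) = -(1 - c.φ3 x ^ 2) * kap c x := by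
    unfold kap at k3 ⊢
    linear_combination -c.φ3 x * k3
  rw [(d_v hc σ).1, (d_v hc σ).2, W_eq hc hσ]
  show (σ * d1 c.F x - c.S1 x) ^ 2 + (σ * d2 c.F x - c.S2 x) ^ 2 = _
  rw [hc.eqA1, hc.eqA2]
  linear_combination j1 + j2 - 2 * σ * kk + ((c.φ1 x * c.Q2 x - c.φ2 x * c.P2 x) ^ 2 +
    (c.φ1 x * c.Q1 x - c.φ2 x * c.P1 x) ^ 2) * hσ

theorem grad_F_le (hc : c.Critical) (x : ℝ × ℝ) :
    d1 c.F x ^ 2 + d2 c.F x ^ 2 ≤ c.density x := by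
  have j1 := JS1 hc x
  have j2 := JS2 hc x
  rw [hc.eqA1, hc.eqA2]
  unfold Conf.density
  have h1 : 0 ≤ c.φ3 x ^ 2 * (c.P1 x ^ 2 + c.Q1 x ^ 2 + c.S1 x ^ 2) := by positivity
  have h2 : 0 ≤ c.φ3 x ^ 2 * (c.P2 x ^ 2 + c.Q2 x ^ 2 + c.S2 x ^ 2) := by positivity
  nlinarith [sq_nonneg (c.S1 x), sq_nonneg (c.S2 x), sq_nonneg (1 - c.φ3 x), sq_nonneg (c.F x)]

theorem d1_half {f : ℝ × ℝ → ℝ} (hf : ContDiff ℝ ∞ f) (x : ℝ × ℝ) :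
    d1 (fun y => f y / 2) x = d1 f x / 2 := by
  have h := d1_mul hf (contDiff_const : ContDiff ℝ ∞ fun _ => (2⁻¹ : ℝ)) x
  rw [d1_const] at h
  simp only [div_eq_mul_inv]
  rw [h]; ring

theorem d2_half {f : ℝ × ℝ → ℝ} (hf : ContDiff ℝ ∞ f) (x : ℝ × ℝ) :
    d2 (fun y => f y / 2) x = d2 f x / 2 := by
  have h := d2_mul hf (contDiff_const : ContDiff ℝ ∞ fun _ => (2⁻¹ : ℝ)) x
  rw [d2_const] at h
  simp only [div_eq_mul_inv]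
  rw [h]; ring

theorem sq_cov (p q s : ℝ × ℝ → ℝ) :
    (fun y => p y ^ 2 + q y ^ 2 + s y ^ 2) = fun y => (p y * p y + q y * q y) + s y * s y := by
  funext y; ring

theorem stress1 (hc : c.Critical) (x : ℝ × ℝ) : d1 c.T11 x + d2 c.T12 x = 0 := by
  have hP1 := smooth_P1 hc
  have hQ1 := smooth_Q1 hc
  have hS1 := smooth_S1 hc
  have hP2 := smooth_P2 hc
  have hQ2 := smooth_Q2 hc
  have hS2 := smooth_S2 hc
  have hF := smooth_F hc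
  have hw : ContDiff ℝ ∞ fun y => 1 - c.φ3 y := contDiff_const.sub hc.smooth_φ3
  have hE1 : ContDiff ℝ ∞ fun y => c.P1 y ^ 2 + c.Q1 y ^ 2 + c.S1 y ^ 2 := by fun_prop
  have hE2 : ContDiff ℝ ∞ fun y => c.P2 y ^ 2 + c.Q2 y ^ 2 + c.S2 y ^ 2 := by fun_prop
  have a1 : d1 c.T11 x = (d1 (fun y => c.P1 y ^ 2 + c.Q1 y ^ 2 + c.S1 y ^ 2) x
      - d1 (fun y => c.P2 y ^ 2 + c.Q2 y ^ 2 + c.S2 y ^ 2) x + 2 * c.F x * d1 c.F x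
      + 2 * (1 - c.φ3 x) * c.S1 x) / 2 := by
    have h := d1_half (((hE1.sub hE2).add (hF.pow 2)).sub (hw.pow 2)) x
    rw [d1_sub ((hE1.sub hE2).add (hF.pow 2)) (hw.pow 2), d1_add (hE1.sub hE2) (hF.pow 2),
      d1_sub hE1 hE2, d1_sq hF, d1_sq hw, d1_sub contDiff_const hc.smooth_φ3, d1_const] at h
    have e : d1 c.T11 x = d1 (fun y => (((c.P1 y ^ 2 + c.Q1 y ^ 2 + c.S1 y ^ 2)
      - (c.P2 y ^ 2 + c.Q2 y ^ 2 + c.S2 y ^ 2)) + c.F y ^ 2 - (1 - c.φ3 y) ^ 2) / 2) x := rfl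
    rw [e, h]
    have : d1 c.φ3 x = c.S1 x := rfl
    rw [this]; ring
  have a2 : d2 c.T12 x = ((d2 c.P1 x - c.A2 x * c.Q1 x) * c.P2 x
      + (d2 c.Q1 x + c.A2 x * c.P1 x) * c.Q2 x + d2 c.S1 x * c.S2 x) +
      (c.P1 x * (d2 c.P2 x - c.A2 x * c.Q2 x) + c.Q1 x * (d2 c.Q2 x + c.A2 x * c.P2 x)
        + c.S1 x * d2 c.S2 x) := cov2 hc hP1 hQ1 hS1 hP2 hQ2 hS2 x
  rw [a1, a2, sq_cov, sq_cov, cov1 hc hP1 hQ1 hS1 hP1 hQ1 hS1, cov1 hc hP2 hQ2 hS2 hP2 hQ2 hS2]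
  obtain ⟨k1, k2, k3⟩ := comm_all hc x
  obtain ⟨l1, l2, l3⟩ := el_all hc x
  have t1 := tan1 hc x
  rw [hc.eqA1]
  unfold Conf.L1 Conf.L2 Conf.L3 at *
  linear_combination c.P1 x * l1 + c.Q1 x * l2 + c.S1 x * l3 + lam c x * t1
    - c.P2 x * k1 - c.Q2 x * k2 - c.S2 x * k3

theorem stress2 (hc : c.Critical) (x : ℝ × ℝ) : d1 c.T12 x + d2 c.T22 x = 0 := by
  have hP1 := smooth_P1 hc
  have hQ1 := smooth_Q1 hc
  have hS1 := smooth_S1 hc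
  have hP2 := smooth_P2 hc
  have hQ2 := smooth_Q2 hc
  have hS2 := smooth_S2 hc
  have hF := smooth_F hc
  have hw : ContDiff ℝ ∞ fun y => 1 - c.φ3 y := contDiff_const.sub hc.smooth_φ3
  have hE1 : ContDiff ℝ ∞ fun y => c.P1 y ^ 2 + c.Q1 y ^ 2 + c.S1 y ^ 2 := by fun_prop
  have hE2 : ContDiff ℝ ∞ fun y => c.P2 y ^ 2 + c.Q2 y ^ 2 + c.S2 y ^ 2 := by fun_prop
  have a1 : d2 c.T22 x = (d2 (fun y => c.P2 y ^ 2 + c.Q2 y ^ 2 + c.S2 y ^ 2) x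
      - d2 (fun y => c.P1 y ^ 2 + c.Q1 y ^ 2 + c.S1 y ^ 2) x + 2 * c.F x * d2 c.F x
      + 2 * (1 - c.φ3 x) * c.S2 x) / 2 := by
    have h := d2_half (((hE2.sub hE1).add (hF.pow 2)).sub (hw.pow 2)) x
    rw [d2_sub ((hE2.sub hE1).add (hF.pow 2)) (hw.pow 2), d2_add (hE2.sub hE1) (hF.pow 2),
      d2_sub hE2 hE1, d2_sq hF, d2_sq hw, d2_sub contDiff_const hc.smooth_φ3, d2_const] at h
    have e : d2 c.T22 x = d2 (fun y => (((c.P2 y ^ 2 + c.Q2 y ^ 2 + c.S2 y ^ 2)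
      - (c.P1 y ^ 2 + c.Q1 y ^ 2 + c.S1 y ^ 2)) + c.F y ^ 2 - (1 - c.φ3 y) ^ 2) / 2) x := rfl
    rw [e, h]
    have : d2 c.φ3 x = c.S2 x := rfl
    rw [this]; ring
  have a2 : d1 c.T12 x = ((d1 c.P1 x - c.A1 x * c.Q1 x) * c.P2 x
      + (d1 c.Q1 x + c.A1 x * c.P1 x) * c.Q2 x + d1 c.S1 x * c.S2 x) +
      (c.P1 x * (d1 c.P2 x - c.A1 x * c.Q2 x) + c.Q1 x * (d1 c.Q2 x + c.A1 x * c.P2 x)
        + c.S1 x * d1 c.S2 x) := cov1 hc hP1 hQ1 hS1 hP2 hQ2 hS2 x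
  rw [a1, a2, sq_cov, sq_cov, cov2 hc hP1 hQ1 hS1 hP1 hQ1 hS1, cov2 hc hP2 hQ2 hS2 hP2 hQ2 hS2]
  obtain ⟨k1, k2, k3⟩ := comm_all hc x
  obtain ⟨l1, l2, l3⟩ := el_all hc x
  have t2 := tan2 hc x
  rw [hc.eqA2]
  unfold Conf.L1 Conf.L2 Conf.L3 at *
  linear_combination c.P2 x * l1 + c.Q2 x * l2 + c.S2 x * l3 + lam c x * t2
    + c.P1 x * k1 + c.Q1 x * k2 + c.S1 x * k3

end O3
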