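import Pool.Agent.O3.Defs
import Pool.Agent.O3.Calc
import Pool.Agent.O3.Pde
import Pool.Agent.O3.Maxt

/-! Module CONN: a barrier argument. -/

open MeasureTheory Filter Topology
open scoped ContDiff

noncomputable section

namespace O3

variable {c : Conf}

theorem conn_d1_exp {f : ℝ × ℝ → ℝ} (hf : ContDiff ℝ ∞ f) (x : ℝ × ℝ) :
    d1 (fun y => Real.exp (f y)) x = Real.exp (f x) * d1 f x := by
  unfold d1
  rw [fderiv_exp ((hf.differentiable (by simp)) x)]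
  rfl

theorem conn_d2_exp {f : ℝ × ℝ → ℝ} (hf : ContDiff ℝ ∞ f) (x : ℝ × ℝ) :
    d2 (fun y => Real.exp (f y)) x = Real.exp (f x) * d2 f x := by
  unfold d2
  rw [fderiv_exp ((hf.differentiable (by simp)) x)]
  rfl

theorem conn_d1_cmul {f : ℝ × ℝ → ℝ} (hf : ContDiff ℝ ∞ f) (k : ℝ) (x : ℝ × ℝ) :
    d1 (fun y => k * f y) x = k * d1 f x := by
  rw [d1_mul contDiff_const hf, d1_const, zero_mul, zero_add]

theorem conn_d2_cmul {f : ℝ × ℝ → ℝ} (hf : ContDiff ℝ ∞ f) (k : ℝ) (x : ℝ × ℝ) :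
    d2 (fun y => k * f y) x = k * d2 f x := by
  rw [d2_mul contDiff_const hf, d2_const, zero_mul, zero_add]

/-- squared distance to `y` -/
def connq (y x : ℝ × ℝ) : ℝ := (x.1 - y.1) ^ 2 + (x.2 - y.2) ^ 2

theorem conn_smooth_X1 (y : ℝ × ℝ) : ContDiff ℝ ∞ (fun x : ℝ × ℝ => x.1 - y.1) := by fun_prop
theorem conn_smooth_X2 (y : ℝ × ℝ) : ContDiff ℝ ∞ (fun x : ℝ × ℝ => x.2 - y.2) := by fun_prop
theorem conn_smooth_q (y : ℝ × ℝ) : ContDiff ℝ ∞ (connq y) := by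
  unfold connq; fun_prop

theorem conn_fderiv_X1 (y x : ℝ × ℝ) :
    fderiv ℝ (fun x : ℝ × ℝ => x.1 - y.1) x = ContinuousLinearMap.fst ℝ ℝ ℝ := by
  rw [fderiv_sub_const]
  exact (hasFDerivAt_fst).fderiv

theorem conn_fderiv_X2 (y x : ℝ × ℝ) :
    fderiv ℝ (fun x : ℝ × ℝ => x.2 - y.2) x = ContinuousLinearMap.snd ℝ ℝ ℝ := by
  rw [fderiv_sub_const]
  exact (hasFDerivAt_snd).fderiv

theorem conn_d1_X1 (y x : ℝ × ℝ) : d1 (fun x : ℝ × ℝ => x.1 - y.1) x = 1 := by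
  unfold d1; rw [conn_fderiv_X1]; rfl
theorem conn_d2_X1 (y x : ℝ × ℝ) : d2 (fun x : ℝ × ℝ => x.1 - y.1) x = 0 := by
  unfold d2; rw [conn_fderiv_X1]; rfl
theorem conn_d1_X2 (y x : ℝ × ℝ) : d1 (fun x : ℝ × ℝ => x.2 - y.2) x = 0 := by
  unfold d1; rw [conn_fderiv_X2]; rfl
theorem conn_d2_X2 (y x : ℝ × ℝ) : d2 (fun x : ℝ × ℝ => x.2 - y.2) x = 1 := by
  unfold d2; rw [conn_fderiv_X2]; rfl

theorem conn_d1_q (y x : ℝ × ℝ) : d1 (connq y) x = 2 * (x.1 - y.1) := by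
  have h : connq y = fun x => (fun x : ℝ × ℝ => x.1 - y.1) x ^ 2
      + (fun x : ℝ × ℝ => x.2 - y.2) x ^ 2 := rfl
  rw [h, d1_add ((conn_smooth_X1 y).pow 2) ((conn_smooth_X2 y).pow 2), d1_sq (conn_smooth_X1 y),
    d1_sq (conn_smooth_X2 y), conn_d1_X1, conn_d1_X2]
  ring

theorem conn_d2_q (y x : ℝ × ℝ) : d2 (connq y) x = 2 * (x.2 - y.2) := by
  have h : connq y = fun x => (fun x : ℝ × ℝ => x.1 - y.1) x ^ 2
      + (fun x : ℝ × ℝ => x.2 - y.2) x ^ 2 := rfl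
  rw [h, d2_add ((conn_smooth_X1 y).pow 2) ((conn_smooth_X2 y).pow 2), d2_sq (conn_smooth_X1 y),
    d2_sq (conn_smooth_X2 y), conn_d2_X1, conn_d2_X2]
  ring

/-- the barrier -/
def connE (a : ℝ) (y x : ℝ × ℝ) : ℝ := Real.exp (-a * connq y x)

theorem conn_smooth_E (a : ℝ) (y : ℝ × ℝ) : ContDiff ℝ ∞ (connE a y) :=
  (contDiff_const.mul (conn_smooth_q y)).exp

theorem conn_d1_E (a : ℝ) (y : ℝ × ℝ) :
    d1 (connE a y) = fun x => connE a y x * (-a * (2 * (x.1 - y.1))) := by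
  funext x
  have h : connE a y = fun x => Real.exp ((fun x => -a * connq y x) x) := rfl
  rw [h, conn_d1_exp (contDiff_const.mul (conn_smooth_q y)), conn_d1_cmul (conn_smooth_q y),
    conn_d1_q]

theorem conn_d2_E (a : ℝ) (y : ℝ × ℝ) :
    d2 (connE a y) = fun x => connE a y x * (-a * (2 * (x.2 - y.2))) := by
  funext x
  have h : connE a y = fun x => Real.exp ((fun x => -a * connq y x) x) := rfl
  rw [h, conn_d2_exp (contDiff_const.mul (conn_smooth_q y)), conn_d2_cmul (conn_smooth_q y),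
    conn_d2_q]

theorem conn_lapl_E (a : ℝ) (y x : ℝ × ℝ) :
    d1 (d1 (connE a y)) x + d2 (d2 (connE a y)) x =
      (4 * a ^ 2 * connq y x - 4 * a) * connE a y x := by
  have s1 : ContDiff ℝ ∞ (fun x : ℝ × ℝ => 2 * (x.1 - y.1)) := by fun_prop
  have s2 : ContDiff ℝ ∞ (fun x : ℝ × ℝ => 2 * (x.2 - y.2)) := by fun_prop
  have s1' : ContDiff ℝ ∞ (fun x : ℝ × ℝ => -a * (2 * (x.1 - y.1))) := by fun_prop
  have s2' : ContDiff ℝ ∞ (fun x : ℝ × ℝ => -a * (2 * (x.2 - y.2))) := by fun_prop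
  rw [conn_d1_E, conn_d2_E, d1_mul (conn_smooth_E a y) s1', d2_mul (conn_smooth_E a y) s2',
    conn_d1_cmul s1, conn_d2_cmul s2, conn_d1_cmul (conn_smooth_X1 y),
    conn_d2_cmul (conn_smooth_X2 y), conn_d1_X1, conn_d2_X2, conn_d1_E, conn_d2_E]
  unfold connq
  ring

/-- derivatives of `v * exp (m E)` -/
theorem conn_H1 {v e : ℝ × ℝ → ℝ} (hv : ContDiff ℝ ∞ v) (he : ContDiff ℝ ∞ e) (m : ℝ) :
    d1 (fun x => v x * Real.exp (m * e x)) =
      fun x => d1 v x * Real.exp (m * e x) + v x * (Real.exp (m * e x) * (m * d1 e x)) := by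
  funext x
  have hme : ContDiff ℝ ∞ (fun x => m * e x) := contDiff_const.mul he
  rw [d1_mul hv hme.exp, conn_d1_exp hme, conn_d1_cmul he]

theorem conn_H2 {v e : ℝ × ℝ → ℝ} (hv : ContDiff ℝ ∞ v) (he : ContDiff ℝ ∞ e) (m : ℝ) :
    d2 (fun x => v x * Real.exp (m * e x)) =
      fun x => d2 v x * Real.exp (m * e x) + v x * (Real.exp (m * e x) * (m * d2 e x)) := by
  funext x
  have hme : ContDiff ℝ ∞ (fun x => m * e x) := contDiff_const.mul he
  rw [d2_mul hv hme.exp, conn_d2_exp hme, conn_d2_cmul he]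

theorem conn_H11 {v e : ℝ × ℝ → ℝ} (hv : ContDiff ℝ ∞ v) (he : ContDiff ℝ ∞ e) (m : ℝ)
    (x : ℝ × ℝ) : d1 (d1 (fun x => v x * Real.exp (m * e x))) x =
      Real.exp (m * e x) * (d1 (d1 v) x + 2 * m * d1 v x * d1 e x
        + v x * m * d1 (d1 e) x + v x * m ^ 2 * d1 e x ^ 2) := by
  have hme : ContDiff ℝ ∞ (fun x => m * e x) := contDiff_const.mul he
  have hG : ContDiff ℝ ∞ (fun x => Real.exp (m * e x)) := hme.exp
  have hd : ContDiff ℝ ∞ (fun x => m * d1 e x) := contDiff_const.mul (smooth_d1 he)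
  rw [conn_H1 hv he, d1_add ((smooth_d1 hv).mul hG) (hv.mul (hG.mul hd)),
    d1_mul (smooth_d1 hv) hG, d1_mul hv (hG.mul hd), d1_mul hG hd, conn_d1_exp hme,
    conn_d1_cmul he, conn_d1_cmul (smooth_d1 he)]
  ring

theorem conn_H22 {v e : ℝ × ℝ → ℝ} (hv : ContDiff ℝ ∞ v) (he : ContDiff ℝ ∞ e) (m : ℝ)
    (x : ℝ × ℝ) : d2 (d2 (fun x => v x * Real.exp (m * e x))) x =
      Real.exp (m * e x) * (d2 (d2 v) x + 2 * m * d2 v x * d2 e x
        + v x * m * d2 (d2 e) x + v x * m ^ 2 * d2 e x ^ 2) := by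
  have hme : ContDiff ℝ ∞ (fun x => m * e x) := contDiff_const.mul he
  have hG : ContDiff ℝ ∞ (fun x => Real.exp (m * e x)) := hme.exp
  have hd : ContDiff ℝ ∞ (fun x => m * d2 e x) := contDiff_const.mul (smooth_d2 he)
  rw [conn_H2 hv he, d2_add ((smooth_d2 hv).mul hG) (hv.mul (hG.mul hd)),
    d2_mul (smooth_d2 hv) hG, d2_mul hv (hG.mul hd), d2_mul hG hd, conn_d2_exp hme,
    conn_d2_cmul he, conn_d2_cmul (smooth_d2 he)]
  ring

/-- local form of the barrier inequality at a local maximum -/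
theorem conn_local {v e : ℝ × ℝ → ℝ} (hv : ContDiff ℝ ∞ v) (he : ContDiff ℝ ∞ e) {m : ℝ}
    {x : ℝ × ℝ} (hx : IsLocalMax (fun x => v x * Real.exp (m * e x)) x) (hv0 : 0 < v x) :
    (d1 (d1 v) x + d2 (d2 v) x) * v x - (d1 v x ^ 2 + d2 v x ^ 2)
      + m * v x ^ 2 * (d1 (d1 e) x + d2 (d2 e) x) ≤ 0 := by
  have hme : ContDiff ℝ ∞ (fun x => m * e x) := contDiff_const.mul he
  obtain ⟨h1, h2, h3, h4⟩ := max_test (hv.mul hme.exp) hx
  have hG : 0 < Real.exp (m * e x) := Real.exp_pos _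
  rw [conn_H1 hv he] at h1
  rw [conn_H2 hv he] at h2
  rw [conn_H11 hv he] at h3
  rw [conn_H22 hv he] at h4
  have h1' : d1 v x = -(m * v x * d1 e x) := by
    have : Real.exp (m * e x) * (d1 v x + m * v x * d1 e x) = 0 := by linarith
    rcases mul_eq_zero.1 this with h | h
    · exact absurd h hG.ne'
    · linarith
  have h2' : d2 v x = -(m * v x * d2 e x) := by
    have : Real.exp (m * e x) * (d2 v x + m * v x * d2 e x) = 0 := by linarith
    rcases mul_eq_zero.1 this with h | h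
    · exact absurd h hG.ne'
    · linarith
  have h3' := nonpos_of_mul_nonpos_right h3 hG
  have h4' := nonpos_of_mul_nonpos_right h4 hG
  have h5 : v x * (d1 (d1 v) x + 2 * m * d1 v x * d1 e x
        + v x * m * d1 (d1 e) x + v x * m ^ 2 * d1 e x ^ 2) ≤ 0 :=
    mul_nonpos_of_nonneg_of_nonpos hv0.le h3'
  have h6 : v x * (d2 (d2 v) x + 2 * m * d2 v x * d2 e x
        + v x * m * d2 (d2 e) x + v x * m ^ 2 * d2 e x ^ 2) ≤ 0 :=
    mul_nonpos_of_nonneg_of_nonpos hv0.le h4'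
  have h7 : v x * (d1 (d1 v) x + 2 * m * d1 v x * d1 e x
        + v x * m * d1 (d1 e) x + v x * m ^ 2 * d1 e x ^ 2) =
      d1 (d1 v) x * v x - d1 v x ^ 2 + m * v x ^ 2 * d1 (d1 e) x := by
    rw [h1']; ring
  have h8 : v x * (d2 (d2 v) x + 2 * m * d2 v x * d2 e x
        + v x * m * d2 (d2 e) x + v x * m ^ 2 * d2 e x ^ 2) =
      d2 (d2 v) x * v x - d2 v x ^ 2 + m * v x ^ 2 * d2 (d2 e) x := by
    rw [h2']; ring
  rw [h7] at h5
  rw [h8] at h6
  linarith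

theorem conn (hc : c.Critical) (hF : ∀ x, c.F x ^ 2 = (1 - c.φ3 x) ^ 2) :
    (∀ x, c.v 1 x = 0) ∨ (∀ x, c.v (-1) x = 0) := by
  by_contra hcon
  push Not at hcon
  obtain ⟨⟨x₀, hx₀⟩, ⟨y, hy⟩⟩ := hcon
  have hv1 : ∀ x, c.v 1 x = (1 - c.φ3 x) + c.F x := fun x => by rw [Conf.v, one_mul]
  have hvm : ∀ x, c.v (-1) x = (1 - c.φ3 x) - c.F x := fun x => by rw [Conf.v]; ring
  have hprod : ∀ x, c.v 1 x * c.v (-1) x = 0 := by
    intro x
    rw [hv1, hvm]
    have := hF x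
    linarith
  have hφ : ∀ x, c.φ3 x ≤ 1 ∧ -1 ≤ c.φ3 x := by
    intro x
    have h := hc.unit x
    have h2 : c.φ3 x ^ 2 ≤ 1 := by nlinarith [sq_nonneg (c.φ1 x), sq_nonneg (c.φ2 x)]
    constructor
    · nlinarith [sq_nonneg (c.φ3 x - 1)]
    · nlinarith [sq_nonneg (c.φ3 x + 1)]
  have hdouble : ∀ x, c.v 1 x ≠ 0 → c.v 1 x = 2 * (1 - c.φ3 x) := by
    intro x hx
    have h1 := (mul_eq_zero.1 (hprod x)).resolve_left hx
    rw [hvm] at h1
    rw [hv1]
    linarith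
  have hnn : ∀ x, 0 ≤ c.v 1 x := by
    intro x
    by_cases hx : c.v 1 x = 0
    · rw [hx]
    · rw [hdouble x hx]
      have := (hφ x).1
      linarith
  have hle4 : ∀ x, c.v 1 x ≤ 4 := by
    intro x
    by_cases hx : c.v 1 x = 0
    · rw [hx]; norm_num
    · rw [hdouble x hx]
      have := (hφ x).2
      linarith
  have hx₀' : 0 < c.v 1 x₀ := lt_of_le_of_ne (hnn x₀) (Ne.symm hx₀)
  have sv : ContDiff ℝ ∞ (c.v 1) := smooth_v hc 1
  have svm : ContDiff ℝ ∞ (c.v (-1)) := smooth_v hc (-1)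
  have sW : ContDiff ℝ ∞ (c.W 1) := smooth_W hc 1
  -- a small ball where `v 1` vanishes
  obtain ⟨r, hr, hball⟩ : ∃ r > 0, ∀ x, connq y x ≤ r ^ 2 → c.v 1 x = 0 := by
    have ho : IsOpen {x | c.v (-1) x ≠ 0} :=
      isOpen_ne_fun svm.continuous continuous_const
    obtain ⟨ε, hε, hsub⟩ := Metric.isOpen_iff.1 ho y hy
    refine ⟨ε / 2, by positivity, fun x hx => ?_⟩
    have hxmem : x ∈ Metric.ball y ε := by
      rw [Metric.mem_ball, Prod.dist_eq, max_lt_iff]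
      unfold connq at hx
      constructor
      · rw [Real.dist_eq]
        have h1 : (x.1 - y.1) ^ 2 ≤ (ε / 2) ^ 2 := by nlinarith [sq_nonneg (x.2 - y.2)]
        have h2 := abs_le_of_sq_le_sq h1 (by positivity)
        rw [abs_lt]
        have := abs_le.1 (abs_le_of_sq_le_sq h1 (by positivity))
        constructor <;> linarith [this.1, this.2]
      · rw [Real.dist_eq]
        have h1 : (x.2 - y.2) ^ 2 ≤ (ε / 2) ^ 2 := by nlinarith [sq_nonneg (x.1 - y.1)]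
        rw [abs_lt]
        have := abs_le.1 (abs_le_of_sq_le_sq h1 (by positivity))
        constructor <;> linarith [this.1, this.2]
    have h3 : c.v (-1) x ≠ 0 := hsub hxmem
    exact (mul_eq_zero.1 (hprod x)).resolve_right h3
  have hqx₀ : r ^ 2 < connq y x₀ := by
    by_contra h
    exact hx₀ (hball x₀ (not_lt.1 h))
  set a : ℝ := 2 / r ^ 2 with ha
  have hr2 : 0 < r ^ 2 := by positivity
  have hapos : 0 < a := by positivity
  have har : a * r ^ 2 = 2 := by rw [ha]; field_simp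
  set R2 : ℝ := connq y x₀ + 1 with hR2
  set A : Set (ℝ × ℝ) := {x | r ^ 2 ≤ connq y x ∧ connq y x ≤ R2} with hA
  have sq : Continuous (connq y) := (conn_smooth_q y).continuous
  have hAclosed : IsClosed A :=
    (isClosed_le continuous_const sq).inter (isClosed_le sq continuous_const)
  have hAcomp : IsCompact A := by
    refine Metric.isCompact_of_isClosed_isBounded hAclosed ?_
    refine (Metric.isBounded_closedBall (x := y) (r := R2 + 1)).subset ?_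
    intro x hx
    have hx2 := hx.2
    have h0 : 0 ≤ R2 := le_trans (by unfold connq; positivity) hx2
    unfold connq at hx2
    have key : ∀ s t : ℝ, s ^ 2 + t ^ 2 ≤ R2 → |s| ≤ R2 + 1 := by
      intro s t hst
      apply abs_le_of_sq_le_sq _ (by linarith)
      nlinarith [sq_nonneg t]
    rw [Metric.mem_closedBall, Prod.dist_eq, max_le_iff, Real.dist_eq, Real.dist_eq]
    exact ⟨key _ _ hx2, key _ (x.1 - y.1) (by linarith)⟩
  have hx₀A : x₀ ∈ A := ⟨hqx₀.le, by rw [hR2]; linarith⟩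
  obtain ⟨K₀, hK₀⟩ : ∃ K₀, ∀ x ∈ A, c.W 1 x ≤ K₀ := by
    obtain ⟨z, _, hz⟩ := hAcomp.exists_isMaxOn ⟨x₀, hx₀A⟩ sW.continuous.continuousOn
    exact ⟨c.W 1 z, fun x hx => hz hx⟩
  have hWnn : ∀ x, 0 ≤ c.W 1 x := by
    intro x
    unfold Conf.W
    positivity
  set c₀ : ℝ := 4 * a * Real.exp (-a * R2) with hc₀
  have hc₀pos : 0 < c₀ := by positivity
  have hlap : ∀ x ∈ A, c₀ ≤ d1 (d1 (connE a y)) x + d2 (d2 (connE a y)) x := by
    intro x hx
    rw [conn_lapl_E]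
    have h1 : Real.exp (-a * R2) ≤ connE a y x := by
      unfold connE
      apply Real.exp_le_exp.2
      have := hx.2
      nlinarith
    have h2 : 4 * a ≤ 4 * a ^ 2 * connq y x - 4 * a := by
      have h3 := hx.1
      have h4 : 4 * a ^ 2 * r ^ 2 ≤ 4 * a ^ 2 * connq y x :=
        mul_le_mul_of_nonneg_left h3 (by positivity)
      have h5 : 4 * a ^ 2 * r ^ 2 = 8 * a := by
        calc 4 * a ^ 2 * r ^ 2 = 4 * a * (a * r ^ 2) := by ring
          _ = 8 * a := by rw [har]; ring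
      linarith
    calc c₀ = 4 * a * Real.exp (-a * R2) := hc₀
      _ ≤ (4 * a ^ 2 * connq y x - 4 * a) * connE a y x :=
        mul_le_mul h2 h1 (Real.exp_pos _).le (by linarith)
  set δ : ℝ := connE a y x₀ - Real.exp (-a * R2) with hδ
  have hδpos : 0 < δ := by
    rw [hδ]
    unfold connE
    rw [sub_pos]
    apply Real.exp_lt_exp.2
    rw [hR2]
    nlinarith
  have hK₀nn : 0 ≤ K₀ := (hWnn x₀).trans (hK₀ x₀ hx₀A)
  set m : ℝ := K₀ / c₀ + 4 / (c.v 1 x₀ * δ) + 1 with hm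
  have hmpos : 0 < m := by positivity
  have hm1 : K₀ / 4 < m * c₀ := by
    have h1 : K₀ / c₀ * c₀ = K₀ := by field_simp
    have h2 : 0 < 4 / (c.v 1 x₀ * δ) * c₀ := by positivity
    rw [hm, add_mul, add_mul, h1]
    linarith
  have hm2 : 4 < c.v 1 x₀ * (m * δ) := by
    have h1 : c.v 1 x₀ * (4 / (c.v 1 x₀ * δ) * δ) = 4 := by field_simp
    have h2 : 0 ≤ c.v 1 x₀ * (K₀ / c₀ * δ) := by positivity
    have h3 : 0 < c.v 1 x₀ * δ := by positivity
    rw [hm, add_mul, add_mul, mul_add, mul_add, h1]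
    linarith
  have sE := conn_smooth_E a y
  have sH : Continuous (fun x => c.v 1 x * Real.exp (m * connE a y x)) :=
    (sv.mul (contDiff_const.mul sE).exp).continuous
  obtain ⟨x₁, hx₁A, hmax⟩ := hAcomp.exists_isMaxOn ⟨x₀, hx₀A⟩ sH.continuousOn
  have hH : c.v 1 x₀ * Real.exp (m * connE a y x₀) ≤ c.v 1 x₁ * Real.exp (m * connE a y x₁) :=
    hmax hx₀A
  have hv₁ : 0 < c.v 1 x₁ := by
    have h1 : 0 < c.v 1 x₀ * Real.exp (m * connE a y x₀) := by positivity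
    have h2 : 0 < c.v 1 x₁ * Real.exp (m * connE a y x₁) := lt_of_lt_of_le h1 hH
    exact pos_of_mul_pos_left h2 (Real.exp_pos _).le
  have hq1 : r ^ 2 < connq y x₁ := by
    by_contra h
    exact hv₁.ne' (hball x₁ (not_lt.1 h))
  rcases lt_or_ge (connq y x₁) R2 with hq2 | hq2
  · -- interior maximum
    have hloc : IsLocalMax (fun x => c.v 1 x * Real.exp (m * connE a y x)) x₁ := by
      have hopen : IsOpen {x | r ^ 2 < connq y x ∧ connq y x < R2} :=
        (isOpen_lt continuous_const sq).inter (isOpen_lt sq continuous_const)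
      filter_upwards [hopen.mem_nhds ⟨hq1, hq2⟩] with z hz
      exact hmax ⟨hz.1.le, hz.2.le⟩
    have h1 := conn_local sv sE hloc hv₁
    have h2 := lapl_v hc (σ := 1) (by norm_num) x₁
    have h3 := grad_v hc (σ := 1) (by norm_num) x₁
    have h4 := hlap x₁ hx₁A
    have h5 := hK₀ x₁ hx₁A
    have h6 := hdouble x₁ hv₁.ne'
    rw [h2, h3] at h1
    have h7 : ((1 - c.φ3 x₁ ^ 2) * c.v 1 x₁ + c.φ3 x₁ * c.W 1 x₁) * c.v 1 x₁
        - (1 - c.φ3 x₁ ^ 2) * c.W 1 x₁ =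
        c.v 1 x₁ ^ 2 * ((1 - c.φ3 x₁ ^ 2) - c.W 1 x₁ / 4) := by
      have h8 : c.φ3 x₁ = 1 - c.v 1 x₁ / 2 := by linarith
      rw [h8]
      ring
    rw [h7] at h1
    have h9 : 0 ≤ 1 - c.φ3 x₁ ^ 2 := by
      have := hφ x₁
      nlinarith [this.1, this.2]
    have h10 : m * c₀ ≤ m * (d1 (d1 (connE a y)) x₁ + d2 (d2 (connE a y)) x₁) :=
      mul_le_mul_of_nonneg_left h4 hmpos.le
    have h11 : 0 < (1 - c.φ3 x₁ ^ 2) - c.W 1 x₁ / 4
        + m * (d1 (d1 (connE a y)) x₁ + d2 (d2 (connE a y)) x₁) := by linarith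
    have h12 : 0 < c.v 1 x₁ ^ 2 * ((1 - c.φ3 x₁ ^ 2) - c.W 1 x₁ / 4
        + m * (d1 (d1 (connE a y)) x₁ + d2 (d2 (connE a y)) x₁)) := by positivity
    nlinarith
  · -- the maximum is on the outer circle
    have hEle : connE a y x₁ ≤ Real.exp (-a * R2) := by
      unfold connE
      apply Real.exp_le_exp.2
      nlinarith
    have h1 : c.v 1 x₁ * Real.exp (m * connE a y x₁) ≤ 4 * Real.exp (m * Real.exp (-a * R2)) := by
      apply mul_le_mul (hle4 x₁) _ (Real.exp_pos _).le (by norm_num)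
      exact Real.exp_le_exp.2 (mul_le_mul_of_nonneg_left hEle hmpos.le)
    have h2 : c.v 1 x₀ * Real.exp (m * connE a y x₀) ≤ 4 * Real.exp (m * Real.exp (-a * R2)) :=
      hH.trans h1
    have h3 : Real.exp (m * connE a y x₀) =
        Real.exp (m * δ) * Real.exp (m * Real.exp (-a * R2)) := by
      rw [← Real.exp_add]
      congr 1
      rw [hδ]
      ring
    rw [h3, ← mul_assoc] at h2
    have h4 : c.v 1 x₀ * Real.exp (m * δ) ≤ 4 := le_of_mul_le_mul_right h2 (Real.exp_pos _)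
    have h5 : m * δ < Real.exp (m * δ) := by
      have := Real.add_one_le_exp (m * δ)
      linarith
    have h6 : c.v 1 x₀ * (m * δ) < c.v 1 x₀ * Real.exp (m * δ) :=
      mul_lt_mul_of_pos_left h5 hx₀'
    linarith

end O3
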