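import Pool.Agent.O3.Defs
import Pool.Agent.O3.Maxt

/-! Module MP: a maximum principle. -/

open MeasureTheory Filter Topology
open scoped ContDiff

noncomputable section

namespace O3

theorem mp_smooth_fderiv {f : ℝ × ℝ → ℝ} (hf : ContDiff ℝ ∞ f) (e : ℝ × ℝ) :
    ContDiff ℝ ∞ (fun x => fderiv ℝ f x e) :=
  (hf.fderiv_right (m := ∞) (by simp)).clm_apply contDiff_const

theorem mp_diff {f : ℝ × ℝ → ℝ} (hf : ContDiff ℝ ∞ f) : Differentiable ℝ f :=
  hf.differentiable (by simp)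

/-- second derivative of `exp (a + b v) + ε (x.1² + x.2²)` in the direction `e`. -/
theorem mp_second {v : ℝ × ℝ → ℝ} (hv : ContDiff ℝ ∞ v) (a b ε : ℝ) (e x : ℝ × ℝ) :
    fderiv ℝ (fun y => fderiv ℝ (fun z : ℝ × ℝ =>
      Real.exp (a + b * v z) + ε * (z.1 ^ 2 + z.2 ^ 2)) y e) x e =
      Real.exp (a + b * v x) * (b ^ 2 * (fderiv ℝ v x e) ^ 2 +
        b * fderiv ℝ (fun y => fderiv ℝ v y e) x e) + 2 * ε * (e.1 ^ 2 + e.2 ^ 2) := by
  have hvd : ∀ y, HasFDerivAt v (fderiv ℝ v y) y := fun y => (mp_diff hv y).hasFDerivAt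
  have hvd2 : ∀ y, HasFDerivAt (fun y => fderiv ℝ v y e)
      (fderiv ℝ (fun y => fderiv ℝ v y e) y) y :=
    fun y => (mp_diff (mp_smooth_fderiv hv e) y).hasFDerivAt
  have h1 : ∀ y : ℝ × ℝ, fderiv ℝ (fun z : ℝ × ℝ =>
      Real.exp (a + b * v z) + ε * (z.1 ^ 2 + z.2 ^ 2)) y e =
      Real.exp (a + b * v y) * (b * fderiv ℝ v y e) + ε * (2 * y.1 * e.1 + 2 * y.2 * e.2) := by
    intro y
    have h2 := (((hvd y).const_mul b).const_add a).exp.add
      ((((hasFDerivAt_fst (𝕜 := ℝ) (p := y)).pow 2).add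
        ((hasFDerivAt_snd (𝕜 := ℝ) (p := y)).pow 2)).const_mul ε)
    have h2' : fderiv ℝ (fun z : ℝ × ℝ =>
      Real.exp (a + b * v z) + ε * (z.1 ^ 2 + z.2 ^ 2)) y = _ := h2.fderiv
    rw [h2']
    simp
    ring
  have h3 : (fun y : ℝ × ℝ => fderiv ℝ (fun z : ℝ × ℝ =>
      Real.exp (a + b * v z) + ε * (z.1 ^ 2 + z.2 ^ 2)) y e) = fun y : ℝ × ℝ =>
      Real.exp (a + b * v y) * (b * fderiv ℝ v y e) + ε * (2 * y.1 * e.1 + 2 * y.2 * e.2) :=
    funext h1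
  rw [h3]
  have h4 := ((((hvd x).const_mul b).const_add a).exp.mul ((hvd2 x).const_mul b)).add
    ((((hasFDerivAt_fst (𝕜 := ℝ) (p := x)).const_mul 2).mul_const e.1).add
      (((hasFDerivAt_snd (𝕜 := ℝ) (p := x)).const_mul 2).mul_const e.2) |>.const_mul ε)
  have h5 : fderiv ℝ (fun y : ℝ × ℝ =>
      Real.exp (a + b * v y) * (b * fderiv ℝ v y e) + ε * (2 * y.1 * e.1 + 2 * y.2 * e.2)) x =
      _ := h4.fderiv
  rw [h5]
  simp
  ring

theorem mp_local {v : ℝ × ℝ → ℝ} (hv : ContDiff ℝ ∞ v) {Ω : Set (ℝ × ℝ)} (hΩ : IsOpen Ω)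
    (hb : Bornology.IsBounded Ω) {k δ : ℝ} (hδ : 0 < δ)
    (hfr : ∀ x ∈ frontier Ω, -k ≤ v x)
    (hlap : ∀ x ∈ Ω, v x < -k →
      d1 (d1 v) x + d2 (d2 v) x ≤ (d1 v x ^ 2 + d2 v x ^ 2) / δ) :
    ∀ x ∈ Ω, -k ≤ v x := by
  intro x₀ hx₀
  by_contra hcon
  push Not at hcon
  obtain ⟨R, hR⟩ := hb.closure.subset_closedBall (0 : ℝ × ℝ)
  have hcomp : IsCompact (closure Ω) := Metric.isCompact_of_isClosed_isBounded isClosed_closure
    hb.closure
  have hRb : ∀ x ∈ closure Ω, x.1 ^ 2 + x.2 ^ 2 ≤ 2 * R ^ 2 := by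
    intro x hx
    have h1 := hR hx
    rw [mem_closedBall_zero_iff, Prod.norm_def] at h1
    have h2 : |x.1| ≤ R := le_trans (le_max_left _ _) h1
    have h3 : |x.2| ≤ R := le_trans (le_max_right _ _) h1
    have h4 : x.1 ^ 2 ≤ R ^ 2 := sq_le_sq' (by linarith [neg_abs_le x.1]) (le_trans (le_abs_self _) h2)
    have h5 : x.2 ^ 2 ≤ R ^ 2 := sq_le_sq' (by linarith [neg_abs_le x.2]) (le_trans (le_abs_self _) h3)
    linarith
  set b : ℝ := -(1 / δ) with hbdef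
  set a : ℝ := -(k / δ) with hadef
  have hab : ∀ y, a + b * v y = (-v y - k) / δ := by
    intro y
    rw [hadef, hbdef]
    ring
  have hkey : ∀ ε : ℝ, 0 < ε → Real.exp (a + b * v x₀) ≤ 1 + ε * (2 * R ^ 2) := by
    intro ε hε
    let u : ℝ × ℝ → ℝ := fun z => Real.exp (a + b * v z) + ε * (z.1 ^ 2 + z.2 ^ 2)
    have husm : ContDiff ℝ ∞ u := by
      refine ((contDiff_const.add (contDiff_const.mul hv)).exp).add
        (contDiff_const.mul ((contDiff_fst.pow 2).add (contDiff_snd.pow 2)))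
    obtain ⟨x₁, hx₁, hmax⟩ := hcomp.exists_isMaxOn ⟨x₀, subset_closure hx₀⟩
      husm.continuous.continuousOn
    have hle : Real.exp (a + b * v x₀) ≤ u x₁ := by
      have h1 : u x₀ ≤ u x₁ := hmax (subset_closure hx₀)
      have h2 : Real.exp (a + b * v x₀) ≤ u x₀ := by
        have : 0 ≤ ε * (x₀.1 ^ 2 + x₀.2 ^ 2) := by positivity
        show _ ≤ Real.exp (a + b * v x₀) + ε * (x₀.1 ^ 2 + x₀.2 ^ 2)
        linarith
      exact le_trans h2 h1
    refine le_trans hle ?_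
    by_cases hz : -k ≤ v x₁
    · have h1 : Real.exp (a + b * v x₁) ≤ 1 := by
        rw [hab, Real.exp_le_one_iff]
        exact div_nonpos_of_nonpos_of_nonneg (by linarith) hδ.le
      have h2 := mul_le_mul_of_nonneg_left (hRb x₁ hx₁) hε.le
      show Real.exp (a + b * v x₁) + ε * (x₁.1 ^ 2 + x₁.2 ^ 2) ≤ _
      linarith
    · exfalso
      push Not at hz
      have hin : x₁ ∈ Ω := by
        by_contra hnot
        have : x₁ ∈ frontier Ω := by
          rw [frontier, hΩ.interior_eq]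
          exact ⟨hx₁, hnot⟩
        exact absurd (hfr x₁ this) (not_le.2 hz)
      have hloc : IsLocalMax u x₁ := by
        filter_upwards [hΩ.mem_nhds hin] with y hy
        exact hmax (subset_closure hy)
      obtain ⟨-, -, h1, h2⟩ := max_test husm hloc
      have h3 := mp_second hv a b ε (1, 0) x₁
      have h4 := mp_second hv a b ε (0, 1) x₁
      have h5 : d1 (d1 u) x₁ = Real.exp (a + b * v x₁) * (b ^ 2 * (d1 v x₁) ^ 2 +
        b * d1 (d1 v) x₁) + 2 * ε * (((1 : ℝ), (0 : ℝ)).1 ^ 2 + ((1 : ℝ), (0 : ℝ)).2 ^ 2) := h3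
      have h6 : d2 (d2 u) x₁ = Real.exp (a + b * v x₁) * (b ^ 2 * (d2 v x₁) ^ 2 +
        b * d2 (d2 v) x₁) + 2 * ε * (((0 : ℝ), (1 : ℝ)).1 ^ 2 + ((0 : ℝ), (1 : ℝ)).2 ^ 2) := h4
      simp only at h5 h6
      have h7 := hlap x₁ hin hz
      have h8 : 0 ≤ (b ^ 2 * (d1 v x₁) ^ 2 + b * d1 (d1 v) x₁) +
          (b ^ 2 * (d2 v x₁) ^ 2 + b * d2 (d2 v) x₁) := by
        have h9 : (b ^ 2 * (d1 v x₁) ^ 2 + b * d1 (d1 v) x₁) +
          (b ^ 2 * (d2 v x₁) ^ 2 + b * d2 (d2 v) x₁) =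
          (1 / δ) * ((d1 v x₁ ^ 2 + d2 v x₁ ^ 2) / δ - (d1 (d1 v) x₁ + d2 (d2 v) x₁)) := by
          rw [hbdef]
          field_simp
          ring
        rw [h9]
        exact mul_nonneg (by positivity) (by linarith)
      have h10 : 0 < Real.exp (a + b * v x₁) := Real.exp_pos _
      have h11 := mul_nonneg h10.le h8
      nlinarith
  have hlt : 1 < Real.exp (a + b * v x₀) := by
    rw [hab, Real.one_lt_exp_iff]
    exact div_pos (by linarith) hδ
  have hpos : 0 < Real.exp (a + b * v x₀) - 1 := by linarith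
  have := hkey ((Real.exp (a + b * v x₀) - 1) / (2 * (2 * R ^ 2 + 1))) (by positivity)
  have h2 : (Real.exp (a + b * v x₀) - 1) / (2 * (2 * R ^ 2 + 1)) * (2 * R ^ 2) ≤
      (Real.exp (a + b * v x₀) - 1) / 2 := by
    rw [div_mul_eq_mul_div, div_le_div_iff₀ (by positivity) (by norm_num)]
    nlinarith [sq_nonneg R]
  linarith

end O3
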