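import Pool.Agent.O3.Defs

open MeasureTheory Filter Topology
open scoped ContDiff

noncomputable section

namespace O3

/-- One-dimensional Sobolev inequality. -/
theorem rect_sobolev {h h' : ℝ → ℝ} (hh : ∀ y, HasDerivAt h (h' y) y) (hc : Continuous h')
    (hi : Integrable (fun y => h y ^ 2 + h' y ^ 2)) (y : ℝ) :
    h y ^ 2 ≤ ∫ z, (h z ^ 2 + h' z ^ 2) := by
  have hcont : Continuous h := continuous_iff_continuousAt.2 fun z => (hh z).continuousAt
  by_contra hlt
  push Not at hlt
  set I := ∫ z, (h z ^ 2 + h' z ^ 2) with hI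
  have key : ∀ z, h y ^ 2 - I ≤ h z ^ 2 := by
    intro z
    have hder : ∀ t ∈ Set.uIcc z y, HasDerivAt (fun t => h t ^ 2) (2 * h t * h' t) t := by
      intro t _
      have hp : HasDerivAt (fun t => h t ^ 2) (((2 : ℕ) : ℝ) * h t ^ (2 - 1) * h' t) t :=
        (hh t).pow 2
      simpa using hp
    have hint : IntervalIntegrable (fun t => 2 * h t * h' t) volume z y :=
      ((continuous_const.mul hcont).mul hc).intervalIntegrable _ _
    have h1 := intervalIntegral.integral_eq_sub_of_hasDerivAt hder hint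
    have h2 := intervalIntegral.norm_integral_le_integral_norm_uIoc
      (f := fun t => 2 * h t * h' t) (a := z) (b := y) (μ := volume)
    have h3 : ∫ t in Set.uIoc z y, ‖2 * h t * h' t‖ ≤ ∫ t in Set.uIoc z y, (h t ^ 2 + h' t ^ 2) := by
      apply setIntegral_mono_on
      · exact ((intervalIntegrable_iff.1 hint)).norm
      · exact hi.integrableOn
      · exact measurableSet_uIoc
      · intro t _
        rw [Real.norm_eq_abs, abs_le]
        constructor <;> nlinarith [sq_nonneg (h t + h' t), sq_nonneg (h t - h' t)]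
    have h4 : ∫ t in Set.uIoc z y, (h t ^ 2 + h' t ^ 2) ≤ I := by
      apply setIntegral_le_integral hi
      exact Eventually.of_forall fun t => by positivity
    have h5 : h y ^ 2 - h z ^ 2 ≤ ‖∫ t in z..y, 2 * h t * h' t‖ := by
      rw [h1]
      exact le_abs_self _
    linarith
  have hpos : 0 < h y ^ 2 - I := by linarith
  have hsq : Integrable (fun z => h z ^ 2) := by
    have hm : Continuous fun z => h z ^ 2 := hcont.pow 2
    apply hi.mono' hm.aestronglyMeasurable
    exact Eventually.of_forall fun t => by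
      rw [Real.norm_eq_abs, abs_of_nonneg (sq_nonneg _)]
      nlinarith [sq_nonneg (h' t)]
  have hfin := hsq.measure_gt_lt_top (half_pos hpos)
  have huniv : {x | (h y ^ 2 - I) / 2 < h x ^ 2} = Set.univ := by
    apply Set.eq_univ_of_forall
    intro x
    have := key x
    show (h y ^ 2 - I) / 2 < h x ^ 2
    linarith
  rw [huniv] at hfin
  simp at hfin

/-- In a set of infinite measure an integrable function is small somewhere. -/
theorem rect_small {G : ℝ → ℝ} (hG : Integrable G) {P : ℝ → Prop} (hP : ∀ᵐ a, P a) {S : Set ℝ}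
    (hS : volume S = ⊤) {ε : ℝ} (hε : 0 < ε) : ∃ a ∈ S, P a ∧ G a ≤ ε := by
  by_contra hcon
  push Not at hcon
  have hsub : S ⊆ {a | ¬ P a} ∪ {a | ε < G a} := by
    intro a ha
    by_cases hp : P a
    · exact Or.inr (hcon a ha hp)
    · exact Or.inl hp
  have h1 : volume {a | ¬ P a} = 0 := ae_iff.1 hP
  have h2 : volume {a | ε < G a} < ⊤ := hG.measure_gt_lt_top hε
  have h3 : volume S ≤ volume {a | ¬ P a} + volume {a | ε < G a} :=
    (measure_mono hsub).trans (measure_union_le _ _)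
  rw [h1, zero_add, hS] at h3
  exact absurd (lt_of_le_of_lt h3 h2) (lt_irrefl _)

theorem small_boundary {f : ℝ × ℝ → ℝ} (hf : ContDiff ℝ ∞ f)
    (h1 : Integrable (fun x => f x ^ 2)) (h2 : Integrable (fun x => d1 f x ^ 2 + d2 f x ^ 2))
    {ε : ℝ} (hε : 0 < ε) (R : ℝ) : ∃ a b a' b' : ℝ, a < -R ∧ R < b ∧ a' < -R ∧ R < b' ∧
      ∀ x ∈ frontier (Set.Ioo a b ×ˢ Set.Ioo a' b'), |f x| ≤ ε := by
  have hdiff : Differentiable ℝ f := hf.differentiable (by simp)
  have hfd : Continuous (fderiv ℝ f) := hf.continuous_fderiv (by simp)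
  have hc1 : Continuous (d1 f) := hfd.clm_apply continuous_const
  have hc2 : Continuous (d2 f) := hfd.clm_apply continuous_const
  have hg : Integrable (fun x : ℝ × ℝ => f x ^ 2 + (d1 f x ^ 2 + d2 f x ^ 2))
      ((volume : Measure ℝ).prod (volume : Measure ℝ)) := by
    have := h1.add h2
    exact this
  -- slices
  have hA : ∀ a : ℝ, Integrable (fun y => f (a, y) ^ 2 + (d1 f (a, y) ^ 2 + d2 f (a, y) ^ 2)) →
      (∫ y, (f (a, y) ^ 2 + (d1 f (a, y) ^ 2 + d2 f (a, y) ^ 2))) ≤ ε ^ 2 →
      ∀ y, |f (a, y)| ≤ ε := by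
    intro a hi hle y
    have hd : ∀ y, HasDerivAt (fun y => f (a, y)) (d2 f (a, y)) y := by
      intro y
      have hF : HasFDerivAt f (fderiv ℝ f (a, y)) (a, y) := (hdiff (a, y)).hasFDerivAt
      have hl : HasDerivAt (fun y : ℝ => ((a, y) : ℝ × ℝ)) ((0 : ℝ), (1 : ℝ)) y :=
        (hasDerivAt_const y a).prodMk (hasDerivAt_id y)
      exact hF.comp_hasDerivAt y hl
    have hcy : Continuous fun y => d2 f (a, y) := hc2.comp (by fun_prop)
    have hfy : Continuous fun y => f (a, y) := hf.continuous.comp (by fun_prop)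
    have hi' : Integrable (fun y => f (a, y) ^ 2 + d2 f (a, y) ^ 2) := by
      have hm : Continuous fun y => f (a, y) ^ 2 + d2 f (a, y) ^ 2 := (hfy.pow 2).add (hcy.pow 2)
      apply hi.mono' hm.aestronglyMeasurable
      exact Eventually.of_forall fun t => by
        rw [Real.norm_eq_abs, abs_of_nonneg (by positivity)]
        nlinarith [sq_nonneg (d1 f (a, t))]
    have hs := rect_sobolev hd hcy hi' y
    have hm : ∫ y, (f (a, y) ^ 2 + d2 f (a, y) ^ 2) ≤
        ∫ y, (f (a, y) ^ 2 + (d1 f (a, y) ^ 2 + d2 f (a, y) ^ 2)) := by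
      apply integral_mono hi' hi
      intro t
      show f (a, t) ^ 2 + d2 f (a, t) ^ 2 ≤ f (a, t) ^ 2 + (d1 f (a, t) ^ 2 + d2 f (a, t) ^ 2)
      nlinarith [sq_nonneg (d1 f (a, t))]
    exact abs_le_of_sq_le_sq (by simpa using (hs.trans hm).trans hle) hε.le
  have hB : ∀ b : ℝ, Integrable (fun x => f (x, b) ^ 2 + (d1 f (x, b) ^ 2 + d2 f (x, b) ^ 2)) →
      (∫ x, (f (x, b) ^ 2 + (d1 f (x, b) ^ 2 + d2 f (x, b) ^ 2))) ≤ ε ^ 2 →
      ∀ x, |f (x, b)| ≤ ε := by
    intro b hi hle x
    have hd : ∀ x, HasDerivAt (fun x => f (x, b)) (d1 f (x, b)) x := by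
      intro x
      have hF : HasFDerivAt f (fderiv ℝ f (x, b)) (x, b) := (hdiff (x, b)).hasFDerivAt
      have hl : HasDerivAt (fun x : ℝ => ((x, b) : ℝ × ℝ)) ((1 : ℝ), (0 : ℝ)) x :=
        (hasDerivAt_id x).prodMk (hasDerivAt_const x b)
      exact hF.comp_hasDerivAt x hl
    have hcx : Continuous fun x => d1 f (x, b) := hc1.comp (by fun_prop)
    have hfx : Continuous fun x => f (x, b) := hf.continuous.comp (by fun_prop)
    have hi' : Integrable (fun x => f (x, b) ^ 2 + d1 f (x, b) ^ 2) := by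
      have hm : Continuous fun x => f (x, b) ^ 2 + d1 f (x, b) ^ 2 := (hfx.pow 2).add (hcx.pow 2)
      apply hi.mono' hm.aestronglyMeasurable
      exact Eventually.of_forall fun t => by
        rw [Real.norm_eq_abs, abs_of_nonneg (by positivity)]
        nlinarith [sq_nonneg (d2 f (t, b))]
    have hs := rect_sobolev hd hcx hi' x
    have hm : ∫ x, (f (x, b) ^ 2 + d1 f (x, b) ^ 2) ≤
        ∫ x, (f (x, b) ^ 2 + (d1 f (x, b) ^ 2 + d2 f (x, b) ^ 2)) := by
      apply integral_mono hi' hi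
      intro t
      show f (t, b) ^ 2 + d1 f (t, b) ^ 2 ≤ f (t, b) ^ 2 + (d1 f (t, b) ^ 2 + d2 f (t, b) ^ 2)
      nlinarith [sq_nonneg (d2 f (t, b))]
    exact abs_le_of_sq_le_sq (by simpa using (hs.trans hm).trans hle) hε.le
  have hε2 : 0 < ε ^ 2 := by positivity
  have hIio : volume (Set.Iio (-(max R 0))) = ⊤ := Real.volume_Iio
  have hIoi : volume (Set.Ioi (max R 0)) = ⊤ := Real.volume_Ioi
  obtain ⟨a, ha, hai, hae⟩ := rect_small hg.integral_prod_left hg.prod_right_ae hIio hε2
  obtain ⟨b, hb, hbi, hbe⟩ := rect_small hg.integral_prod_left hg.prod_right_ae hIoi hε2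
  obtain ⟨a', ha', hai', hae'⟩ := rect_small hg.integral_prod_right hg.prod_left_ae hIio hε2
  obtain ⟨b', hb', hbi', hbe'⟩ := rect_small hg.integral_prod_right hg.prod_left_ae hIoi hε2
  simp only [Set.mem_Iio, Set.mem_Ioi] at ha hb ha' hb'
  have hm1 : R ≤ max R 0 := le_max_left _ _
  have hm2 : 0 ≤ max R 0 := le_max_right _ _
  refine ⟨a, b, a', b', by linarith, by linarith, by linarith, by linarith, ?_⟩
  rintro ⟨x, y⟩ hx
  rw [frontier_prod_eq, frontier_Ioo (by linarith), frontier_Ioo (by linarith)] at hx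
  rcases hx with ⟨_, hy⟩ | ⟨hx, _⟩
  · simp only [Set.mem_insert_iff, Set.mem_singleton_iff] at hy
    rcases hy with rfl | rfl
    · exact hB _ hai' hae' x
    · exact hB _ hbi' hbe' x
  · simp only [Set.mem_insert_iff, Set.mem_singleton_iff] at hx
    rcases hx with rfl | rfl
    · exact hA _ hai hae y
    · exact hA _ hbi hbe y

end O3
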