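import Pool.Agent.O3.Defs
import Pool.Agent.O3.Calc
import Pool.Agent.O3.Pde

/-! Module VIRIAL: the virial identity. -/

open MeasureTheory Filter Topology
open scoped ContDiff

noncomputable section

namespace O3

variable {c : Conf}

theorem vir_parts1 {g T : ℝ × ℝ → ℝ} (hg : ContDiff ℝ ∞ g) (hgc : HasCompactSupport g)
    (hT : ContDiff ℝ ∞ T) : ∫ x, g x * d1 T x = -∫ x, d1 g x * T x := by
  have hd : HasCompactSupport (d1 g) := hgc.fderiv_apply ℝ (1, 0)
  refine integral_mul_fderiv_eq_neg_fderiv_mul_of_integrable ?_ ?_ ?_ ?_ ?_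
  · exact ((smooth_d1 hg).continuous.mul hT.continuous).integrable_of_hasCompactSupport
      (hd.mul_right)
  · exact (hg.continuous.mul (smooth_d1 hT).continuous).integrable_of_hasCompactSupport
      (hgc.mul_right)
  · exact (hg.continuous.mul hT.continuous).integrable_of_hasCompactSupport (hgc.mul_right)
  · exact fun x _ => (hg.differentiable (by simp)) x
  · exact fun x _ => (hT.differentiable (by simp)) x

theorem vir_parts2 {g T : ℝ × ℝ → ℝ} (hg : ContDiff ℝ ∞ g) (hgc : HasCompactSupport g)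
    (hT : ContDiff ℝ ∞ T) : ∫ x, g x * d2 T x = -∫ x, d2 g x * T x := by
  have hd : HasCompactSupport (d2 g) := hgc.fderiv_apply ℝ (0, 1)
  refine integral_mul_fderiv_eq_neg_fderiv_mul_of_integrable ?_ ?_ ?_ ?_ ?_
  · exact ((smooth_d2 hg).continuous.mul hT.continuous).integrable_of_hasCompactSupport
      (hd.mul_right)
  · exact (hg.continuous.mul (smooth_d2 hT).continuous).integrable_of_hasCompactSupport
      (hgc.mul_right)
  · exact (hg.continuous.mul hT.continuous).integrable_of_hasCompactSupport (hgc.mul_right)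
  · exact fun x _ => (hg.differentiable (by simp)) x
  · exact fun x _ => (hT.differentiable (by simp)) x

theorem vir_scale {A : ℝ × ℝ → ℝ} (hA : ContDiff ℝ ∞ A) (s : ℝ) (x : ℝ × ℝ) :
    d1 (fun x => A (s • x)) x = s * d1 A (s • x) ∧ d2 (fun x => A (s • x)) x = s * d2 A (s • x) := by
  have h1 : HasFDerivAt (fun x : ℝ × ℝ => s • x) (s • ContinuousLinearMap.id ℝ (ℝ × ℝ)) x :=
    (hasFDerivAt_id x).const_smul s
  have h2 := ((hA.differentiable (by simp)) (s • x)).hasFDerivAt.comp x h1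
  have h3 : fderiv ℝ (fun x => A (s • x)) x =
      (fderiv ℝ A (s • x)).comp (s • ContinuousLinearMap.id ℝ (ℝ × ℝ)) := h2.fderiv
  constructor
  · unfold d1
    rw [h3]
    simp
  · unfold d2
    rw [h3]
    simp

theorem vir_smooth_scale {A : ℝ × ℝ → ℝ} (hA : ContDiff ℝ ∞ A) (s : ℝ) :
    ContDiff ℝ ∞ (fun x : ℝ × ℝ => A (s • x)) :=
  hA.comp (contDiff_const_smul s)

theorem vir_cpt_scale {A : ℝ × ℝ → ℝ} (hA : HasCompactSupport A) {s : ℝ} (hs : s ≠ 0) :
    HasCompactSupport (fun x : ℝ × ℝ => A (s • x)) := by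
  have := hA.comp_homeomorph (Homeomorph.smulOfNeZero s hs)
  exact this

theorem vir_bounded {A : ℝ × ℝ → ℝ} (hA : Continuous A) (hc : HasCompactSupport A) :
    ∃ C, ∀ x, |A x| ≤ C := by
  obtain ⟨C, hC⟩ := hc.exists_bound_of_continuous hA
  exact ⟨C, fun x => by simpa using hC x⟩

theorem vir_T11_le (x : ℝ × ℝ) : |c.T11 x| ≤ c.density x := by
  unfold Conf.T11 Conf.density
  rw [abs_le]
  constructor
  · nlinarith [sq_nonneg (c.P1 x), sq_nonneg (c.Q1 x), sq_nonneg (c.S1 x), sq_nonneg (c.P2 x),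
      sq_nonneg (c.Q2 x), sq_nonneg (c.S2 x), sq_nonneg (c.F x), sq_nonneg (1 - c.φ3 x)]
  · nlinarith [sq_nonneg (c.P1 x), sq_nonneg (c.Q1 x), sq_nonneg (c.S1 x), sq_nonneg (c.P2 x),
      sq_nonneg (c.Q2 x), sq_nonneg (c.S2 x), sq_nonneg (c.F x), sq_nonneg (1 - c.φ3 x)]

theorem vir_T22_le (x : ℝ × ℝ) : |c.T22 x| ≤ c.density x := by
  unfold Conf.T22 Conf.density
  rw [abs_le]
  constructor
  · nlinarith [sq_nonneg (c.P1 x), sq_nonneg (c.Q1 x), sq_nonneg (c.S1 x), sq_nonneg (c.P2 x),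
      sq_nonneg (c.Q2 x), sq_nonneg (c.S2 x), sq_nonneg (c.F x), sq_nonneg (1 - c.φ3 x)]
  · nlinarith [sq_nonneg (c.P1 x), sq_nonneg (c.Q1 x), sq_nonneg (c.S1 x), sq_nonneg (c.P2 x),
      sq_nonneg (c.Q2 x), sq_nonneg (c.S2 x), sq_nonneg (c.F x), sq_nonneg (1 - c.φ3 x)]

theorem vir_T12_le (x : ℝ × ℝ) : |c.T12 x| ≤ c.density x := by
  unfold Conf.T12 Conf.density
  rw [abs_le]
  constructor
  · nlinarith [sq_nonneg (c.P1 x + c.P2 x), sq_nonneg (c.Q1 x + c.Q2 x),
      sq_nonneg (c.S1 x + c.S2 x), sq_nonneg (c.P1 x), sq_nonneg (c.Q1 x), sq_nonneg (c.S1 x),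
      sq_nonneg (c.P2 x), sq_nonneg (c.Q2 x), sq_nonneg (c.S2 x), sq_nonneg (c.F x),
      sq_nonneg (1 - c.φ3 x)]
  · nlinarith [sq_nonneg (c.P1 x - c.P2 x), sq_nonneg (c.Q1 x - c.Q2 x),
      sq_nonneg (c.S1 x - c.S2 x), sq_nonneg (c.P1 x), sq_nonneg (c.Q1 x), sq_nonneg (c.S1 x),
      sq_nonneg (c.P2 x), sq_nonneg (c.Q2 x), sq_nonneg (c.S2 x), sq_nonneg (c.F x),
      sq_nonneg (1 - c.φ3 x)]

/-- the tested identity at scale `s` -/
theorem vir_test (hc : c.Critical) {A B : ℝ × ℝ → ℝ} (hA : ContDiff ℝ ∞ A) (hB : ContDiff ℝ ∞ B)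
    (cA : HasCompactSupport A) (cB : HasCompactSupport B) {s : ℝ} (hs : s ≠ 0) :
    ∫ x, (d1 A (s • x) * c.T11 x + d2 A (s • x) * c.T12 x
      + (d1 B (s • x) * c.T12 x + d2 B (s • x) * c.T22 x)) = 0 := by
  obtain ⟨s11, s12, s22⟩ := smooth_T hc
  have sA := vir_smooth_scale hA s
  have sB := vir_smooth_scale hB s
  have kA := vir_cpt_scale cA hs
  have kB := vir_cpt_scale cB hs
  have hi : ∀ {g T : ℝ × ℝ → ℝ}, Continuous g → HasCompactSupport g → Continuous T →
      Integrable (fun x => g x * T x) := by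
    intro g T h1 h2 h3
    exact (h1.mul h3).integrable_of_hasCompactSupport h2.mul_right
  have e1 := vir_parts1 sA kA s11
  have e2 := vir_parts2 sA kA s12
  have e3 := vir_parts1 sB kB s12
  have e4 := vir_parts2 sB kB s22
  have z1 : (∫ x, A (s • x) * d1 c.T11 x) + (∫ x, A (s • x) * d2 c.T12 x) = 0 := by
    rw [← integral_add (hi sA.continuous kA (smooth_d1 s11).continuous)
      (hi sA.continuous kA (smooth_d2 s12).continuous)]
    have : (fun x => A (s • x) * d1 c.T11 x + A (s • x) * d2 c.T12 x) = fun _ => 0 := by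
      funext x
      rw [← mul_add, stress1 hc, mul_zero]
    rw [this, integral_zero]
  have z2 : (∫ x, B (s • x) * d1 c.T12 x) + (∫ x, B (s • x) * d2 c.T22 x) = 0 := by
    rw [← integral_add (hi sB.continuous kB (smooth_d1 s12).continuous)
      (hi sB.continuous kB (smooth_d2 s22).continuous)]
    have : (fun x => B (s • x) * d1 c.T12 x + B (s • x) * d2 c.T22 x) = fun _ => 0 := by
      funext x
      rw [← mul_add, stress2 hc, mul_zero]
    rw [this, integral_zero]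
  have kd1 : ∀ {g : ℝ × ℝ → ℝ}, HasCompactSupport g → HasCompactSupport (d1 g) :=
    fun h => h.fderiv_apply ℝ (1, 0)
  have kd2 : ∀ {g : ℝ × ℝ → ℝ}, HasCompactSupport g → HasCompactSupport (d2 g) :=
    fun h => h.fderiv_apply ℝ (0, 1)
  have c1 : Continuous fun x : ℝ × ℝ => s • x := continuous_const_smul s
  have i1 : Integrable (fun x => d1 A (s • x) * c.T11 x) :=
    hi ((smooth_d1 hA).continuous.comp c1) (vir_cpt_scale (kd1 cA) hs) s11.continuous
  have i2 : Integrable (fun x => d2 A (s • x) * c.T12 x) :=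
    hi ((smooth_d2 hA).continuous.comp c1) (vir_cpt_scale (kd2 cA) hs) s12.continuous
  have i3 : Integrable (fun x => d1 B (s • x) * c.T12 x) :=
    hi ((smooth_d1 hB).continuous.comp c1) (vir_cpt_scale (kd1 cB) hs) s12.continuous
  have i4 : Integrable (fun x => d2 B (s • x) * c.T22 x) :=
    hi ((smooth_d2 hB).continuous.comp c1) (vir_cpt_scale (kd2 cB) hs) s22.continuous
  have r1 : ∫ x, d1 (fun x => A (s • x)) x * c.T11 x = s * ∫ x, d1 A (s • x) * c.T11 x := by
    rw [← integral_const_mul]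
    congr 1
    funext x
    rw [(vir_scale hA s x).1]
    ring
  have r2 : ∫ x, d2 (fun x => A (s • x)) x * c.T12 x = s * ∫ x, d2 A (s • x) * c.T12 x := by
    rw [← integral_const_mul]
    congr 1
    funext x
    rw [(vir_scale hA s x).2]
    ring
  have r3 : ∫ x, d1 (fun x => B (s • x)) x * c.T12 x = s * ∫ x, d1 B (s • x) * c.T12 x := by
    rw [← integral_const_mul]
    congr 1
    funext x
    rw [(vir_scale hB s x).1]
    ring
  have r4 : ∫ x, d2 (fun x => B (s • x)) x * c.T22 x = s * ∫ x, d2 B (s • x) * c.T22 x := by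
    rw [← integral_const_mul]
    congr 1
    funext x
    rw [(vir_scale hB s x).2]
    ring
  have j12 : Integrable (fun x => d1 A (s • x) * c.T11 x + d2 A (s • x) * c.T12 x) := i1.add i2
  have j34 : Integrable (fun x => d1 B (s • x) * c.T12 x + d2 B (s • x) * c.T22 x) := i3.add i4
  rw [integral_add j12 j34, integral_add i1 i2, integral_add i3 i4]
  have hfin : s * ((∫ x, d1 A (s • x) * c.T11 x) + (∫ x, d2 A (s • x) * c.T12 x)
      + ((∫ x, d1 B (s • x) * c.T12 x) + (∫ x, d2 B (s • x) * c.T22 x))) = 0 := by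
    rw [r1] at e1
    rw [r2] at e2
    rw [r3] at e3
    rw [r4] at e4
    linarith
  exact (mul_eq_zero.1 hfin).resolve_left hs

theorem virial (hc : c.Critical) : ∫ x, (c.F x ^ 2 - (1 - c.φ3 x) ^ 2) = 0 := by
  obtain ⟨s11, s12, s22⟩ := smooth_T hc
  let χ : ContDiffBump (0 : ℝ × ℝ) := ⟨1, 2, by norm_num, by norm_num⟩
  have sχ : ContDiff ℝ ∞ (χ : ℝ × ℝ → ℝ) := χ.contDiff
  have kχ : HasCompactSupport (χ : ℝ × ℝ → ℝ) := χ.hasCompactSupport
  have χ0 : χ (0 : ℝ × ℝ) = 1 := χ.one_of_mem_closedBall (by simp [χ.rIn_pos.le])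
  have sf : ContDiff ℝ ∞ (fun x : ℝ × ℝ => x.1) := contDiff_fst
  have ss : ContDiff ℝ ∞ (fun x : ℝ × ℝ => x.2) := contDiff_snd
  let A : ℝ × ℝ → ℝ := fun x => x.1 * χ x
  let B : ℝ × ℝ → ℝ := fun x => x.2 * χ x
  have hA : ContDiff ℝ ∞ A := sf.mul sχ
  have hB : ContDiff ℝ ∞ B := ss.mul sχ
  have cA : HasCompactSupport A := kχ.mul_left
  have cB : HasCompactSupport B := kχ.mul_left
  have d1f : ∀ x : ℝ × ℝ, d1 (fun x : ℝ × ℝ => x.1) x = 1 := fun x => by
    unfold d1; rw [(hasFDerivAt_fst (𝕜 := ℝ) (E := ℝ) (F := ℝ) (p := x)).fderiv]; rfl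
  have d2f : ∀ x : ℝ × ℝ, d2 (fun x : ℝ × ℝ => x.1) x = 0 := fun x => by
    unfold d2; rw [(hasFDerivAt_fst (𝕜 := ℝ) (E := ℝ) (F := ℝ) (p := x)).fderiv]; rfl
  have d1s : ∀ x : ℝ × ℝ, d1 (fun x : ℝ × ℝ => x.2) x = 0 := fun x => by
    unfold d1; rw [(hasFDerivAt_snd (𝕜 := ℝ) (E := ℝ) (F := ℝ) (p := x)).fderiv]; rfl
  have d2s : ∀ x : ℝ × ℝ, d2 (fun x : ℝ × ℝ => x.2) x = 1 := fun x => by
    unfold d2; rw [(hasFDerivAt_snd (𝕜 := ℝ) (E := ℝ) (F := ℝ) (p := x)).fderiv]; rfl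
  have A1 : d1 A 0 = 1 := by
    show d1 (fun x : ℝ × ℝ => x.1 * χ x) 0 = 1
    rw [d1_mul sf sχ, d1f, χ0]
    simp
  have A2 : d2 A 0 = 0 := by
    show d2 (fun x : ℝ × ℝ => x.1 * χ x) 0 = 0
    rw [d2_mul sf sχ, d2f, χ0]
    simp
  have B1 : d1 B 0 = 0 := by
    show d1 (fun x : ℝ × ℝ => x.2 * χ x) 0 = 0
    rw [d1_mul ss sχ, d1s, χ0]
    simp
  have B2 : d2 B 0 = 1 := by
    show d2 (fun x : ℝ × ℝ => x.2 * χ x) 0 = 1
    rw [d2_mul ss sχ, d2s, χ0]
    simp
  have kd1 : ∀ {g : ℝ × ℝ → ℝ}, HasCompactSupport g → HasCompactSupport (d1 g) :=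
    fun h => h.fderiv_apply ℝ (1, 0)
  have kd2 : ∀ {g : ℝ × ℝ → ℝ}, HasCompactSupport g → HasCompactSupport (d2 g) :=
    fun h => h.fderiv_apply ℝ (0, 1)
  obtain ⟨C1, hC1⟩ := vir_bounded (smooth_d1 hA).continuous (kd1 cA)
  obtain ⟨C2, hC2⟩ := vir_bounded (smooth_d2 hA).continuous (kd2 cA)
  obtain ⟨C3, hC3⟩ := vir_bounded (smooth_d1 hB).continuous (kd1 cB)
  obtain ⟨C4, hC4⟩ := vir_bounded (smooth_d2 hB).continuous (kd2 cB)
  let s : ℕ → ℝ := fun n => 1 / ((n : ℝ) + 1)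
  have hs0 : ∀ n, s n ≠ 0 := fun n => by
    have : (0 : ℝ) < 1 / ((n : ℝ) + 1) := by positivity
    exact this.ne'
  have hs : Tendsto s atTop (𝓝 0) := tendsto_one_div_add_atTop_nhds_zero_nat
  let Φ : ℕ → ℝ × ℝ → ℝ := fun n x => d1 A (s n • x) * c.T11 x + d2 A (s n • x) * c.T12 x
      + (d1 B (s n • x) * c.T12 x + d2 B (s n • x) * c.T22 x)
  have hΦ : ∀ n, ∫ x, Φ n x = 0 := fun n => vir_test hc hA hB cA cB (hs0 n)
  have hlim : Tendsto (fun n => ∫ x, Φ n x) atTop (𝓝 (∫ x, (c.T11 x + c.T22 x))) := by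
    refine tendsto_integral_of_dominated_convergence
      (fun x => (C1 + C2 + (C3 + C4)) * c.density x) ?_ (hc.finite.const_mul _) ?_ ?_
    · intro n
      have c1 : Continuous fun x : ℝ × ℝ => s n • x := continuous_const_smul (s n)
      refine Continuous.aestronglyMeasurable ?_
      exact (((((smooth_d1 hA).continuous.comp c1).mul s11.continuous).add
        (((smooth_d2 hA).continuous.comp c1).mul s12.continuous)).add
        ((((smooth_d1 hB).continuous.comp c1).mul s12.continuous).add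
        (((smooth_d2 hB).continuous.comp c1).mul s22.continuous)))
    · intro n
      refine Eventually.of_forall fun x => ?_
      have key : ∀ {u C T : ℝ}, |u| ≤ C → |T| ≤ c.density x → |u * T| ≤ C * c.density x := by
        intro u C T h1 h2
        rw [abs_mul]
        exact mul_le_mul h1 h2 (abs_nonneg _) ((abs_nonneg u).trans h1)
      have k1 := key (hC1 (s n • x)) (vir_T11_le (c := c) x)
      have k2 := key (hC2 (s n • x)) (vir_T12_le (c := c) x)
      have k3 := key (hC3 (s n • x)) (vir_T12_le (c := c) x)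
      have k4 := key (hC4 (s n • x)) (vir_T22_le (c := c) x)
      rw [Real.norm_eq_abs]
      calc |Φ n x| ≤ |d1 A (s n • x) * c.T11 x + d2 A (s n • x) * c.T12 x|
            + |d1 B (s n • x) * c.T12 x + d2 B (s n • x) * c.T22 x| := abs_add_le _ _
        _ ≤ (|d1 A (s n • x) * c.T11 x| + |d2 A (s n • x) * c.T12 x|)
            + (|d1 B (s n • x) * c.T12 x| + |d2 B (s n • x) * c.T22 x|) :=
          add_le_add (abs_add_le _ _) (abs_add_le _ _)
        _ ≤ (C1 + C2 + (C3 + C4)) * c.density x := by linarith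
    · refine Eventually.of_forall fun x => ?_
      have t0 : Tendsto (fun n => s n • x) atTop (𝓝 (0 : ℝ × ℝ)) := by
        have := hs.smul_const x
        simpa using this
      have t1 := ((smooth_d1 hA).continuous.tendsto 0).comp t0
      have t2 := ((smooth_d2 hA).continuous.tendsto 0).comp t0
      have t3 := ((smooth_d1 hB).continuous.tendsto 0).comp t0
      have t4 := ((smooth_d2 hB).continuous.tendsto 0).comp t0
      rw [A1] at t1
      rw [A2] at t2
      rw [B1] at t3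
      rw [B2] at t4
      have t5 := ((t1.mul_const (c.T11 x)).add (t2.mul_const (c.T12 x))).add
        ((t3.mul_const (c.T12 x)).add (t4.mul_const (c.T22 x)))
      have e : (1 * c.T11 x + 0 * c.T12 x + (0 * c.T12 x + 1 * c.T22 x)) =
          c.T11 x + c.T22 x := by ring
      rw [e] at t5
      exact t5
  have h0 : ∫ x, (c.T11 x + c.T22 x) = 0 := by
    have h1 : (fun n => ∫ x, Φ n x) = fun _ => 0 := funext hΦ
    rw [h1] at hlim
    exact (tendsto_nhds_unique hlim tendsto_const_nhds)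
  have h2 : (fun x => c.F x ^ 2 - (1 - c.φ3 x) ^ 2) = fun x => c.T11 x + c.T22 x := by
    funext x
    unfold Conf.T11 Conf.T22
    ring
  rw [h2, h0]

end O3
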