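import Pool.Agent.O3.Pde
import Pool.Agent.O3.Virial
import Pool.Agent.O3.Mp
import Pool.Agent.O3.Rect
import Pool.Agent.O3.Conn

open MeasureTheory Filter Topology
open scoped ContDiff

noncomputable section

namespace O3

variable {c : Conf}

private theorem W_nonneg (c : Conf) (σ : ℝ) (x : ℝ × ℝ) : 0 ≤ c.W σ x := by
  unfold Conf.W
  positivity

private theorem φ3_le (hc : c.Critical) (x : ℝ × ℝ) : c.φ3 x ≤ 1 ∧ -1 ≤ c.φ3 x := by
  have h := hc.unit x
  have h1 : c.φ3 x ^ 2 ≤ 1 := by nlinarith [sq_nonneg (c.φ1 x), sq_nonneg (c.φ2 x)]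
  constructor <;> nlinarith

private theorem density_ge (c : Conf) (x : ℝ × ℝ) :
    c.F x ^ 2 ≤ c.density x ∧ (1 - c.φ3 x) ^ 2 ≤ c.density x := by
  unfold Conf.density
  constructor <;> nlinarith [sq_nonneg (c.P1 x), sq_nonneg (c.Q1 x), sq_nonneg (c.S1 x),
    sq_nonneg (c.P2 x), sq_nonneg (c.Q2 x), sq_nonneg (c.S2 x), sq_nonneg (c.F x),
    sq_nonneg (1 - c.φ3 x)]

private theorem integrable_of_le (hc : c.Critical) {f : ℝ × ℝ → ℝ} (hf : Continuous f)
    (h0 : ∀ x, 0 ≤ f x) (h : ∀ x, f x ≤ c.density x) : Integrable f := by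
  refine hc.finite.mono' hf.aestronglyMeasurable (Eventually.of_forall fun x => ?_)
  rw [Real.norm_eq_abs, abs_of_nonneg (h0 x)]
  exact h x

private theorem v_nonneg (hc : c.Critical) (h : ∀ x, c.φ3 x = 1 → c.F x = 0) {σ : ℝ}
    (hσ : σ ^ 2 = 1) (x : ℝ × ℝ) : 0 ≤ c.v σ x := by
  suffices hk : ∀ k > 0, -k ≤ c.v σ x by
    by_contra hneg
    push Not at hneg
    have := hk (-c.v σ x / 2) (by linarith)
    linarith
  intro k hk
  have hF := smooth_F hc
  have i1 : Integrable (fun x => c.F x ^ 2) :=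
    integrable_of_le hc (hF.continuous.pow 2) (fun x => sq_nonneg _) (fun x => (density_ge c x).1)
  have i2 : Integrable (fun x => d1 c.F x ^ 2 + d2 c.F x ^ 2) :=
    integrable_of_le hc (((smooth_d1 hF).continuous.pow 2).add ((smooth_d2 hF).continuous.pow 2))
      (fun x => by positivity) (grad_F_le hc)
  obtain ⟨a, b, a', b', h1, h2, h3, h4, hfr⟩ := small_boundary hF i1 i2 hk ‖x‖
  have hx1 : |x.1| ≤ ‖x‖ := norm_fst_le x
  have hx2 : |x.2| ≤ ‖x‖ := norm_snd_le x
  rw [abs_le] at hx1 hx2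
  have hbd : Bornology.IsBounded (Set.Ioo a b ×ˢ Set.Ioo a' b') :=
    (Metric.isBounded_Ioo a b).prod (Metric.isBounded_Ioo a' b')
  have hvc : Continuous (c.v σ) := (smooth_v hc σ).continuous
  have hK : IsCompact (closure (Set.Ioo a b ×ˢ Set.Ioo a' b') ∩ {y | c.v σ y ≤ -k}) :=
    hbd.isCompact_closure.inter_right (isClosed_le hvc continuous_const)
  have hw : ContinuousOn (fun y => 1 - c.φ3 y)
      (closure (Set.Ioo a b ×ˢ Set.Ioo a' b') ∩ {y | c.v σ y ≤ -k}) :=
    (continuous_const.sub hc.smooth_φ3.continuous).continuousOn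
  have hpos : ∀ y ∈ closure (Set.Ioo a b ×ˢ Set.Ioo a' b') ∩ {y | c.v σ y ≤ -k},
      0 < 1 - c.φ3 y := by
    rintro y ⟨-, hy⟩
    rcases (φ3_le hc y).1.lt_or_eq with h5 | h5
    · linarith
    · exfalso
      have h6 := h y h5
      have hy' : c.v σ y ≤ -k := hy
      rw [Conf.v, h5, h6] at hy'
      linarith
  obtain ⟨δ, hδ, hδK⟩ := hK.exists_forall_le' hw hpos
  refine mp_local (smooth_v hc σ) (isOpen_Ioo.prod isOpen_Ioo) hbd hδ ?_ ?_ x
    ⟨⟨by linarith, by linarith⟩, ⟨by linarith, by linarith⟩⟩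
  · intro y hy
    have h5 := hfr y hy
    have h6 := (φ3_le hc y).1
    have h7 : |σ * c.F y| ≤ k := by
      rw [abs_mul]
      have : |σ| = 1 := by
        rw [← sq_abs] at hσ
        nlinarith [abs_nonneg σ]
      rw [this, one_mul]
      exact h5
    have h8 := neg_le_of_abs_le h7
    unfold Conf.v
    linarith
  · intro y hy hvy
    have h5 : δ ≤ 1 - c.φ3 y := hδK y ⟨subset_closure hy, hvy.le⟩
    rw [lapl_v hc hσ, grad_v hc hσ, le_div_iff₀ hδ]
    have h6 := φ3_le hc y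
    have hW := W_nonneg c σ y
    have h7 : (1 - c.φ3 y ^ 2) * c.v σ y ≤ 0 := by
      apply mul_nonpos_of_nonneg_of_nonpos
      · nlinarith
      · linarith
    have h8 : c.φ3 y * c.W σ y * δ ≤ (1 + c.φ3 y) * c.W σ y * δ := by nlinarith [mul_nonneg hW hδ.le]
    have h9 : (1 + c.φ3 y) * c.W σ y * δ ≤ (1 + c.φ3 y) * c.W σ y * (1 - c.φ3 y) := by
      apply mul_le_mul_of_nonneg_left h5
      apply mul_nonneg _ hW
      linarith
    nlinarith [mul_nonneg_of_nonpos_of_nonpos h7 (neg_nonpos.2 hδ.le)]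

private theorem dual_of_v (hc : c.Critical) {σ : ℝ} (hσ : σ ^ 2 = 1) (hv : ∀ x, c.v σ x = 0) :
    c.Dual σ := by
  have hv0 : c.v σ = fun _ => (0 : ℝ) := funext hv
  have e1 : d1 (c.v σ) = fun _ => (0 : ℝ) := by
    rw [hv0]; exact funext fun x => d1_const 0 x
  have e2 : d2 (c.v σ) = fun _ => (0 : ℝ) := by
    rw [hv0]; exact funext fun x => d2_const 0 x
  intro x
  have hl := lapl_v hc hσ x
  have hg := grad_v hc hσ x
  rw [e1, e2] at hl hg
  rw [hv x, d1_const, d2_const] at hl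
  simp only [] at hg
  have hW : c.W σ x = 0 := by
    have t1 : c.φ3 x * c.W σ x = 0 := by linarith
    have t2 : (1 - c.φ3 x ^ 2) * c.W σ x = 0 := by
      rw [← hg]; ring
    have t3 : c.W σ x = c.φ3 x * (c.φ3 x * c.W σ x) + (1 - c.φ3 x ^ 2) * c.W σ x := by ring
    rw [t3, t1, t2]
    ring
  unfold Conf.W at hW
  have q1 := sq_nonneg (c.P1 x - σ * (c.φ2 x * c.S2 x - c.φ3 x * c.Q2 x))
  have q2 := sq_nonneg (c.Q1 x - σ * (c.φ3 x * c.P2 x - c.φ1 x * c.S2 x))
  have q3 := sq_nonneg (c.S1 x - σ * (c.φ1 x * c.Q2 x - c.φ2 x * c.P2 x))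
  refine ⟨?_, ?_, ?_, ?_⟩
  · have := pow_eq_zero_iff (two_ne_zero) |>.1 (by linarith :
      (c.P1 x - σ * (c.φ2 x * c.S2 x - c.φ3 x * c.Q2 x)) ^ 2 = 0)
    linarith
  · have := pow_eq_zero_iff (two_ne_zero) |>.1 (by linarith :
      (c.Q1 x - σ * (c.φ3 x * c.P2 x - c.φ1 x * c.S2 x)) ^ 2 = 0)
    linarith
  · have := pow_eq_zero_iff (two_ne_zero) |>.1 (by linarith :
      (c.S1 x - σ * (c.φ1 x * c.Q2 x - c.φ2 x * c.P2 x)) ^ 2 = 0)
    linarith
  · have h5 := hv x
    unfold Conf.v at h5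
    have h6 : σ * ((1 - c.φ3 x) + σ * c.F x) = 0 := by rw [h5, mul_zero]
    linear_combination h6 - c.F x * hσ

theorem main1 (hc : c.Critical) :
    (∀ x, c.φ3 x = 1 → c.F x = 0) ↔ (c.Dual (-1) ∨ c.Dual 1) := by
  constructor
  · intro h
    have hp := v_nonneg hc h (σ := 1) (by norm_num)
    have hm := v_nonneg hc h (σ := -1) (by norm_num)
    have hF := smooth_F hc
    have hle : ∀ x, c.F x ^ 2 ≤ (1 - c.φ3 x) ^ 2 := by
      intro x
      have h1 := hp x
      have h2 := hm x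
      unfold Conf.v at h1 h2
      nlinarith
    have hw : Continuous fun x => (1 - c.φ3 x) ^ 2 :=
      (continuous_const.sub hc.smooth_φ3.continuous).pow 2
    have hcont : Continuous fun x => (1 - c.φ3 x) ^ 2 - c.F x ^ 2 :=
      hw.sub (hF.continuous.pow 2)
    have hint : Integrable fun x => (1 - c.φ3 x) ^ 2 - c.F x ^ 2 := by
      refine integrable_of_le hc hcont (fun x => by linarith [hle x]) (fun x => ?_)
      have := (density_ge c x).2
      nlinarith [sq_nonneg (c.F x)]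
    have hzero : ∫ x, ((1 - c.φ3 x) ^ 2 - c.F x ^ 2) = 0 := by
      have h1 := virial hc
      have h2 : (fun x => (1 - c.φ3 x) ^ 2 - c.F x ^ 2) =
          fun x => -(c.F x ^ 2 - (1 - c.φ3 x) ^ 2) := by
        funext x; ring
      rw [h2, integral_neg, h1, neg_zero]
    have hae := (integral_eq_zero_iff_of_nonneg (fun x => by
      have := hle x
      show (0 : ℝ) ≤ (1 - c.φ3 x) ^ 2 - c.F x ^ 2
      linarith) hint).1 hzero
    have heq : (fun x => (1 - c.φ3 x) ^ 2 - c.F x ^ 2) = 0 :=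
      (hcont.ae_eq_iff_eq volume continuous_const).1 hae
    have hFw : ∀ x, c.F x ^ 2 = (1 - c.φ3 x) ^ 2 := by
      intro x
      have := congrFun heq x
      simp only [Pi.zero_apply] at this
      linarith
    rcases conn hc hFw with h1 | h1
    · exact Or.inr (dual_of_v hc (by norm_num) h1)
    · exact Or.inl (dual_of_v hc (by norm_num) h1)
  · rintro (h | h) x hx
    · rw [(h x).2.2.2, hx]; ring
    · rw [(h x).2.2.2, hx]; ring

end O3
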