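import Pool.Agent.O3.Defs

/-! The radial ODE system has no admissible solution. -/

open MeasureTheory Filter Topology
open scoped ContDiff

noncomputable section

namespace O3

private lemma ode_mono {D : Set ℝ} (hD : Convex ℝ D) {f f' : ℝ → ℝ}
    (h : ∀ r ∈ D, HasDerivAt f (f' r) r) (h' : ∀ r ∈ D, 0 ≤ f' r) : MonotoneOn f D := by
  refine monotoneOn_of_deriv_nonneg hD (fun r hr => (h r hr).continuousAt.continuousWithinAt)
    (fun r hr => (h r (interior_subset hr)).differentiableAt.differentiableWithinAt) fun r hr => ?_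
  rw [(h r (interior_subset hr)).deriv]
  exact h' r (interior_subset hr)

private lemma ode_anti {D : Set ℝ} (hD : Convex ℝ D) {f f' : ℝ → ℝ}
    (h : ∀ r ∈ D, HasDerivAt f (f' r) r) (h' : ∀ r ∈ D, f' r ≤ 0) : AntitoneOn f D := by
  refine antitoneOn_of_deriv_nonpos hD (fun r hr => (h r hr).continuousAt.continuousWithinAt)
    (fun r hr => (h r (interior_subset hr)).differentiableAt.differentiableWithinAt) fun r hr => ?_
  rw [(h r (interior_subset hr)).deriv]
  exact h' r (interior_subset hr)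

/-- no positive lower bound for `F²` on a half line -/
private lemma ode_int {F : ℝ → ℝ} (hint : IntegrableOn (fun r => r * F r ^ 2) (Set.Ioi 0))
    {r₀ m : ℝ} (h0 : 0 < r₀) (hm : 0 < m) (h : ∀ r, r₀ ≤ r → m ≤ F r ^ 2) : False := by
  have h1 : IntegrableOn (fun r => r * F r ^ 2) (Set.Ioi r₀) :=
    hint.mono_set (Set.Ioi_subset_Ioi h0.le)
  have h2 : IntegrableOn (fun _ : ℝ => r₀ * m) (Set.Ioi r₀) := by
    refine Integrable.mono' h1 aestronglyMeasurable_const ?_
    refine (ae_restrict_iff' measurableSet_Ioi).2 (Eventually.of_forall fun r hr => ?_)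
    have hr' : r₀ < r := hr
    rw [Real.norm_of_nonneg (by positivity)]
    exact mul_le_mul hr'.le (h r hr'.le) hm.le (h0.trans hr').le
  rw [integrableOn_const_iff] at h2
  rcases h2 with h2 | h2
  · exact (mul_pos h0 hm).ne' (enorm_eq_zero.1 h2)
  · rw [Real.volume_Ioi] at h2
    exact lt_irrefl _ h2

theorem ode_false (s t E B F : ℝ → ℝ) (F0 : ℝ)
    (hs : ∀ r > 0, HasDerivAt s (t r) r)
    (ht : ∀ r > 0, HasDerivAt t (-t r / r - (E r + (B r / r) ^ 2 * (1 - s r ^ 2)) * s r
      - (1 - s r) * (1 - s r ^ 2)) r)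
    (hE : ∀ r > 0, HasDerivAt E (-2 * (1 - s r) * t r - 2 * E r / r
      - 2 * (B r / r) ^ 2 * s r * t r) r)
    (hB : ∀ r > 0, HasDerivAt B (r * F r) r)
    (hF : ∀ r > 0, HasDerivAt F (B r * (1 - s r ^ 2) / r) r)
    (hρ : ∀ r > 0, (1 - s r ^ 2) * E r = t r ^ 2) (hE0 : ∀ r > 0, 0 ≤ E r)
    (hs1 : ∀ r > 0, |s r| ≤ 1)
    (lB : Tendsto B (𝓝[>] 0) (𝓝 1)) (lF : Tendsto F (𝓝[>] 0) (𝓝 F0))
    (ls : Tendsto s (𝓝[>] 0) (𝓝 (-1)))
    (lW : Tendsto (fun r => E r + (B r / r) ^ 2 * (1 - s r ^ 2) - 2 * (B r / r) * t r)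
      (𝓝[>] 0) (𝓝 0))
    (hint : IntegrableOn (fun r => r * F r ^ 2) (Set.Ioi 0))
    (hinf : Tendsto s atTop (𝓝 1)) : False := by
  have hρ0 : ∀ r > 0, 0 ≤ 1 - s r ^ 2 := by
    intro r hr
    have := (sq_le_one_iff_abs_le_one (s r)).2 (hs1 r hr)
    linarith
  -- step 1
  have hBF' : ∀ r > 0, HasDerivAt (fun r => B r * F r) (r * F r * F r + B r * (B r * (1 - s r ^ 2) / r)) r :=
    fun r hr => (hB r hr).mul (hF r hr)
  have hF2' : ∀ r > 0, HasDerivAt (fun r => F r ^ 2) (2 * (B r * F r) * ((1 - s r ^ 2) / r)) r := by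
    intro r hr
    have := (hF r hr).pow 2
    refine this.congr_deriv ?_
    push_cast
    ring
  have step1 : ∀ r > 0, B r * F r ≤ 0 := by
    intro r₀ hr₀
    by_contra hcon
    push Not at hcon
    have hmono : MonotoneOn (fun r => B r * F r) (Set.Ioi 0) :=
      ode_mono (convex_Ioi 0) (fun r hr => hBF' r hr) fun r hr => by
        have hr : 0 < r := hr
        have := hρ0 r hr
        have h1 : r * F r * F r + B r * (B r * (1 - s r ^ 2) / r) =
          r * F r ^ 2 + B r ^ 2 * ((1 - s r ^ 2) / r) := by ring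
        rw [h1]; positivity
    have hpos : ∀ r, r₀ ≤ r → 0 < B r * F r := fun r hr =>
      hcon.trans_le (hmono (Set.mem_Ioi.2 hr₀) (Set.mem_Ioi.2 (hr₀.trans_le hr)) hr)
    have hF2 : MonotoneOn (fun r => F r ^ 2) (Set.Ici r₀) :=
      ode_mono (convex_Ici r₀) (fun r hr => hF2' r (hr₀.trans_le hr)) fun r hr => by
        have hr0 : 0 < r := hr₀.trans_le hr
        have h1 := hρ0 r hr0
        have h2 := hpos r hr
        positivity
    have hF0 : F r₀ ≠ 0 := by
      intro h
      rw [h, mul_zero] at hcon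
      exact lt_irrefl _ hcon
    exact ode_int hint hr₀ (by positivity : 0 < F r₀ ^ 2)
      fun r hr => hF2 (Set.mem_Ici.2 le_rfl) (Set.mem_Ici.2 hr) hr
  -- step 2
  have hB2 : AntitoneOn (fun r => B r ^ 2) (Set.Ioi 0) :=
    ode_anti (f' := fun r => 2 * r * (B r * F r)) (convex_Ioi 0) (fun r hr => by
      have := (hB r hr).pow 2
      refine this.congr_deriv ?_
      push_cast
      ring) fun r hr => by
        have hr : 0 < r := hr
        have := step1 r hr
        exact mul_nonpos_of_nonneg_of_nonpos (by positivity) this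
  have hB1 : ∀ r > 0, B r ^ 2 ≤ 1 := by
    intro r hr
    have h1 : Tendsto (fun r => B r ^ 2) (𝓝[>] 0) (𝓝 1) := by simpa using lB.pow 2
    refine ge_of_tendsto h1 ?_
    filter_upwards [Ioo_mem_nhdsGT hr] with x hx
    exact hB2 hx.1 hr hx.2.le
  have hFa : AntitoneOn (fun r => F r ^ 2) (Set.Ioi 0) :=
    ode_anti (convex_Ioi 0) (fun r hr => hF2' r hr) fun r hr => by
      have hr : 0 < r := hr
      have h1 := step1 r hr
      have h2 : 0 ≤ (1 - s r ^ 2) / r := div_nonneg (hρ0 r hr) hr.le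
      exact mul_nonpos_of_nonpos_of_nonneg (by linarith) h2
  have hFlim : Tendsto (fun r => F r ^ 2) atTop (𝓝 0) := by
    rw [Metric.tendsto_atTop]
    intro ε hε
    by_contra hcon
    push Not at hcon
    refine ode_int hint one_pos hε fun r hr => ?_
    obtain ⟨n, hn, hn2⟩ := hcon r
    rw [Real.dist_eq, sub_zero, abs_of_nonneg (sq_nonneg _)] at hn2
    have hr0 : 0 < r := one_pos.trans_le hr
    exact hn2.trans (hFa (Set.mem_Ioi.2 hr0) (Set.mem_Ioi.2 (hr0.trans_le hn)) hn)
  -- step 3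
  set W : ℝ → ℝ := fun r => E r + (B r / r) ^ 2 * (1 - s r ^ 2) - 2 * (B r / r) * t r with hW
  have hρW : ∀ r > 0, (1 - s r ^ 2) * W r = (t r - B r / r * (1 - s r ^ 2)) ^ 2 := by
    intro r hr
    have := hρ r hr
    simp only [hW]
    linear_combination this
  have hW0 : ∀ r > 0, 0 ≤ W r := by
    intro r hr
    rcases (hρ0 r hr).eq_or_lt with h | h
    · have h1 := hρ r hr
      rw [← h, zero_mul] at h1
      have h2 : t r = 0 := by
        rcases pow_eq_zero_iff (two_ne_zero) |>.1 h1.symm with h3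
        exact h3
      simp only [hW, h2, ← h]
      simpa using hE0 r hr
    · have h1 := hρW r hr
      have h2 : 0 ≤ (1 - s r ^ 2) * W r := by rw [h1]; positivity
      exact nonneg_of_mul_nonneg_right h2 h
  set M : ℝ → ℝ := fun r => ((1 - s r) + F r) ^ 2 - W r with hM
  have hM' : ∀ r > 0, HasDerivAt M (2 * W r / r * (1 - B r * s r)) r := by
    intro r hr
    have hr0 : r ≠ 0 := ne_of_gt hr
    have hb : HasDerivAt (fun r => B r / r) ((r * F r * r - B r * 1) / r ^ 2) r :=
      (hB r hr).div (hasDerivAt_id r) hr0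
    have hrho : HasDerivAt (fun r => 1 - s r ^ 2) (-(2 * s r * t r)) r := by
      have := ((hs r hr).pow 2).const_sub 1
      refine this.congr_deriv ?_
      push_cast
      ring
    have hv : HasDerivAt (fun r => (1 - s r) + F r) (-t r + B r * (1 - s r ^ 2) / r) r :=
      ((hs r hr).const_sub 1).add (hF r hr)
    have h1 := ((hE r hr).add ((hb.pow 2).mul hrho)).sub ((hb.const_mul 2).mul (ht r hr))
    have h2 := (hv.pow 2).sub h1
    refine h2.congr_deriv ?_
    simp only [hW, Pi.pow_apply]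
    push_cast
    field_simp
    ring
  have hBs : ∀ r > 0, B r * s r ≤ 1 := by
    intro r hr
    have h1 : |B r| ≤ 1 := (sq_le_one_iff_abs_le_one _).1 (hB1 r hr)
    have h2 := hs1 r hr
    calc B r * s r ≤ |B r * s r| := le_abs_self _
      _ = |B r| * |s r| := abs_mul _ _
      _ ≤ 1 * 1 := mul_le_mul h1 h2 (abs_nonneg _) zero_le_one
      _ = 1 := one_mul 1
  have hMm : MonotoneOn M (Set.Ioi 0) := ode_mono (convex_Ioi 0) hM' fun r hr => by
    have hr : 0 < r := hr
    have h1 := hW0 r hr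
    have h2 := hBs r hr
    exact mul_nonneg (by positivity) (by linarith)
  have hMlow : ∀ r > 0, (2 + F0) ^ 2 ≤ M r := by
    intro r hr
    have h1 : Tendsto M (𝓝[>] 0) (𝓝 (((1 - (-1)) + F0) ^ 2 - 0)) :=
      ((((tendsto_const_nhds (x := (1 : ℝ))).sub ls).add lF).pow 2).sub lW
    have h2 : (2 + F0) ^ 2 = ((1 - (-1)) + F0) ^ 2 - 0 := by ring
    rw [h2]
    refine le_of_tendsto h1 ?_
    filter_upwards [Ioo_mem_nhdsGT hr] with x hx
    exact hMm hx.1 hr hx.2.le
  have hMup : ∀ r > 0, M r ≤ 0 := by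
    intro r hr
    have h1 : Tendsto (fun R => 2 * (1 - s R) ^ 2 + 2 * F R ^ 2) atTop
        (𝓝 (2 * (1 - 1) ^ 2 + 2 * 0)) :=
      (((((tendsto_const_nhds (x := (1 : ℝ))).sub hinf).pow 2).const_mul 2).add
        (hFlim.const_mul 2))
    have h2 : (0 : ℝ) = 2 * (1 - 1) ^ 2 + 2 * 0 := by ring
    rw [h2]
    refine ge_of_tendsto h1 ?_
    filter_upwards [eventually_ge_atTop r] with R hR
    have hR0 : 0 < R := lt_of_lt_of_le hr hR
    have h3 : M r ≤ M R := hMm (Set.mem_Ioi.2 hr) (Set.mem_Ioi.2 hR0) hR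
    have h4 := hW0 R hR0
    have h5 : M R = ((1 - s R) + F R) ^ 2 - W R := rfl
    nlinarith [sq_nonneg ((1 - s R) - F R)]
  have hM0 : ∀ r > 0, M r = 0 := fun r hr =>
    le_antisymm (hMup r hr) ((sq_nonneg _).trans (hMlow r hr))
  have hF0 : F0 = -2 := by
    have h1 := hMlow 1 one_pos
    rw [hM0 1 one_pos] at h1
    have h2 : (2 + F0) ^ 2 = 0 := le_antisymm h1 (sq_nonneg _)
    have h3 := pow_eq_zero_iff (two_ne_zero) |>.1 h2
    linarith
  have hWBs : ∀ r > 0, W r * (1 - B r * s r) = 0 := by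
    intro r hr
    have h1 : HasDerivAt M 0 r := by
      have h2 : M =ᶠ[𝓝 r] fun _ => (0 : ℝ) := by
        filter_upwards [Ioi_mem_nhds hr] with x hx
        exact hM0 x hx
      exact (hasDerivAt_const r (0 : ℝ)).congr_of_eventuallyEq h2
    have h2 := (hM' r hr).unique h1
    have hr0 : r ≠ 0 := ne_of_gt hr
    have h3 : 2 * W r / r * (1 - B r * s r) = (2 / r) * (W r * (1 - B r * s r)) := by ring
    rw [h3] at h2
    rcases mul_eq_zero.1 h2 with h4 | h4
    · exact absurd h4 (by positivity)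
    · exact h4
  -- step 4
  have hBs1 : ∀ r > 0, B r * s r ≠ 1 := by
    intro r₀ hr₀ hcon
    have h1 : |B r₀| = 1 := by
      have h2 : |B r₀| ≤ 1 := (sq_le_one_iff_abs_le_one _).1 (hB1 r₀ hr₀)
      refine le_antisymm h2 ?_
      calc (1 : ℝ) = |B r₀ * s r₀| := by rw [hcon, abs_one]
        _ = |B r₀| * |s r₀| := abs_mul _ _
        _ ≤ |B r₀| * 1 := mul_le_mul_of_nonneg_left (hs1 r₀ hr₀) (abs_nonneg _)
        _ = |B r₀| := mul_one _
    have h2 : B r₀ ^ 2 = 1 := by rw [← sq_abs, h1, one_pow]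
    have h3 : ∀ r > 0, r ≤ r₀ → B r ^ 2 = 1 := fun r hr hrr =>
      le_antisymm (hB1 r hr) (by rw [← h2]; exact hB2 (Set.mem_Ioi.2 hr) (Set.mem_Ioi.2 hr₀) hrr)
    have h4 : ∀ r > 0, r < r₀ → F r = 0 := by
      intro r hr hrr
      have h5 : HasDerivAt (fun r => B r ^ 2) 0 r := by
        have h6 : (fun r => B r ^ 2) =ᶠ[𝓝 r] fun _ => (1 : ℝ) := by
          filter_upwards [Ioo_mem_nhds hr hrr] with x hx
          exact h3 x hx.1 hx.2.le
        exact (hasDerivAt_const r (1 : ℝ)).congr_of_eventuallyEq h6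
      have h7 := ((hB r hr).pow 2).unique h5
      have h8 : B r ≠ 0 := by
        intro h9
        have := h3 r hr hrr.le
        rw [h9] at this
        norm_num at this
      have h9 : (2 * r * B r) * F r = 0 := by
        rw [← h7]
        push_cast
        ring
      rcases mul_eq_zero.1 h9 with h10 | h10
      · exact absurd h10 (mul_ne_zero (by positivity) h8)
      · exact h10
    have h5 : Tendsto F (𝓝[>] 0) (𝓝 0) := by
      refine tendsto_const_nhds.congr' ?_
      filter_upwards [Ioo_mem_nhdsGT hr₀] with x hx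
      exact (h4 x hx.1 hx.2).symm
    have h6 := tendsto_nhds_unique lF h5
    rw [hF0] at h6
    norm_num at h6
  have hW00 : ∀ r > 0, W r = 0 := by
    intro r hr
    rcases mul_eq_zero.1 (hWBs r hr) with h | h
    · exact h
    · exact absurd (by linarith) (hBs1 r hr)
  have hFs : ∀ r > 0, F r = -(1 - s r) := by
    intro r hr
    have h1 : ((1 - s r) + F r) ^ 2 - W r = 0 := hM0 r hr
    rw [hW00 r hr, sub_zero] at h1
    have := pow_eq_zero_iff (two_ne_zero) |>.1 h1
    linarith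
  have hts : ∀ r > 0, t r = B r / r * (1 - s r ^ 2) := by
    intro r hr
    have h1 := hρW r hr
    rw [hW00 r hr, mul_zero] at h1
    have := pow_eq_zero_iff (two_ne_zero) |>.1 h1.symm
    linarith
  -- step 5
  have hB1' : ∀ r > 0, -1 ≤ B r ∧ B r ≤ 1 := fun r hr =>
    abs_le.1 ((sq_le_one_iff_abs_le_one _).1 (hB1 r hr))
  have hs1' : ∀ r > 0, -1 ≤ s r ∧ s r ≤ 1 := fun r hr => abs_le.1 (hs1 r hr)
  have hmono : MonotoneOn (fun r => r ^ 2 * (1 - s r)) (Set.Ioi 0) :=
    ode_mono (f' := fun r => r * (1 - s r) * (2 - B r * (1 + s r))) (convex_Ioi 0) (fun r hr => by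
      have hr : 0 < r := hr
      have h1 := ((hasDerivAt_id r).pow 2).mul ((hs r hr).const_sub 1)
      refine h1.congr_deriv ?_
      rw [hts r hr]
      simp only [id, Pi.pow_apply]
      push_cast
      field_simp
      ring) fun r hr => by
        have hr : 0 < r := hr
        have h1 := hB1' r hr
        have h2 := hs1' r hr
        refine mul_nonneg (mul_nonneg hr.le (by linarith)) ?_
        nlinarith
  obtain ⟨r₁, hr₁, hsr⟩ : ∃ r₁ > 0, s r₁ < 1 := by
    have h1 : ∀ᶠ r in 𝓝[>] (0 : ℝ), s r < 1 := ls.eventually (Iio_mem_nhds (by norm_num))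
    obtain ⟨r, h2, h3⟩ := (h1.and self_mem_nhdsWithin).exists
    exact ⟨r, h3, h2⟩
  set c := r₁ ^ 2 * (1 - s r₁) with hc
  have hc0 : 0 < c := mul_pos (by positivity) (by linarith)
  have hcr : ∀ r, r₁ ≤ r → c ≤ r ^ 2 * (1 - s r) := fun r hr =>
    hmono (Set.mem_Ioi.2 hr₁) (Set.mem_Ioi.2 (lt_of_lt_of_le hr₁ hr)) hr
  have hanti : AntitoneOn (fun r => B r + c * Real.log r) (Set.Ici r₁) :=
    ode_anti (f' := fun r => r * F r + c * r⁻¹) (convex_Ici r₁) (fun r hr => by
      have hr0 : 0 < r := lt_of_lt_of_le hr₁ hr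
      exact (hB r hr0).add ((Real.hasDerivAt_log hr0.ne').const_mul c)) fun r hr => by
        have hr0 : 0 < r := lt_of_lt_of_le hr₁ hr
        have h1 := hcr r hr
        rw [hFs r hr0]
        have h2 : r * -(1 - s r) + c * r⁻¹ = (c - r ^ 2 * (1 - s r)) * r⁻¹ := by
          field_simp
          ring
        rw [h2]
        exact mul_nonpos_of_nonpos_of_nonneg (by linarith) (by positivity)
  have hlim : Tendsto (fun r => c * Real.log r) atTop atTop :=
    Real.tendsto_log_atTop.const_mul_atTop hc0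
  obtain ⟨r, hr1, hr2⟩ := ((hlim.eventually_gt_atTop (B r₁ + c * Real.log r₁ + 1)).and
    (eventually_ge_atTop r₁)).exists
  have h1 : B r + c * Real.log r ≤ B r₁ + c * Real.log r₁ :=
    hanti (Set.mem_Ici.2 le_rfl) (Set.mem_Ici.2 hr2) hr2
  have h2 := (hB1' r (lt_of_lt_of_le hr₁ hr2)).1
  linarith

end O3
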