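import Pool.Agent.O3.Rot

/-! Values at the origin (problem MP_5f0afd_mp). -/

open MeasureTheory Filter Topology
open scoped ContDiff

noncomputable section

namespace O3

variable {c : Conf}

/-- values at the origin -/
theorem origin (hc : c.Critical) {N : ℤ} (hN : c.Equivariant N) (h0 : N ≠ 0) :
    (c.φ3 (0, 0) = 1 ∨ c.φ3 (0, 0) = -1) ∧
    (N ^ 2 = 1 → c.φ3 (0, 0) = -1 → c.W N (0, 0) = 0) := by
  have hN0 : (N : ℝ) ≠ 0 := by exact_mod_cast h0
  have hπ : (N : ℝ) * (Real.pi / N) = Real.pi := by field_simp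
  obtain ⟨k1, k2, -, -, -⟩ := hN (Real.pi / N) 0 0
  rw [hπ] at k1 k2
  simp only [mul_zero, sub_zero, add_zero, Real.cos_pi, Real.sin_pi, zero_mul] at k1 k2
  have f1 : c.φ1 (0, 0) = 0 := by linarith
  have f2 : c.φ2 (0, 0) = 0 := by linarith
  have hu := hc.unit (0, 0)
  rw [f1, f2] at hu
  have hu' : c.φ3 (0, 0) ^ 2 = 1 := by linarith
  refine ⟨sq_eq_one_iff.1 hu', ?_⟩
  intro hN2 h3
  obtain ⟨g1, g2, g3, g4, g5, g6, -⟩ := rot_D hc hN (Real.pi / 2) 0 0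
  have hNc : N = 1 ∨ N = -1 := sq_eq_one_iff.1 hN2
  have hp : Real.cos (N * (Real.pi / 2)) = 0 := by
    rcases hNc with rfl | rfl <;> simp
  have hq : Real.sin (N * (Real.pi / 2)) = N := by
    rcases hNc with rfl | rfl <;> simp
  rw [hp, hq] at g1 g2 g4 g5
  simp only [Real.cos_pi_div_two, Real.sin_pi_div_two, mul_zero, sub_zero, add_zero,
    zero_mul, zero_sub, one_mul] at g1 g2 g3 g4 g5 g6
  have hS1 : c.S1 (0, 0) = 0 := by linarith
  have hS2 : c.S2 (0, 0) = 0 := by linarith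
  have hP : c.P1 (0, 0) - N * c.Q2 (0, 0) = 0 := by linarith
  have hQ : c.Q1 (0, 0) + N * c.P2 (0, 0) = 0 := by linarith
  unfold Conf.W
  rw [f1, f2, h3, hS1, hS2]
  have e1 : c.P1 (0, 0) - N * (0 * 0 - -1 * c.Q2 (0, 0)) = 0 := by linarith
  have e2 : c.Q1 (0, 0) - N * (-1 * c.P2 (0, 0) - 0 * 0) = 0 := by linarith
  rw [e1, e2]
  ring

end O3
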