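import Pool.Agent.O3.Defs

/-! Integrals of radial functions in polar coordinates (problem MP_5f0afd_mp). -/

open MeasureTheory Filter Topology
open scoped ContDiff

noncomputable section

namespace O3

theorem radial_integrable {g : ℝ × ℝ → ℝ} (hg : Integrable g)
    (hrad : ∀ r α : ℝ, g (r * Real.cos α, r * Real.sin α) = g (r, 0)) :
    IntegrableOn (fun r => r * g (r, 0)) (Set.Ioi 0) ∧
    ∫ x, g x = 2 * Real.pi * ∫ r in Set.Ioi (0 : ℝ), r * g (r, 0) := by
  set h : ℝ → ℝ := fun r => r * g (r, 0) with hh
  have hsymm : ∀ p : ℝ × ℝ, g (polarCoord.symm p) = g (p.1, 0) := by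
    intro p
    rw [polarCoord_symm_apply]
    exact hrad p.1 p.2
  have htarget : polarCoord.target = Set.Ioi (0 : ℝ) ×ˢ Set.Ioo (-Real.pi) Real.pi := rfl
  have hmeas : MeasurableSet polarCoord.target := polarCoord.open_target.measurableSet
  -- integrability on the target
  have hI : IntegrableOn (fun p : ℝ × ℝ => h p.1) polarCoord.target := by
    have h1 : IntegrableOn g (polarCoord.symm '' polarCoord.target) := hg.integrableOn
    rw [integrableOn_image_iff_integrableOn_abs_det_fderiv_smul volume hmeas
      (fun p _ => (hasFDerivAt_polarCoord_symm p).hasFDerivWithinAt)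
      polarCoord.symm.injOn] at h1
    refine (h1.congr_fun ?_ hmeas)
    intro p hp
    simp only [det_fderivPolarCoordSymm, smul_eq_mul, hsymm, hh]
    rw [abs_of_pos hp.1]
  have hprod : (volume : Measure (ℝ × ℝ)).restrict polarCoord.target =
      (volume.restrict (Set.Ioi (0 : ℝ))).prod (volume.restrict (Set.Ioo (-Real.pi) Real.pi)) := by
    rw [htarget, Measure.prod_restrict]
    rfl
  have hI' : Integrable (fun p : ℝ × ℝ => h p.1)
      ((volume.restrict (Set.Ioi (0 : ℝ))).prod
        (volume.restrict (Set.Ioo (-Real.pi) Real.pi))) := by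
    rw [← hprod]
    exact hI
  have hint : IntegrableOn h (Set.Ioi 0) := by
    have h2 := hI'.prod_left_ae
    have hne : (volume.restrict (Set.Ioo (-Real.pi) Real.pi)) ≠ 0 := by
      rw [Ne, Measure.restrict_eq_zero, Real.volume_Ioo]
      have := Real.pi_pos
      simp only [ENNReal.ofReal_eq_zero, not_le]
      linarith
    have : (ae (volume.restrict (Set.Ioo (-Real.pi) Real.pi))).NeBot := ae_neBot.2 hne
    obtain ⟨y, hy⟩ := h2.exists
    exact hy
  refine ⟨hint, ?_⟩
  rw [← integral_comp_polarCoord_symm g]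
  have e1 : (∫ p in polarCoord.target, p.1 • g (polarCoord.symm p)) =
      ∫ p in polarCoord.target, h p.1 := by
    refine setIntegral_congr_fun hmeas fun p _ => ?_
    simp only [smul_eq_mul, hsymm, hh]
  rw [e1, hprod, integral_prod _ hI']
  have e2 : ∀ x : ℝ, (∫ _y : ℝ in Set.Ioo (-Real.pi) Real.pi, h x) = 2 * Real.pi * h x := by
    intro x
    rw [setIntegral_const, smul_eq_mul, Real.volume_real_Ioo_of_le (by linarith [Real.pi_pos])]
    ring
  have e3 : (fun x : ℝ => ∫ y : ℝ in Set.Ioo (-Real.pi) Real.pi,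
      (fun p : ℝ × ℝ => h p.1) (x, y)) = fun x => 2 * Real.pi * h x := funext e2
  rw [e3, integral_const_mul]

end O3
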