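import Pool.Agent.O3.Defs

/-! Transformation laws under rotations (problem MP_5f0afd_mp). -/

open MeasureTheory Filter Topology
open scoped ContDiff

noncomputable section

namespace O3

variable {c : Conf}

/-- chain rule under a rotation. -/
theorem rot_chain {f : ℝ × ℝ → ℝ} (hf : Differentiable ℝ f) (a b : ℝ) (x y : ℝ) :
    d1 (fun w : ℝ × ℝ => f (a * w.1 - b * w.2, b * w.1 + a * w.2)) (x, y) =
      a * d1 f (a * x - b * y, b * x + a * y) + b * d2 f (a * x - b * y, b * x + a * y) ∧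
    d2 (fun w : ℝ × ℝ => f (a * w.1 - b * w.2, b * w.1 + a * w.2)) (x, y) =
      -b * d1 f (a * x - b * y, b * x + a * y) + a * d2 f (a * x - b * y, b * x + a * y) := by
  have hR : HasFDerivAt (fun w : ℝ × ℝ => ((a * w.1 - b * w.2, b * w.1 + a * w.2) : ℝ × ℝ))
      ((a • ContinuousLinearMap.fst ℝ ℝ ℝ - b • ContinuousLinearMap.snd ℝ ℝ ℝ).prod
        (b • ContinuousLinearMap.fst ℝ ℝ ℝ + a • ContinuousLinearMap.snd ℝ ℝ ℝ)) (x, y) := by
    have h1 := ((hasFDerivAt_fst (𝕜 := ℝ) (p := ((x, y) : ℝ × ℝ))).const_mul a).sub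
      ((hasFDerivAt_snd (𝕜 := ℝ) (p := ((x, y) : ℝ × ℝ))).const_mul b)
    have h2 := ((hasFDerivAt_fst (𝕜 := ℝ) (p := ((x, y) : ℝ × ℝ))).const_mul b).add
      ((hasFDerivAt_snd (𝕜 := ℝ) (p := ((x, y) : ℝ × ℝ))).const_mul a)
    exact h1.prodMk h2
  have h := ((hf (a * x - b * y, b * x + a * y)).hasFDerivAt.comp (x, y) hR).fderiv
  have hcomp : (f ∘ fun w : ℝ × ℝ => ((a * w.1 - b * w.2, b * w.1 + a * w.2) : ℝ × ℝ)) =
      fun w : ℝ × ℝ => f (a * w.1 - b * w.2, b * w.1 + a * w.2) := rfl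
  rw [hcomp] at h
  set L := fderiv ℝ f (a * x - b * y, b * x + a * y) with hL
  have e1 : ((a, b) : ℝ × ℝ) = a • ((1, 0) : ℝ × ℝ) + b • ((0, 1) : ℝ × ℝ) := by
    ext <;> simp
  have e2 : ((-b, a) : ℝ × ℝ) = (-b) • ((1, 0) : ℝ × ℝ) + a • ((0, 1) : ℝ × ℝ) := by
    ext <;> simp
  constructor
  · have : d1 (fun w : ℝ × ℝ => f (a * w.1 - b * w.2, b * w.1 + a * w.2)) (x, y) =
        L ((a, b) : ℝ × ℝ) := by
      unfold d1
      rw [h]
      simp
    rw [this, e1, map_add, map_smul, map_smul]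
    rfl
  · have : d2 (fun w : ℝ × ℝ => f (a * w.1 - b * w.2, b * w.1 + a * w.2)) (x, y) =
        L ((-b, a) : ℝ × ℝ) := by
      unfold d2
      rw [h]
      simp
    rw [this, e2, map_add, map_smul, map_smul]
    rfl

theorem rot_diff {f : ℝ × ℝ → ℝ} (hf : ContDiff ℝ ∞ f) : Differentiable ℝ f :=
  hf.differentiable (by simp)

/-- derivative of a linear combination. -/
theorem rot_dlin {f g : ℝ × ℝ → ℝ} (hf : Differentiable ℝ f) (hg : Differentiable ℝ g) (s t : ℝ)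
    (w : ℝ × ℝ) : d1 (fun y => s * f y + t * g y) w = s * d1 f w + t * d1 g w ∧
      d2 (fun y => s * f y + t * g y) w = s * d2 f w + t * d2 g w := by
  have h := (((hf w).hasFDerivAt.const_mul s).add ((hg w).hasFDerivAt.const_mul t)).fderiv
  have hfun : ((fun y => s * f y) + fun y => t * g y) = fun y => s * f y + t * g y := rfl
  rw [hfun] at h
  constructor
  · unfold d1
    rw [h]
    simp
  · unfold d2
    rw [h]
    simp

/-- derivatives of a function with a transformation law. -/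
theorem rot_law {f g h : ℝ × ℝ → ℝ} (hf : Differentiable ℝ f) (hg : Differentiable ℝ g)
    (hh : Differentiable ℝ h) {a b : ℝ} (hab : a ^ 2 + b ^ 2 = 1) (s t : ℝ)
    (hlaw : ∀ x y : ℝ, f (a * x - b * y, b * x + a * y) = s * g (x, y) + t * h (x, y))
    (x y : ℝ) :
    d1 f (a * x - b * y, b * x + a * y) =
      a * (s * d1 g (x, y) + t * d1 h (x, y)) - b * (s * d2 g (x, y) + t * d2 h (x, y)) ∧
    d2 f (a * x - b * y, b * x + a * y) =
      b * (s * d1 g (x, y) + t * d1 h (x, y)) + a * (s * d2 g (x, y) + t * d2 h (x, y)) := by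
  obtain ⟨c1, c2⟩ := rot_chain hf a b x y
  have hfun : (fun w : ℝ × ℝ => f (a * w.1 - b * w.2, b * w.1 + a * w.2)) =
      fun w => s * g w + t * h w := by
    funext w
    exact hlaw w.1 w.2
  rw [hfun] at c1 c2
  obtain ⟨l1, l2⟩ := rot_dlin hg hh s t (x, y)
  rw [l1] at c1
  rw [l2] at c2
  constructor
  · linear_combination (-d1 f (a * x - b * y, b * x + a * y)) * hab - a * c1 + b * c2
  · linear_combination (-d2 f (a * x - b * y, b * x + a * y)) * hab - b * c1 - a * c2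

/-- transformation law of the covariant derivatives -/
theorem rot_D (hc : c.Critical) {N : ℤ} (hN : c.Equivariant N) (α x y : ℝ) :
    let z : ℝ × ℝ := (Real.cos α * x - Real.sin α * y, Real.sin α * x + Real.cos α * y)
    let a := Real.cos α
    let b := Real.sin α
    let p := Real.cos (N * α)
    let q := Real.sin (N * α)
    c.P1 z = p * (a * c.P1 (x, y) - b * c.P2 (x, y)) - q * (a * c.Q1 (x, y) - b * c.Q2 (x, y)) ∧
    c.Q1 z = q * (a * c.P1 (x, y) - b * c.P2 (x, y)) + p * (a * c.Q1 (x, y) - b * c.Q2 (x, y)) ∧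
    c.S1 z = a * c.S1 (x, y) - b * c.S2 (x, y) ∧
    c.P2 z = p * (b * c.P1 (x, y) + a * c.P2 (x, y)) - q * (b * c.Q1 (x, y) + a * c.Q2 (x, y)) ∧
    c.Q2 z = q * (b * c.P1 (x, y) + a * c.P2 (x, y)) + p * (b * c.Q1 (x, y) + a * c.Q2 (x, y)) ∧
    c.S2 z = b * c.S1 (x, y) + a * c.S2 (x, y) ∧
    c.F z = c.F (x, y) := by
  intro z a b p q
  have hab : a ^ 2 + b ^ 2 = 1 := Real.cos_sq_add_sin_sq α
  have e1 : ∀ x y : ℝ, c.φ1 (a * x - b * y, b * x + a * y) =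
      p * c.φ1 (x, y) + (-q) * c.φ2 (x, y) := by
    intro x y
    rw [(hN α x y).1]
    ring
  have e2 : ∀ x y : ℝ, c.φ2 (a * x - b * y, b * x + a * y) =
      q * c.φ1 (x, y) + p * c.φ2 (x, y) := fun x y => (hN α x y).2.1
  have e3 : ∀ x y : ℝ, c.φ3 (a * x - b * y, b * x + a * y) =
      1 * c.φ3 (x, y) + 0 * c.φ3 (x, y) := by
    intro x y
    rw [(hN α x y).2.2.1]
    ring
  have e4 : ∀ x y : ℝ, c.A1 (a * x - b * y, b * x + a * y) =
      a * c.A1 (x, y) + (-b) * c.A2 (x, y) := by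
    intro x y
    rw [(hN α x y).2.2.2.1]
    ring
  have e5 : ∀ x y : ℝ, c.A2 (a * x - b * y, b * x + a * y) =
      b * c.A1 (x, y) + a * c.A2 (x, y) := fun x y => (hN α x y).2.2.2.2
  have s1 := rot_diff hc.smooth_φ1
  have s2 := rot_diff hc.smooth_φ2
  have s3 := rot_diff hc.smooth_φ3
  have s4 := rot_diff hc.smooth_A1
  have s5 := rot_diff hc.smooth_A2
  obtain ⟨f1x, f1y⟩ := rot_law s1 s1 s2 hab p (-q) e1 x y
  obtain ⟨f2x, f2y⟩ := rot_law s2 s1 s2 hab q p e2 x y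
  obtain ⟨f3x, f3y⟩ := rot_law s3 s3 s3 hab 1 0 e3 x y
  obtain ⟨f4x, f4y⟩ := rot_law s4 s4 s5 hab a (-b) e4 x y
  obtain ⟨f5x, f5y⟩ := rot_law s5 s4 s5 hab b a e5 x y
  have hz : z = (a * x - b * y, b * x + a * y) := rfl
  rw [hz]
  unfold Conf.P1 Conf.Q1 Conf.S1 Conf.P2 Conf.Q2 Conf.S2 Conf.F
  rw [f1x, f1y, f2x, f2y, f3x, f3y, f4y, f5x, e1 x y, e2 x y, e4 x y, e5 x y]
  refine ⟨by ring, by ring, by ring, by ring, by ring, by ring, ?_⟩
  linear_combination (d1 c.A2 (x, y) - d2 c.A1 (x, y)) * hab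

/-- rotation invariance of the scalar quantities -/
theorem rot_inv (hc : c.Critical) {N : ℤ} (hN : c.Equivariant N) (r α : ℝ) :
    c.F (r * Real.cos α, r * Real.sin α) = c.F (r, 0) ∧
    c.density (r * Real.cos α, r * Real.sin α) = c.density (r, 0) ∧
    c.degDensity (r * Real.cos α, r * Real.sin α) = c.degDensity (r, 0) := by
  have hz : ((r * Real.cos α, r * Real.sin α) : ℝ × ℝ) =
      (Real.cos α * r - Real.sin α * 0, Real.sin α * r + Real.cos α * 0) := by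
    ext <;> simp [mul_comm]
  have hab : Real.cos α ^ 2 + Real.sin α ^ 2 = 1 := Real.cos_sq_add_sin_sq α
  have hpq : Real.cos (N * α) ^ 2 + Real.sin (N * α) ^ 2 = 1 := Real.cos_sq_add_sin_sq _
  rw [hz]
  obtain ⟨g1, g2, g3, g4, g5, g6, g7⟩ := rot_D hc hN α r 0
  obtain ⟨k1, k2, k3, -, -⟩ := hN α r 0
  refine ⟨g7, ?_, ?_⟩
  · unfold Conf.density
    rw [g1, g2, g3, g4, g5, g6, g7, k3]
    linear_combination
      ((Real.cos α * c.P1 (r, 0) - Real.sin α * c.P2 (r, 0)) ^ 2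
        + (Real.cos α * c.Q1 (r, 0) - Real.sin α * c.Q2 (r, 0)) ^ 2
        + (Real.sin α * c.P1 (r, 0) + Real.cos α * c.P2 (r, 0)) ^ 2
        + (Real.sin α * c.Q1 (r, 0) + Real.cos α * c.Q2 (r, 0)) ^ 2) * hpq
      + (c.P1 (r, 0) ^ 2 + c.P2 (r, 0) ^ 2 + c.Q1 (r, 0) ^ 2 + c.Q2 (r, 0) ^ 2
        + c.S1 (r, 0) ^ 2 + c.S2 (r, 0) ^ 2) * hab
  · have e1 : ∀ x y : ℝ, c.φ1 (Real.cos α * x - Real.sin α * y, Real.sin α * x + Real.cos α * y) =
        Real.cos (N * α) * c.φ1 (x, y) + (-Real.sin (N * α)) * c.φ2 (x, y) := by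
      intro x y
      rw [(hN α x y).1]
      ring
    have e2 : ∀ x y : ℝ, c.φ2 (Real.cos α * x - Real.sin α * y, Real.sin α * x + Real.cos α * y) =
        Real.sin (N * α) * c.φ1 (x, y) + Real.cos (N * α) * c.φ2 (x, y) :=
      fun x y => (hN α x y).2.1
    have e3 : ∀ x y : ℝ, c.φ3 (Real.cos α * x - Real.sin α * y, Real.sin α * x + Real.cos α * y) =
        1 * c.φ3 (x, y) + 0 * c.φ3 (x, y) := by
      intro x y
      rw [(hN α x y).2.2.1]
      ring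
    have s1 := rot_diff hc.smooth_φ1
    have s2 := rot_diff hc.smooth_φ2
    have s3 := rot_diff hc.smooth_φ3
    obtain ⟨f1x, f1y⟩ := rot_law s1 s1 s2 hab _ _ e1 r 0
    obtain ⟨f2x, f2y⟩ := rot_law s2 s1 s2 hab _ _ e2 r 0
    obtain ⟨f3x, f3y⟩ := rot_law s3 s3 s3 hab 1 0 e3 r 0
    unfold Conf.degDensity
    rw [f1x, f1y, f2x, f2y, f3x, f3y, k1, k2, k3]
    linear_combination (c.φ1 (r, 0) * (d1 c.φ2 (r, 0) * d2 c.φ3 (r, 0)
        - d1 c.φ3 (r, 0) * d2 c.φ2 (r, 0))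
      + c.φ2 (r, 0) * (d1 c.φ3 (r, 0) * d2 c.φ1 (r, 0) - d1 c.φ1 (r, 0) * d2 c.φ3 (r, 0))
      + c.φ3 (r, 0) * (d1 c.φ1 (r, 0) * d2 c.φ2 (r, 0) - d1 c.φ2 (r, 0) * d2 c.φ1 (r, 0)))
      * ((Real.cos α ^ 2 + Real.sin α ^ 2) * hpq + hab)

end O3
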