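import Pool.Agent.O3.Pde
import Pool.Agent.O3.Rot

/-! Radial equations for equivariant critical points (problem MP_5f0afd_mp). -/

open MeasureTheory Filter Topology
open scoped ContDiff

noncomputable section

namespace O3

variable {c : Conf}

/-- derivative along the first axis. -/
theorem ray_d1 {f : ℝ × ℝ → ℝ} (hf : ContDiff ℝ ∞ f) (r : ℝ) :
    HasDerivAt (fun r => f (r, 0)) (d1 f (r, 0)) r := by
  have h1 := (rot_diff hf (r, 0)).hasFDerivAt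
  have h2 : HasDerivAt (fun r : ℝ => ((r, 0) : ℝ × ℝ)) (1, 0) r :=
    (hasDerivAt_id r).prodMk (hasDerivAt_const r (0 : ℝ))
  exact h1.comp_hasDerivAt r h2

/-- derivative in the angle. -/
theorem ray_d2 {f : ℝ × ℝ → ℝ} (hf : ContDiff ℝ ∞ f) (r : ℝ) {g : ℝ → ℝ} {g' : ℝ}
    (h : ∀ α, f (r * Real.cos α, r * Real.sin α) = g α) (hg : HasDerivAt g g' 0) :
    r * d2 f (r, 0) = g' := by
  have h1 : HasFDerivAt f (fderiv ℝ f (r, 0)) (r * Real.cos 0, r * Real.sin 0) := by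
    have := (rot_diff hf (r, 0)).hasFDerivAt
    simpa using this
  have h2 : HasDerivAt (fun α : ℝ => ((r * Real.cos α, r * Real.sin α) : ℝ × ℝ))
      (r * (-Real.sin 0), r * Real.cos 0) 0 :=
    ((Real.hasDerivAt_cos 0).const_mul r).prodMk ((Real.hasDerivAt_sin 0).const_mul r)
  have h3 := h1.comp_hasDerivAt (0 : ℝ) h2
  have h4 : (f ∘ fun α : ℝ => ((r * Real.cos α, r * Real.sin α) : ℝ × ℝ)) = g := funext h
  rw [h4] at h3
  have h5 := h3.unique hg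
  rw [← h5]
  have e : ((r * (-Real.sin 0), r * Real.cos 0) : ℝ × ℝ) = r • ((0, 1) : ℝ × ℝ) := by
    ext <;> simp
  rw [e, map_smul]
  rfl

/-- derivative at `0` of the trigonometric combinations. -/
theorem ray_trig (N X Y U V : ℝ) :
    HasDerivAt (fun α : ℝ => Real.cos (N * α) * (Real.cos α * X - Real.sin α * Y)
      - Real.sin (N * α) * (Real.cos α * U - Real.sin α * V)) (-Y - N * U) 0 := by
  have hN : HasDerivAt (fun α : ℝ => N * α) N 0 := by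
    simpa using (hasDerivAt_id (0 : ℝ)).const_mul N
  have hp : HasDerivAt (fun α : ℝ => Real.cos (N * α)) (-Real.sin (N * 0) * N) 0 := hN.cos
  have hq : HasDerivAt (fun α : ℝ => Real.sin (N * α)) (Real.cos (N * 0) * N) 0 := hN.sin
  have ha := Real.hasDerivAt_cos 0
  have hb := Real.hasDerivAt_sin 0
  have h1 := hp.mul ((ha.mul_const X).sub (hb.mul_const Y))
  have h2 := hq.mul ((ha.mul_const U).sub (hb.mul_const V))
  refine (h1.sub h2).congr_deriv ?_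
  simp

theorem ray (hc : c.Critical) {N : ℤ} (hN : c.Equivariant N) :
    ∀ r > 0,
      HasDerivAt (fun r => c.φ3 (r, 0)) (d1 c.φ3 (r, 0)) r ∧
      HasDerivAt (fun r => d1 c.φ3 (r, 0)) (-d1 c.φ3 (r, 0) / r
        - ((c.P1 (r, 0) ^ 2 + c.Q1 (r, 0) ^ 2 + c.S1 (r, 0) ^ 2)
          + ((N + r * c.A2 (r, 0)) / r) ^ 2 * (1 - c.φ3 (r, 0) ^ 2)) * c.φ3 (r, 0)
        - (1 - c.φ3 (r, 0)) * (1 - c.φ3 (r, 0) ^ 2)) r ∧
      HasDerivAt (fun r => c.P1 (r, 0) ^ 2 + c.Q1 (r, 0) ^ 2 + c.S1 (r, 0) ^ 2)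
        (-2 * (1 - c.φ3 (r, 0)) * d1 c.φ3 (r, 0)
          - 2 * (c.P1 (r, 0) ^ 2 + c.Q1 (r, 0) ^ 2 + c.S1 (r, 0) ^ 2) / r
          - 2 * ((N + r * c.A2 (r, 0)) / r) ^ 2 * c.φ3 (r, 0) * d1 c.φ3 (r, 0)) r ∧
      HasDerivAt (fun r => (N : ℝ) + r * c.A2 (r, 0)) (r * c.F (r, 0)) r ∧
      HasDerivAt (fun r => c.F (r, 0)) ((N + r * c.A2 (r, 0)) * (1 - c.φ3 (r, 0) ^ 2) / r) r ∧
      (1 - c.φ3 (r, 0) ^ 2) * (c.P1 (r, 0) ^ 2 + c.Q1 (r, 0) ^ 2 + c.S1 (r, 0) ^ 2)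
        = d1 c.φ3 (r, 0) ^ 2 ∧
      c.W N (r, 0) = (c.P1 (r, 0) ^ 2 + c.Q1 (r, 0) ^ 2 + c.S1 (r, 0) ^ 2)
        + (N : ℝ) ^ 2 * ((N + r * c.A2 (r, 0)) / r) ^ 2 * (1 - c.φ3 (r, 0) ^ 2)
        - 2 * N * ((N + r * c.A2 (r, 0)) / r) * d1 c.φ3 (r, 0) ∧
      c.degDensity (r, 0) = -(N / r) * d1 c.φ3 (r, 0) := by
  intro r hr
  have hr0 : r ≠ 0 := hr.ne'
  -- smoothness
  have s1 := hc.smooth_φ1
  have s2 := hc.smooth_φ2
  have s3 := hc.smooth_φ3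
  have t1 := hc.smooth_A1
  have t2 := hc.smooth_A2
  have sP1 : ContDiff ℝ ∞ c.P1 := (smooth_d1 s1).sub (t1.mul s2)
  have sQ1 : ContDiff ℝ ∞ c.Q1 := (smooth_d1 s2).add (t1.mul s1)
  have sS1 : ContDiff ℝ ∞ c.S1 := smooth_d1 s3
  have sP2 : ContDiff ℝ ∞ c.P2 := (smooth_d2 s1).sub (t2.mul s2)
  have sQ2 : ContDiff ℝ ∞ c.Q2 := (smooth_d2 s2).add (t2.mul s1)
  have sS2 : ContDiff ℝ ∞ c.S2 := smooth_d2 s3
  have sF : ContDiff ℝ ∞ c.F := smooth_F hc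
  -- rotation laws on the circle
  have hz : ∀ α : ℝ, ((r * Real.cos α, r * Real.sin α) : ℝ × ℝ) =
      (Real.cos α * r - Real.sin α * 0, Real.sin α * r + Real.cos α * 0) := by
    intro α
    ext <;> simp [mul_comm]
  have a1 : r * d2 c.φ1 (r, 0) = -N * c.φ2 (r, 0) := by
    refine ray_d2 s1 r (g := fun α => Real.cos (N * α) *
      (Real.cos α * 0 - Real.sin α * 0 + c.φ1 (r, 0)) - Real.sin (N * α) * c.φ2 (r, 0)) ?_ ?_
    · intro α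
      rw [hz, (hN α r 0).1]
      ring
    · have hNd : HasDerivAt (fun α : ℝ => (N : ℝ) * α) N 0 := by
        simpa using (hasDerivAt_id (0 : ℝ)).const_mul (N : ℝ)
      have h1 := (hNd.cos.mul_const (c.φ1 (r, 0))).sub (hNd.sin.mul_const (c.φ2 (r, 0)))
      refine (h1.congr_deriv ?_).congr_of_eventuallyEq ?_
      · simp
      · filter_upwards with α
        simp
  have a2 : r * d2 c.φ2 (r, 0) = N * c.φ1 (r, 0) := by
    refine ray_d2 s2 r (g := fun α => Real.sin (N * α) * c.φ1 (r, 0)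
      + Real.cos (N * α) * c.φ2 (r, 0)) ?_ ?_
    · intro α
      rw [hz, (hN α r 0).2.1]
    · have hNd : HasDerivAt (fun α : ℝ => (N : ℝ) * α) N 0 := by
        simpa using (hasDerivAt_id (0 : ℝ)).const_mul (N : ℝ)
      have h1 := (hNd.sin.mul_const (c.φ1 (r, 0))).add (hNd.cos.mul_const (c.φ2 (r, 0)))
      refine h1.congr_deriv ?_
      simp
  have a3 : r * d2 c.φ3 (r, 0) = 0 := by
    refine ray_d2 s3 r (g := fun _ => c.φ3 (r, 0)) ?_ (hasDerivAt_const _ _)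
    intro α
    rw [hz, (hN α r 0).2.2.1]
  have a4 : r * d2 c.A1 (r, 0) = -c.A2 (r, 0) := by
    refine ray_d2 t1 r (g := fun α => Real.cos α * c.A1 (r, 0)
      - Real.sin α * c.A2 (r, 0)) ?_ ?_
    · intro α
      rw [hz, (hN α r 0).2.2.2.1]
    · have h1 := ((Real.hasDerivAt_cos 0).mul_const (c.A1 (r, 0))).sub
        ((Real.hasDerivAt_sin 0).mul_const (c.A2 (r, 0)))
      refine h1.congr_deriv ?_
      simp
  have a5 : r * d2 c.F (r, 0) = 0 := by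
    refine ray_d2 sF r (g := fun _ => c.F (r, 0)) ?_ (hasDerivAt_const _ _)
    intro α
    exact (rot_inv hc hN r α).1
  have a6 : r * d2 c.P2 (r, 0) = c.P1 (r, 0) - N * c.Q2 (r, 0) := by
    refine ray_d2 sP2 r (g := fun α => Real.cos (N * α) * (Real.cos α * c.P2 (r, 0)
      - Real.sin α * (-c.P1 (r, 0))) - Real.sin (N * α) * (Real.cos α * c.Q2 (r, 0)
      - Real.sin α * (-c.Q1 (r, 0)))) ?_ ?_
    · intro α
      rw [hz, (rot_D hc hN α r 0).2.2.2.1]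
      ring
    · refine (ray_trig N _ _ _ _).congr_deriv ?_
      ring
  have a7 : r * d2 c.Q2 (r, 0) = c.Q1 (r, 0) + N * c.P2 (r, 0) := by
    refine ray_d2 sQ2 r (g := fun α => Real.cos (N * α) * (Real.cos α * c.Q2 (r, 0)
      - Real.sin α * (-c.Q1 (r, 0))) - Real.sin (N * α) * (Real.cos α * (-c.P2 (r, 0))
      - Real.sin α * (c.P1 (r, 0)))) ?_ ?_
    · intro α
      rw [hz, (rot_D hc hN α r 0).2.2.2.2.1]
      ring
    · refine (ray_trig N _ _ _ _).congr_deriv ?_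
      ring
  have a8 : r * d2 c.S2 (r, 0) = c.S1 (r, 0) := by
    refine ray_d2 sS2 r (g := fun α => Real.sin α * c.S1 (r, 0)
      + Real.cos α * c.S2 (r, 0)) ?_ ?_
    · intro α
      rw [hz, (rot_D hc hN α r 0).2.2.2.2.2.1]
    · have h1 := ((Real.hasDerivAt_sin 0).mul_const (c.S1 (r, 0))).add
        ((Real.hasDerivAt_cos 0).mul_const (c.S2 (r, 0)))
      refine h1.congr_deriv ?_
      simp
  -- pointwise identities at `(r, 0)`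
  have hu := hc.unit (r, 0)
  have hdot : c.φ1 (r, 0) * d1 c.φ1 (r, 0) + c.φ2 (r, 0) * d1 c.φ2 (r, 0)
      + c.φ3 (r, 0) * d1 c.φ3 (r, 0) = 0 := by
    have h1 : (fun x => c.φ1 x ^ 2 + c.φ2 x ^ 2 + c.φ3 x ^ 2) = fun _ => (1 : ℝ) :=
      funext hc.unit
    have h2 := d1_add ((s1.pow 2).add (s2.pow 2)) (s3.pow 2) (r, 0)
    have h3 := d1_add (s1.pow 2) (s2.pow 2) (r, 0)
    rw [d1_sq s1, d1_sq s2] at h3
    have h4 : d1 (fun x => c.φ1 x ^ 2 + c.φ2 x ^ 2 + c.φ3 x ^ 2) (r, 0) = 0 := by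
      rw [h1]
      exact d1_const 1 _
    rw [d1_sq s3] at h2
    have h5 : d1 (fun x => c.φ1 x ^ 2 + c.φ2 x ^ 2) (r, 0) + 2 * c.φ3 (r, 0) * d1 c.φ3 (r, 0) = 0 :=
      h2.symm.trans h4
    rw [h3] at h5
    linarith
  have hA1 := hc.eqA1 (r, 0)
  have hA2 := hc.eqA2 (r, 0)
  have hφ1 := hc.eqφ1 (r, 0)
  have hφ2 := hc.eqφ2 (r, 0)
  have hφ3 := hc.eqφ3 (r, 0)
  have hl := lapl_φ3 hc (r, 0)
  have hP1d : c.P1 (r, 0) = d1 c.φ1 (r, 0) - c.A1 (r, 0) * c.φ2 (r, 0) := rfl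
  have hQ1d : c.Q1 (r, 0) = d1 c.φ2 (r, 0) + c.A1 (r, 0) * c.φ1 (r, 0) := rfl
  have hS1d : c.S1 (r, 0) = d1 c.φ3 (r, 0) := rfl
  have hP2d : c.P2 (r, 0) = d2 c.φ1 (r, 0) - c.A2 (r, 0) * c.φ2 (r, 0) := rfl
  have hQ2d : c.Q2 (r, 0) = d2 c.φ2 (r, 0) + c.A2 (r, 0) * c.φ1 (r, 0) := rfl
  have hS2d : c.S2 (r, 0) = d2 c.φ3 (r, 0) := rfl
  have hFd : c.F (r, 0) = d1 c.A2 (r, 0) - d2 c.A1 (r, 0) := rfl
  have hL1d : c.L1 (r, 0) = (d1 c.P1 (r, 0) - c.A1 (r, 0) * c.Q1 (r, 0))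
      + (d2 c.P2 (r, 0) - c.A2 (r, 0) * c.Q2 (r, 0)) := rfl
  have hL2d : c.L2 (r, 0) = (d1 c.Q1 (r, 0) + c.A1 (r, 0) * c.P1 (r, 0))
      + (d2 c.Q2 (r, 0) + c.A2 (r, 0) * c.P2 (r, 0)) := rfl
  have hL3d : c.L3 (r, 0) = d1 c.S1 (r, 0) + d2 c.S2 (r, 0) := rfl
  set β := ((N : ℝ) + r * c.A2 (r, 0)) / r with hβ
  have hβr : r * β = N + r * c.A2 (r, 0) := by
    rw [hβ]
    field_simp
  have b1 : d2 c.φ1 (r, 0) = -(N / r) * c.φ2 (r, 0) := by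
    field_simp
    linarith
  have b2 : d2 c.φ2 (r, 0) = (N / r) * c.φ1 (r, 0) := by
    field_simp
    linarith
  have b3 : d2 c.φ3 (r, 0) = 0 := by
    rcases mul_eq_zero.1 a3 with h | h
    · exact absurd h hr0
    · exact h
  have hNβ : (N : ℝ) / r = β - c.A2 (r, 0) := by
    rw [hβ]
    field_simp
    ring
  have c1 : c.P2 (r, 0) = -β * c.φ2 (r, 0) := by
    rw [hP2d, b1, hNβ]
    ring
  have c2 : c.Q2 (r, 0) = β * c.φ1 (r, 0) := by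
    rw [hQ2d, b2, hNβ]
    ring
  have c3 : c.S2 (r, 0) = 0 := by
    rw [hS2d, b3]
  have c4 : d2 c.A1 (r, 0) = -c.A2 (r, 0) / r := by
    field_simp
    linarith
  have c5 : d2 c.F (r, 0) = 0 := by
    rcases mul_eq_zero.1 a5 with h | h
    · exact absurd h hr0
    · exact h
  have c6 : d2 c.P2 (r, 0) = c.P1 (r, 0) / r - (β - c.A2 (r, 0)) * c.Q2 (r, 0) := by
    rw [← hNβ]
    field_simp
    linarith
  have c7 : d2 c.Q2 (r, 0) = c.Q1 (r, 0) / r + (β - c.A2 (r, 0)) * c.P2 (r, 0) := by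
    rw [← hNβ]
    field_simp
    linarith
  have c8 : d2 c.S2 (r, 0) = c.S1 (r, 0) / r := by
    field_simp
    linarith
  have hDφ : c.φ1 (r, 0) * c.P1 (r, 0) + c.φ2 (r, 0) * c.Q1 (r, 0)
      + c.φ3 (r, 0) * c.S1 (r, 0) = 0 := by
    rw [hP1d, hQ1d, hS1d]
    linarith
  have hJ : c.φ1 (r, 0) * c.Q1 (r, 0) - c.φ2 (r, 0) * c.P1 (r, 0) = 0 := by
    rw [c5] at hA2
    linarith
  refine ⟨ray_d1 s3 r, ?_, ?_, ?_, ?_, ?_, ?_, ?_⟩
  · refine (ray_d1 (smooth_d1 s3) r).congr_deriv ?_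
    have h1 : d2 (d2 c.φ3) (r, 0) = d1 c.φ3 (r, 0) / r := by
      have : d2 c.S2 (r, 0) = c.S1 (r, 0) / r := c8
      exact this
    rw [h1, c1, c2, c3] at hl
    linear_combination hl - (β ^ 2 * c.φ3 (r, 0)) * hu
  · have e1 := ray_d1 sP1 r
    have e2 := ray_d1 sQ1 r
    have e3 := ray_d1 sS1 r
    refine (((e1.pow 2).add (e2.pow 2)).add (e3.pow 2)).congr_deriv ?_
    have hDL : c.P1 (r, 0) * c.L1 (r, 0) + c.Q1 (r, 0) * c.L2 (r, 0)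
        + c.S1 (r, 0) * (c.L3 (r, 0) + (1 - c.φ3 (r, 0))) = 0 := by
      linear_combination (-(c.P1 (r, 0) * c.L1 (r, 0) + c.Q1 (r, 0) * c.L2 (r, 0)
        + c.S1 (r, 0) * (c.L3 (r, 0) + (1 - c.φ3 (r, 0))))) * hu
        + (c.φ1 (r, 0) * c.L1 (r, 0) + c.φ2 (r, 0) * c.L2 (r, 0)
          + c.φ3 (r, 0) * (c.L3 (r, 0) + (1 - c.φ3 (r, 0)))) * hDφ
        + (c.φ2 (r, 0) * c.S1 (r, 0) - c.φ3 (r, 0) * c.Q1 (r, 0)) * hφ1
        + (c.φ3 (r, 0) * c.P1 (r, 0) - c.φ1 (r, 0) * c.S1 (r, 0)) * hφ2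
        + (c.φ1 (r, 0) * c.Q1 (r, 0) - c.φ2 (r, 0) * c.P1 (r, 0)) * hφ3
    rw [hL1d, hL2d, hL3d, c6, c7, c8, c1, c2] at hDL
    rw [← hS1d]
    simp only [Nat.cast_ofNat, Nat.add_one_sub_one, pow_one]
    linear_combination 2 * hDL + (2 * β ^ 2) * hDφ
  · have h1 := (hasDerivAt_id r).mul (ray_d1 t2 r)
    refine (h1.const_add (N : ℝ)).congr_deriv ?_
    rw [hFd, c4]
    simp only [id]
    field_simp
    ring
  · refine (ray_d1 sF r).congr_deriv ?_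
    rw [hA1, c1, c2]
    have : ((N : ℝ) + r * c.A2 (r, 0)) * (1 - c.φ3 (r, 0) ^ 2) / r =
        β * (1 - c.φ3 (r, 0) ^ 2) := by
      rw [hβ]
      ring
    rw [this]
    linear_combination β * hu
  · rw [← hS1d]
    linear_combination (-(c.P1 (r, 0) ^ 2 + c.Q1 (r, 0) ^ 2)) * hu
      + (c.φ1 (r, 0) * c.P1 (r, 0) + c.φ2 (r, 0) * c.Q1 (r, 0) - c.φ3 (r, 0) * c.S1 (r, 0)) * hDφ
      + (c.φ1 (r, 0) * c.Q1 (r, 0) - c.φ2 (r, 0) * c.P1 (r, 0)) * hJ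
  · unfold Conf.W
    rw [c1, c2, c3, ← hS1d]
    clear_value β
    linear_combination (2 * N * β * c.φ3 (r, 0)) * hDφ
      + ((N : ℝ) ^ 2 * β ^ 2 * (c.φ1 (r, 0) ^ 2 + c.φ2 (r, 0) ^ 2 + 1)
        - 2 * N * β * c.S1 (r, 0)) * hu
  · unfold Conf.degDensity
    rw [b1, b2, b3]
    linear_combination (N / r) * c.φ3 (r, 0) * hdot - (N / r) * d1 c.φ3 (r, 0) * hu

end O3
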