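import Pool.Agent.O3.Pde
import Pool.Agent.O3.Ode
import Pool.Agent.O3.Rot
import Pool.Agent.O3.Ray
import Pool.Agent.O3.Origin
import Pool.Agent.O3.Polar

/-! No equivariant critical point has degree `±1` (problem MP_5f0afd_mp). -/

open MeasureTheory Filter Topology
open scoped ContDiff

noncomputable section

namespace O3

variable {c : Conf}

theorem m2_atTop (hc : c.Critical) : Tendsto (fun r : ℝ => c.φ3 (r, 0)) atTop (𝓝 1) := by
  have h : Tendsto (fun r : ℝ => ((r, 0) : ℝ × ℝ)) atTop (cocompact (ℝ × ℝ)) := by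
    refine tendsto_cocompact_of_tendsto_dist_comp_atTop ((0, 0) : ℝ × ℝ) ?_
    have : (fun r : ℝ => dist ((r, 0) : ℝ × ℝ) (0, 0)) = fun r => |r| := by
      funext r
      rw [Prod.dist_eq]
      simp
    rw [this]
    exact tendsto_abs_atTop_atTop
  exact hc.boundary.comp h

theorem m2_cont {f : ℝ × ℝ → ℝ} (hf : Continuous f) :
    Tendsto (fun r : ℝ => f (r, 0)) (𝓝[>] 0) (𝓝 (f (0, 0))) := by
  have h : Continuous fun r : ℝ => f (r, 0) := hf.comp (by fun_prop)
  exact (h.tendsto 0).mono_left nhdsWithin_le_nhds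

/-- the degree. -/
theorem m2_degree (hc : c.Critical) {N : ℤ} (hN : c.Equivariant N) :
    c.degree = 0 ∨ c.degree = -N * (1 - c.φ3 (0, 0)) / 2 := by
  by_cases hi : Integrable c.degDensity
  · right
    obtain ⟨h1, h2⟩ := radial_integrable hi (fun r α => (rot_inv hc hN r α).2.2)
    have h3 : ∀ r ∈ Set.Ioi (0 : ℝ), r * c.degDensity (r, 0) = -N * d1 c.φ3 (r, 0) := by
      intro r hr
      have hr' : (0 : ℝ) < r := hr
      rw [(ray hc hN r hr).2.2.2.2.2.2.2]
      field_simp
    have h4 : ∫ r in Set.Ioi (0 : ℝ), r * c.degDensity (r, 0) =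
        -N * (1 - c.φ3 (0, 0)) := by
      rw [setIntegral_congr_fun measurableSet_Ioi h3]
      by_cases hN0 : N = 0
      · subst hN0
        simp
      · have hN0' : (N : ℝ) ≠ 0 := by exact_mod_cast hN0
        have h5 : IntegrableOn (fun r => d1 c.φ3 (r, 0)) (Set.Ioi 0) := by
          have h6 : IntegrableOn (fun r => -N * d1 c.φ3 (r, 0)) (Set.Ioi 0) :=
            h1.congr_fun h3 measurableSet_Ioi
          have h7 : IntegrableOn (fun r => (-(N : ℝ))⁻¹ * (-N * d1 c.φ3 (r, 0))) (Set.Ioi 0) :=
            h6.const_mul _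
          refine h7.congr_fun (fun r _ => ?_) measurableSet_Ioi
          simp only
          field_simp
        rw [integral_const_mul]
        congr 1
        exact integral_Ioi_of_hasDerivAt_of_tendsto (f := fun r => c.φ3 (r, 0))
          ((hc.smooth_φ3.continuous.comp (by fun_prop : Continuous fun r : ℝ =>
            ((r, 0) : ℝ × ℝ))).continuousWithinAt)
          (fun r hr => (ray hc hN r hr).1) h5 (m2_atTop hc)
    unfold Conf.degree
    rw [h2, h4]
    have := Real.pi_pos
    field_simp
    ring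
  · left
    unfold Conf.degree
    rw [integral_undef hi, mul_zero]

theorem m2_W (hc : c.Critical) (σ : ℝ) : Continuous (c.W σ) := (smooth_W hc σ).continuous

theorem main2_aux (hc : c.Critical) {N : ℤ} (hN : c.Equivariant N) (hN2 : N ^ 2 = 1)
    (h0 : c.φ3 (0, 0) = -1) : False := by
  have hNr : (N : ℝ) ^ 2 = 1 := by exact_mod_cast hN2
  have hN0 : N ≠ 0 := by
    rintro rfl
    simp at hN2
  have hW0 : c.W N (0, 0) = 0 := (origin hc hN hN0).2 hN2 h0
  have hr := ray hc hN
  have sF := smooth_F hc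
  have cA2 : Continuous c.A2 := hc.smooth_A2.continuous
  refine ode_false (fun r => c.φ3 (r, 0)) (fun r => d1 c.φ3 (r, 0))
    (fun r => c.P1 (r, 0) ^ 2 + c.Q1 (r, 0) ^ 2 + c.S1 (r, 0) ^ 2)
    (fun r => N * ((N : ℝ) + r * c.A2 (r, 0))) (fun r => N * c.F (r, 0)) (N * c.F (0, 0))
    (fun r h => (hr r h).1) (fun r h => ?_) (fun r h => ?_) (fun r h => ?_) (fun r h => ?_)
    (fun r h => (hr r h).2.2.2.2.2.1) (fun r _ => by positivity) (fun r _ => ?_) ?_ ?_ ?_ ?_ ?_
    (m2_atTop hc)
  · refine (hr r h).2.1.congr_deriv ?_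
    have : (N * ((N : ℝ) + r * c.A2 (r, 0)) / r) ^ 2 = (((N : ℝ) + r * c.A2 (r, 0)) / r) ^ 2 := by
      rw [mul_div_assoc, mul_pow, hNr, one_mul]
    rw [this]
  · refine (hr r h).2.2.1.congr_deriv ?_
    have : (N * ((N : ℝ) + r * c.A2 (r, 0)) / r) ^ 2 = (((N : ℝ) + r * c.A2 (r, 0)) / r) ^ 2 := by
      rw [mul_div_assoc, mul_pow, hNr, one_mul]
    rw [this]
  · refine ((hr r h).2.2.2.1.const_mul (N : ℝ)).congr_deriv ?_
    ring
  · refine ((hr r h).2.2.2.2.1.const_mul (N : ℝ)).congr_deriv ?_
    ring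
  · have hu := hc.unit (r, 0)
    rw [abs_le]
    constructor <;> nlinarith [sq_nonneg (c.φ1 (r, 0)), sq_nonneg (c.φ2 (r, 0))]
  · have h1 : Continuous fun r : ℝ => N * ((N : ℝ) + r * c.A2 (r, 0)) := by fun_prop
    have h2 := (h1.tendsto 0).mono_left (nhdsWithin_le_nhds (s := Set.Ioi 0))
    simp only [zero_mul, add_zero] at h2
    have : (N : ℝ) * N = 1 := by rw [← sq, hNr]
    rwa [this] at h2
  · exact (m2_cont sF.continuous).const_mul (N : ℝ)
  · have := m2_cont (f := c.φ3) hc.smooth_φ3.continuous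
    rwa [h0] at this
  · have h1 := m2_cont (m2_W hc N)
    rw [hW0] at h1
    refine h1.congr' ?_
    filter_upwards [self_mem_nhdsWithin] with r hr0
    rw [(hr r hr0).2.2.2.2.2.2.1]
    ring
  · have hFi : Integrable (fun x => c.F x ^ 2) := by
      refine hc.finite.mono' (sF.continuous.pow 2).aestronglyMeasurable ?_
      filter_upwards with x
      rw [Real.norm_eq_abs, abs_of_nonneg (sq_nonneg _)]
      unfold Conf.density
      have h1 := sq_nonneg (c.P1 x)
      have h2 := sq_nonneg (c.Q1 x)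
      have h3 := sq_nonneg (c.S1 x)
      have h4 := sq_nonneg (c.P2 x)
      have h5 := sq_nonneg (c.Q2 x)
      have h6 := sq_nonneg (c.S2 x)
      have h7 := sq_nonneg (1 - c.φ3 x)
      linarith
    have h1 := (radial_integrable hFi (fun r α => by
      rw [(rot_inv hc hN r α).1])).1
    refine h1.congr_fun (fun r _ => ?_) measurableSet_Ioi
    simp only
    rw [mul_pow, hNr, one_mul]

theorem main2 (hc : c.Critical) {N : ℤ} (hN : c.Equivariant N) :
    c.degree ≠ 1 ∧ c.degree ≠ -1 := by
  have key : ∀ d : ℝ, d ^ 2 = 1 → c.degree ≠ d := by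
    intro d hd hdeg
    rcases m2_degree hc hN with h | h
    · rw [h] at hdeg
      rw [← hdeg] at hd
      norm_num at hd
    · by_cases hN0 : N = 0
      · subst hN0
        rw [hdeg] at h
        norm_num at h
        rw [h] at hd
        norm_num at hd
      · rcases (origin hc hN hN0).1 with h1 | h1
        · rw [hdeg, h1] at h
          norm_num at h
          rw [h] at hd
          norm_num at hd
        · have h2 : d = -N := by
            rw [hdeg, h1] at h
            linarith
          rw [h2] at hd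
          have h3 : N ^ 2 = 1 := by
            have : (N : ℝ) ^ 2 = 1 := by linarith [neg_sq (N : ℝ)]
            exact_mod_cast this
          exact main2_aux hc hN h3 h1
  exact ⟨key 1 (by norm_num), key (-1) (by norm_num)⟩

end O3
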